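import Pool.Agent.Lib.MP_3cbb73_an.Potential

set_option autoImplicit false

/-! Energy estimates for the pure greedy algorithm over a Riesz basis. -/

namespace Pool.Agent.Lib.MP_3cbb73_an

open Real Filter Topology
open scoped RealInnerProductSpace

variable {H : Type*} [NormedAddCommGroup H] [InnerProductSpace ℝ H] {ι : Type*}

/-- Riesz inequalities (with squared constants). -/
structure Riesz (g : ι → H) (p q : ℝ) : Prop where
  norm_one : ∀ i, ‖g i‖ = 1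
  lower : ∀ (s : Finset ι) (c : ι → ℝ), p * ∑ i ∈ s, c i ^ 2 ≤ ‖∑ i ∈ s, c i • g i‖ ^ 2
  upper : ∀ (s : Finset ι) (c : ι → ℝ), ‖∑ i ∈ s, c i • g i‖ ^ 2 ≤ q * ∑ i ∈ s, c i ^ 2

variable {g : ι → H} {p q : ℝ}

lemma Riesz.partial_le (hg : Riesz g p q) (hp : 0 ≤ p) {x : ι → ℝ} {f : H}
    (hx : HasSum (fun i => x i • g i) f) (s : Finset ι) :
    p * ∑ i ∈ s, x i ^ 2 ≤ ‖f‖ ^ 2 := by
  have h1 : Tendsto (fun s : Finset ι => ‖∑ i ∈ s, x i • g i‖ ^ 2) atTop (𝓝 (‖f‖ ^ 2)) :=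
    (Tendsto.norm hx).pow 2
  refine ge_of_tendsto h1 ?_
  filter_upwards [eventually_ge_atTop s] with t ht
  refine le_trans ?_ (hg.lower t x)
  apply mul_le_mul_of_nonneg_left _ hp
  exact Finset.sum_le_sum_of_subset_of_nonneg ht (fun i _ _ => sq_nonneg _)

lemma Riesz.summable_sq (hg : Riesz g p q) (hp : 0 < p) {x : ι → ℝ} {f : H}
    (hx : HasSum (fun i => x i • g i) f) : Summable (fun i => x i ^ 2) := by
  apply summable_of_sum_le (c := ‖f‖ ^ 2 / p) (fun i => sq_nonneg _)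
  intro s
  rw [le_div_iff₀ hp]
  have := hg.partial_le hp.le hx s
  linarith

lemma Riesz.tsum_sq_le (hg : Riesz g p q) (hp : 0 < p) {x : ι → ℝ} {f : H}
    (hx : HasSum (fun i => x i • g i) f) : p * ∑' i, x i ^ 2 ≤ ‖f‖ ^ 2 := by
  have h : ∑' i, x i ^ 2 ≤ ‖f‖ ^ 2 / p := by
    apply (hg.summable_sq hp hx).tsum_le_of_sum_le
    intro s
    rw [le_div_iff₀ hp]
    have := hg.partial_le hp.le hx s
    linarith
  rw [le_div_iff₀ hp] at h
  linarith

lemma Riesz.bessel_partial (hg : Riesz g p q) (hq : 0 < q) (f : H) (s : Finset ι) :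
    ∑ i ∈ s, ⟪f, g i⟫ ^ 2 ≤ q * ‖f‖ ^ 2 := by
  set S := ∑ i ∈ s, ⟪f, g i⟫ ^ 2 with hS
  have hS0 : 0 ≤ S := Finset.sum_nonneg (fun i _ => sq_nonneg _)
  have h1 : S = ⟪f, ∑ i ∈ s, ⟪f, g i⟫ • g i⟫ := by
    rw [inner_sum, hS]
    apply Finset.sum_congr rfl
    intro i _
    rw [real_inner_smul_right]; ring
  have h2 : S ≤ ‖f‖ * ‖∑ i ∈ s, ⟪f, g i⟫ • g i‖ := by
    rw [h1]
    exact real_inner_le_norm _ _
  have h3 := hg.upper s (fun i => ⟪f, g i⟫)
  have h4 : S ^ 2 ≤ ‖f‖ ^ 2 * (q * S) := by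
    calc S ^ 2 ≤ (‖f‖ * ‖∑ i ∈ s, ⟪f, g i⟫ • g i‖) ^ 2 := by
          apply pow_le_pow_left₀ hS0 h2
      _ = ‖f‖ ^ 2 * ‖∑ i ∈ s, ⟪f, g i⟫ • g i‖ ^ 2 := by ring
      _ ≤ ‖f‖ ^ 2 * (q * S) := by
          apply mul_le_mul_of_nonneg_left _ (sq_nonneg _)
          exact h3
  rcases hS0.eq_or_lt with h | h
  · rw [← h]; positivity
  · have : S * S ≤ S * (q * ‖f‖ ^ 2) := by nlinarith
    exact le_of_mul_le_mul_left this h

lemma Riesz.summable_bessel (hg : Riesz g p q) (hq : 0 < q) (f : H) :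
    Summable (fun i => ⟪f, g i⟫ ^ 2) :=
  summable_of_sum_le (fun _ => sq_nonneg _) (hg.bessel_partial hq f)

lemma Riesz.tsum_bessel_le (hg : Riesz g p q) (hq : 0 < q) (f : H) :
    ∑' i, ⟪f, g i⟫ ^ 2 ≤ q * ‖f‖ ^ 2 :=
  (hg.summable_bessel hq f).tsum_le_of_sum_le (hg.bessel_partial hq f)

lemma hasSum_energy {x : ι → ℝ} {f : H} (hx : HasSum (fun i => x i • g i) f) :
    HasSum (fun i => x i * ⟪f, g i⟫) (‖f‖ ^ 2) := by
  have h := (innerSL ℝ f).hasSum hx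
  simp only [innerSL_apply_apply, real_inner_smul_right] at h
  rwa [real_inner_self_eq_norm_sq] at h

/-- The potential. -/
noncomputable def Gam (P : Par) (D : ℝ) (x : ι → ℝ) (f : H) : ℝ :=
  ‖f‖ ^ 2 / D + ∑' i, D * P.w (|x i| / D)

lemma abs_w_le (P : Par) {v : ℝ} (hv : 0 ≤ v) : |P.w v| ≤ (|P.y 0| + 1) * v := by
  have h1 := P.w_le hv
  have h2 := P.w_ge_neg hv
  have h3 : P.y 0 * v ≤ |P.y 0| * v := mul_le_mul_of_nonneg_right (le_abs_self _) hv
  have h4 : 0 ≤ |P.y 0| * v := by positivity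
  rw [abs_le]
  constructor <;> nlinarith

lemma summable_w (P : Par) {D : ℝ} (hD : 0 < D) {x : ι → ℝ} (hx : Summable (fun i => |x i|)) :
    Summable (fun i => D * P.w (|x i| / D)) := by
  refine Summable.of_norm_bounded (hx.mul_left (|P.y 0| + 1)) ?_
  intro i
  rw [Real.norm_eq_abs, abs_mul, abs_of_pos hD]
  have := abs_w_le P (v := |x i| / D) (by positivity)
  calc D * |P.w (|x i| / D)| ≤ D * ((|P.y 0| + 1) * (|x i| / D)) := by gcongr
    _ = (|P.y 0| + 1) * |x i| := by field_simp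

/-- lower bound of the potential -/
lemma Riesz.le_Gam (hg : Riesz g p q) (hp : 0 < p) (P : Par) {D : ℝ} (hD : 0 < D) {x : ι → ℝ}
    {f : H} (hx1 : Summable (fun i => |x i|)) (hx : HasSum (fun i => x i • g i) f) :
    (1 - 1 / (8 * p)) * (‖f‖ ^ 2 / D) ≤ Gam P D x f := by
  have h1 : ∑' i, (-(1 / (8 * D)) * x i ^ 2) ≤ ∑' i, D * P.w (|x i| / D) := by
    apply Summable.tsum_le_tsum _ ((hg.summable_sq hp hx).mul_left _) (summable_w P hD hx1)
    intro i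
    have := P.w_coercive (v := |x i| / D) (by positivity)
    have h2 := mul_le_mul_of_nonneg_left this hD.le
    refine le_trans (le_of_eq ?_) h2
    rw [div_pow, sq_abs]
    field_simp
  rw [tsum_mul_left] at h1
  have h2 := hg.tsum_sq_le hp hx
  unfold Gam
  have h3 : (1 / (8 * D)) * ∑' i, x i ^ 2 ≤ 1 / (8 * p) * (‖f‖ ^ 2 / D) := by
    have : ∑' i, x i ^ 2 ≤ ‖f‖ ^ 2 / p := by
      rw [le_div_iff₀ hp]; linarith
    calc (1 / (8 * D)) * ∑' i, x i ^ 2 ≤ (1 / (8 * D)) * (‖f‖ ^ 2 / p) := by gcongr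
      _ = 1 / (8 * p) * (‖f‖ ^ 2 / D) := by field_simp
  linarith

/-- change of scale -/
lemma Riesz.Gam_scale (hg : Riesz g p q) (hp : 0 < p) (hq : 0 < q) (P : Par)
    (hpar : 1 ≤ P.κ - P.κ * P.η * q - P.A / p) {D D' : ℝ} (hD' : 0 < D') (hDD : D' ≤ D)
    {x : ι → ℝ} {f : H} (hx1 : Summable (fun i => |x i|)) (hx : HasSum (fun i => x i • g i) f)
    (hr : ∀ i, |⟪f, g i⟫| ≤ D') :
    Gam P D' x f ≤ Gam P D x f := by
  have hD : 0 < D := lt_of_lt_of_le hD' hDD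
  have hκ := P.κpos
  have hA := P.hA
  have hη := P.hη
  have hE := hasSum_energy hx
  have hδ : 0 ≤ 1 / D' - 1 / D := by
    have := one_div_le_one_div_of_le hD' hDD
    linarith
  have hsum1 := hg.summable_sq hp hx
  have hsum2 := hg.summable_bessel hq f
  have hs3 : Summable (fun i => (1 / D' - 1 / D) *
      (P.κ * (x i * ⟪f, g i⟫ - P.η * ⟪f, g i⟫ ^ 2) - P.A * x i ^ 2)) := by
    apply Summable.mul_left
    exact ((hE.summable.sub (hsum2.mul_left _)).mul_left _).sub (hsum1.mul_left _)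
  have h1 : ∑' i, (1 / D' - 1 / D) *
      (P.κ * (x i * ⟪f, g i⟫ - P.η * ⟪f, g i⟫ ^ 2) - P.A * x i ^ 2)
      ≤ ∑' i, (D * P.w (|x i| / D) - D' * P.w (|x i| / D')) := by
    apply Summable.tsum_le_tsum _ hs3 ((summable_w P hD hx1).sub (summable_w P hD' hx1))
    intro i
    exact P.scale hD' hDD (hr i)
  rw [Summable.tsum_sub (summable_w P hD hx1) (summable_w P hD' hx1), tsum_mul_left,
    Summable.tsum_sub ((hE.summable.sub (hsum2.mul_left _)).mul_left _) (hsum1.mul_left _),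
    tsum_mul_left, tsum_mul_left, Summable.tsum_sub hE.summable (hsum2.mul_left _), tsum_mul_left,
    hE.tsum_eq] at h1
  have h2 := hg.tsum_sq_le hp hx
  have h3 := hg.tsum_bessel_le hq f
  have h4 : ‖f‖ ^ 2 ≤ P.κ * (‖f‖ ^ 2 - P.η * ∑' i, ⟪f, g i⟫ ^ 2) - P.A * ∑' i, x i ^ 2 := by
    have h5 : P.A * ∑' i, x i ^ 2 ≤ P.A / p * ‖f‖ ^ 2 := by
      have : ∑' i, x i ^ 2 ≤ ‖f‖ ^ 2 / p := by
        rw [le_div_iff₀ hp]; linarith
      calc P.A * ∑' i, x i ^ 2 ≤ P.A * (‖f‖ ^ 2 / p) := by gcongr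
        _ = P.A / p * ‖f‖ ^ 2 := by ring
    have h6 : P.κ * (P.η * ∑' i, ⟪f, g i⟫ ^ 2) ≤ P.κ * P.η * q * ‖f‖ ^ 2 := by
      calc P.κ * (P.η * ∑' i, ⟪f, g i⟫ ^ 2) ≤ P.κ * (P.η * (q * ‖f‖ ^ 2)) := by gcongr
        _ = _ := by ring
    nlinarith [mul_le_mul_of_nonneg_right hpar (sq_nonneg ‖f‖)]
  have h5 := mul_le_mul_of_nonneg_left h4 hδ
  unfold Gam
  have h6 : ‖f‖ ^ 2 / D' - ‖f‖ ^ 2 / D = (1 / D' - 1 / D) * ‖f‖ ^ 2 := by ring
  linarith

/-- one greedy step -/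
lemma Gam_step (hn : ∀ i, ‖g i‖ = 1) (P : Par) [DecidableEq ι] {D : ℝ} (hD : 0 < D)
    {x : ι → ℝ} {f : H} (hx1 : Summable (fun i => |x i|)) (i : ι)
    (hi : D ≤ |⟪f, g i⟫|) :
    Gam P D (Function.update x i (x i - ⟪f, g i⟫)) (f - ⟪f, g i⟫ • g i) ≤ Gam P D x f := by
  set r := ⟪f, g i⟫ with hr
  have hnorm : ‖f - r • g i‖ ^ 2 = ‖f‖ ^ 2 - r ^ 2 := by
    rw [norm_sub_sq_real, real_inner_smul_right, ← hr, norm_smul, hn i, Real.norm_eq_abs, mul_one,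
      sq_abs]
    ring
  have hupd : (fun j => D * P.w (|Function.update x i (x i - r) j| / D))
      = Function.update (fun j => D * P.w (|x j| / D)) i (D * P.w (|x i - r| / D)) := by
    funext j
    by_cases h : j = i
    · subst h; simp
    · simp [Function.update_of_ne h]
  have hs := ((summable_w P hD hx1).hasSum.update i (D * P.w (|x i - r| / D))).tsum_eq
  unfold Gam
  rw [hnorm, hupd, hs]
  have hstep := P.w_step (v := x i / D) (t := r / D) (by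
    rw [abs_div, abs_of_pos hD, le_div_iff₀ hD]; linarith)
  have e1 : |x i / D - r / D| = |x i - r| / D := by
    rw [← sub_div, abs_div, abs_of_pos hD]
  have e2 : |x i / D| = |x i| / D := by rw [abs_div, abs_of_pos hD]
  rw [e1, e2] at hstep
  have h2 := mul_le_mul_of_nonneg_left hstep hD.le
  have e3 : D * (r / D) ^ 2 = r ^ 2 / D := by field_simp
  rw [e3] at h2
  have e4 : (‖f‖ ^ 2 - r ^ 2) / D = ‖f‖ ^ 2 / D - r ^ 2 / D := by ring
  rw [e4]
  linarith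

/-- the initial value -/
lemma Gam_init (P : Par) {D : ℝ} (hD : 0 < D)
    {x : ι → ℝ} {f : H} (hx1 : Summable (fun i => |x i|)) (hx : HasSum (fun i => x i • g i) f)
    (hr : ∀ i, |⟪f, g i⟫| ≤ D) :
    Gam P D x f ≤ (1 + P.y 0) * ∑' i, |x i| := by
  have hE := hasSum_energy hx
  have h1 : ‖f‖ ^ 2 ≤ D * ∑' i, |x i| := by
    rw [← hE.tsum_eq, ← tsum_mul_left]
    apply Summable.tsum_le_tsum _ hE.summable (hx1.mul_left D)
    intro i
    calc x i * ⟪f, g i⟫ ≤ |x i * ⟪f, g i⟫| := le_abs_self _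
      _ = |x i| * |⟪f, g i⟫| := abs_mul _ _
      _ ≤ |x i| * D := by gcongr; exact hr i
      _ = D * |x i| := mul_comm _ _
  have h2 : ∑' i, D * P.w (|x i| / D) ≤ ∑' i, P.y 0 * |x i| := by
    apply Summable.tsum_le_tsum _ (summable_w P hD hx1) (hx1.mul_left _)
    intro i
    have := P.w_le (v := |x i| / D) (by positivity)
    have h3 := mul_le_mul_of_nonneg_left this hD.le
    refine h3.trans (le_of_eq ?_)
    field_simp
  have e : ∑' i, P.y 0 * |x i| = P.y 0 * ∑' i, |x i| := tsum_mul_left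
  unfold Gam
  have h3 : ‖f‖ ^ 2 / D ≤ ∑' i, |x i| := by
    rw [div_le_iff₀ hD]; linarith
  linarith

end Pool.Agent.Lib.MP_3cbb73_an
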