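import Mathlib

set_option autoImplicit false

/-! A concave potential profile `w` and its inequalities. -/

namespace Pool.Agent.Lib.MP_3cbb73_an

open Real

/-- Parameters and their constraints. -/
structure Par where
  A : ℝ
  κ : ℝ
  η : ℝ
  hA : 0 < A
  hη : 0 < η
  hAκ : 2 * A ≤ κ
  hηV : η ≤ κ / (2 * A)
  hκ2 : κ ≤ 2 + A
  hlog : A + κ * log (κ / (2 * A)) ≤ 2

namespace Par

variable (P : Par)

noncomputable def V : ℝ := P.κ / (2 * P.A)

noncomputable def y (v : ℝ) : ℝ :=
  (1 - P.A + P.κ * log (1 + P.η)) + P.A * v - P.κ * log (v + P.η)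

noncomputable def β : ℝ := P.κ * P.V ^ 2 / (P.V + P.η) - P.A * P.V ^ 2

noncomputable def w (v : ℝ) : ℝ :=
  if v ≤ P.V then v * P.y v else v * (P.y P.V - P.β / P.V) + P.β

lemma κpos : 0 < P.κ := by have := P.hA; have := P.hAκ; linarith

lemma V_ge_one : 1 ≤ P.V := by
  unfold V
  rw [le_div_iff₀ (by have := P.hA; linarith)]
  have := P.hAκ; linarith

lemma Vpos : 0 < P.V := lt_of_lt_of_le one_pos P.V_ge_one

lemma two_A_V : 2 * P.A * P.V = P.κ := by
  unfold V
  have := P.hA
  field_simp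

lemma η_le_V : P.η ≤ P.V := P.hηV

lemma y_one : P.y 1 = 1 := by unfold y; ring

lemma w_one : P.w 1 = 1 := by
  unfold w
  rw [if_pos P.V_ge_one, P.y_one]; ring

lemma w_zero : P.w 0 = 0 := by
  unfold w
  rw [if_pos P.Vpos.le]; ring

lemma β_nonneg : 0 ≤ P.β := by
  unfold β
  have hV := P.Vpos
  have hη := P.hη
  have h1 := P.η_le_V
  have h2 := P.two_A_V
  have hA := P.hA
  have : P.A * P.V ^ 2 ≤ P.κ * P.V ^ 2 / (P.V + P.η) := by
    rw [le_div_iff₀ (by positivity)]
    have : P.A * (P.V + P.η) ≤ P.κ := by nlinarith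
    nlinarith [sq_nonneg P.V]
  linarith

/-- `log b - log a ≥ (b-a)/b` -/
lemma log_sub_ge {a b : ℝ} (ha : 0 < a) (hb : 0 < b) : (b - a) / b ≤ log b - log a := by
  rw [← log_div hb.ne' ha.ne']
  have := one_sub_inv_le_log_of_pos (div_pos hb ha)
  have h2 : 1 - (b / a)⁻¹ = (b - a) / b := by
    field_simp
  linarith [h2]

/-- `log b - log a ≤ (b-a)/a` -/
lemma log_sub_le {a b : ℝ} (ha : 0 < a) (hb : 0 < b) : log b - log a ≤ (b - a) / a := by
  have := log_sub_ge hb ha
  have h2 : (b - a) / a = - ((a - b) / a) := by ring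
  linarith [h2]

lemma y_sub_ge {u v : ℝ} (hu : 0 ≤ u) (huv : u ≤ v) :
    (v - u) * (P.κ / (v + P.η) - P.A) ≤ P.y u - P.y v := by
  have hη := P.hη
  have h := log_sub_ge (a := u + P.η) (b := v + P.η) (by linarith) (by linarith)
  have hκ := P.κpos
  have h2 := mul_le_mul_of_nonneg_left h hκ.le
  unfold y
  have h3 : P.κ * ((v + P.η - (u + P.η)) / (v + P.η)) = (v - u) * (P.κ / (v + P.η)) := by
    ring
  nlinarith [h2, h3]

lemma y_anti {u v : ℝ} (hu : 0 ≤ u) (huv : u ≤ v) (hv : v ≤ P.V) : P.y v ≤ P.y u := by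
  have h := P.y_sub_ge hu huv
  have hη := P.hη
  have hA := P.hA
  have h1 : P.A ≤ P.κ / (v + P.η) := by
    rw [le_div_iff₀ (by linarith)]
    have := P.two_A_V
    have := P.η_le_V
    nlinarith
  have : 0 ≤ (v - u) * (P.κ / (v + P.η) - P.A) := mul_nonneg (by linarith) (by linarith)
  linarith

lemma w_of_ge {v : ℝ} (hv : P.V ≤ v) : P.w v = v * (P.y P.V - P.β / P.V) + P.β := by
  unfold w
  rcases hv.eq_or_lt with h | h
  · rw [← h, if_pos le_rfl]
    have := P.Vpos
    field_simp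
    ring
  · rw [if_neg (not_le.2 h)]

lemma w_of_le {v : ℝ} (hv : v ≤ P.V) : P.w v = v * P.y v := by
  unfold w
  rw [if_pos hv]

/-- `w v / v` is nonincreasing -/
lemma w_div_anti {u v : ℝ} (hu : 0 ≤ u) (huv : u ≤ v) : u * P.w v ≤ v * P.w u := by
  have hV := P.Vpos
  have hβ := P.β_nonneg
  rcases le_total v P.V with h | h
  · rw [P.w_of_le h, P.w_of_le (huv.trans h)]
    have := P.y_anti hu huv h
    have h2 : 0 ≤ u * v := mul_nonneg hu (hu.trans huv)
    nlinarith [mul_le_mul_of_nonneg_left this h2]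
  · rcases le_total u P.V with h' | h'
    · rw [P.w_of_ge h, P.w_of_le h']
      have h1 := P.y_anti hu h' le_rfl
      have h2 : 0 ≤ u * v := mul_nonneg hu (hu.trans huv)
      have h3 : u * P.β ≤ u * v * (P.β / P.V) := by
        have : P.β ≤ v * (P.β / P.V) := by
          have : P.β = P.V * (P.β / P.V) := by field_simp
          have h4 : 0 ≤ P.β / P.V := by positivity
          nlinarith
        nlinarith
      nlinarith [mul_le_mul_of_nonneg_left h1 h2]
    · rw [P.w_of_ge h, P.w_of_ge h']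
      nlinarith

/-- derivative bound -/
lemma slope_ge {v : ℝ} (hv : 0 ≤ v) (_hvV : v ≤ P.V) :
    0 ≤ 1 + (P.y v + v * (P.A - P.κ / (v + P.η))) := by
  have hη := P.hη
  have hA := P.hA
  have hκ := P.κpos
  have hVη := P.η_le_V
  have hV1 := P.V_ge_one
  have hVp := P.Vpos
  have h2AV := P.two_A_V
  unfold y
  rcases le_total v 1 with h | h
  · have h1 := log_sub_le (a := 1 + P.η) (b := v + P.η) (by linarith) (by linarith)
    have h1' := mul_le_mul_of_nonneg_left h1 hκ.le
    have e1 : P.κ * ((v + P.η - (1 + P.η)) / (1 + P.η)) = - ((P.κ / (1 + P.η)) * (1 - v)) := by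
      ring
    have h2 : v * (P.κ / (v + P.η)) ≤ P.κ / (1 + P.η) := by
      rw [← mul_div_assoc, div_le_div_iff₀ (by linarith) (by linarith)]
      nlinarith [mul_nonneg (mul_nonneg hκ.le hη.le) (sub_nonneg.2 h)]
    have h3 : P.κ / (1 + P.η) ≤ P.κ := by
      rw [div_le_iff₀ (by linarith)]
      nlinarith
    have h5 := P.hκ2
    have h6 : P.κ / (1 + P.η) * v ≤ P.κ * v := mul_le_mul_of_nonneg_right h3 hv
    have h7 : 0 ≤ 2 - P.A + 2 * P.A * v - P.κ * v := by
      have h8 : P.A ≤ 2 := by have := P.hAκ; linarith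
      nlinarith
    nlinarith
  · have hv0 : 0 < v := by linarith
    have h1 : log (v + P.η) - log (1 + P.η) ≤ log v := by
      rw [← log_div (by linarith) (by linarith)]
      apply log_le_log (by positivity)
      rw [div_le_iff₀ (by linarith)]
      nlinarith
    have h2 : log v - log P.V ≤ (v - P.V) / P.V := log_sub_le hVp hv0
    have h1' := mul_le_mul_of_nonneg_left h1 hκ.le
    have h2' := mul_le_mul_of_nonneg_left h2 hκ.le
    have e2 : P.κ * ((v - P.V) / P.V) = 2 * P.A * v - P.κ := by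
      rw [← h2AV]
      field_simp
    have h3 : v * (P.κ / (v + P.η)) ≤ P.κ := by
      rw [← mul_div_assoc, div_le_iff₀ (by linarith)]
      nlinarith
    have h4 := P.hlog
    have h4' : P.A + P.κ * log P.V ≤ 2 := h4
    nlinarith

lemma hasDeriv_aux {v : ℝ} (hv : 0 ≤ v) :
    HasDerivAt (fun v => v + v * P.y v) (1 + (P.y v + v * (P.A - P.κ / (v + P.η)))) v := by
  have hη := P.hη
  have h1 : HasDerivAt P.y (P.A - P.κ / (v + P.η)) v := by
    unfold y
    have h2 : HasDerivAt (fun v : ℝ => log (v + P.η)) (1 / (v + P.η)) v := by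
      have h3 : HasDerivAt (fun v : ℝ => v + P.η) 1 v := (hasDerivAt_id v).add_const P.η
      exact h3.log (by linarith)
    have h3 : HasDerivAt (fun v : ℝ => P.A * v) P.A v := by
      simpa using (hasDerivAt_id v).const_mul P.A
    have h4 := (h3.const_add (1 - P.A + P.κ * log (1 + P.η))).sub (h2.const_mul P.κ)
    refine h4.congr_deriv ?_
    ring
  have h5 := (hasDerivAt_id v).add ((hasDerivAt_id v).mul h1)
  refine h5.congr_deriv ?_
  simp

lemma mono_aux : MonotoneOn (fun v => v + v * P.y v) (Set.Icc 0 P.V) := by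
  apply monotoneOn_of_deriv_nonneg (convex_Icc _ _)
  · intro v hv
    exact (P.hasDeriv_aux hv.1).continuousAt.continuousWithinAt
  · intro v hv
    rw [interior_Icc] at hv
    exact (P.hasDeriv_aux hv.1.le).differentiableAt.differentiableWithinAt
  · intro v hv
    rw [interior_Icc] at hv
    rw [(P.hasDeriv_aux hv.1.le).deriv]
    exact P.slope_ge hv.1.le hv.2.le

lemma α_ge : -1 ≤ P.y P.V - P.β / P.V := by
  have h := P.slope_ge P.Vpos.le le_rfl
  have hV := P.Vpos
  have hη := P.hη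
  have : P.β / P.V = P.V * (P.κ / (P.V + P.η) - P.A) := by
    unfold β
    field_simp
  rw [this]
  linarith

/-- slope at least `-1`. -/
lemma w_slope {u v : ℝ} (hu : 0 ≤ u) (huv : u ≤ v) : P.w u - P.w v ≤ v - u := by
  have hα := P.α_ge
  have key1 : ∀ u v : ℝ, 0 ≤ u → u ≤ v → v ≤ P.V → P.w u - P.w v ≤ v - u := by
    intro u v hu huv hv
    have := P.mono_aux ⟨hu, huv.trans hv⟩ ⟨hu.trans huv, hv⟩ huv
    simp only at this
    rw [P.w_of_le (huv.trans hv), P.w_of_le hv]
    linarith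
  have key2 : ∀ u v : ℝ, P.V ≤ u → u ≤ v → P.w u - P.w v ≤ v - u := by
    intro u v hu huv
    rw [P.w_of_ge hu, P.w_of_ge (hu.trans huv)]
    nlinarith
  rcases le_total v P.V with h | h
  · exact key1 u v hu huv h
  · rcases le_total P.V u with h' | h'
    · exact key2 u v h' huv
    · have := key1 u P.V hu h' le_rfl
      have := key2 P.V v le_rfl h
      linarith

lemma w_le_self {v : ℝ} (hv : 1 ≤ v) : P.w v ≤ v := by
  have := P.w_div_anti (u := 1) (v := v) zero_le_one hv
  rw [P.w_one] at this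
  linarith

lemma self_le_w {v : ℝ} (hv : 0 ≤ v) (hv1 : v ≤ 1) : v ≤ P.w v := by
  have := P.w_div_anti hv hv1
  rw [P.w_one] at this
  linarith

lemma w_ge {v : ℝ} (hv : 1 ≤ v) : 2 - v ≤ P.w v := by
  have := P.w_slope (u := 1) (v := v) zero_le_one hv
  rw [P.w_one] at this
  linarith

lemma w_coercive {v : ℝ} (hv : 0 ≤ v) : -(v ^ 2 / 8) ≤ P.w v := by
  rcases le_total v 1 with h | h
  · have := P.self_le_w hv h
    nlinarith [sq_nonneg v]
  · have := P.w_ge h
    nlinarith [sq_nonneg (v - 4)]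

lemma w_ge_neg {v : ℝ} (hv : 0 ≤ v) : -v ≤ P.w v := by
  have := P.w_slope le_rfl hv
  rw [P.w_zero] at this
  linarith

lemma w_le {v : ℝ} (hv : 0 ≤ v) : P.w v ≤ P.y 0 * v := by
  rcases le_total v P.V with h | h
  · rw [P.w_of_le h]
    have := P.y_anti le_rfl hv h
    nlinarith
  · have h1 := P.w_div_anti (u := P.V) (v := v) P.Vpos.le h
    rw [P.w_of_le (v := P.V) le_rfl] at h1
    have h2 := P.y_anti le_rfl P.Vpos.le le_rfl
    have h3 : P.w v ≤ v * P.y P.V := by
      have := P.Vpos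
      have h4 : P.V * P.w v ≤ P.V * (v * P.y P.V) := by linarith
      exact le_of_mul_le_mul_left h4 this
    nlinarith

lemma w_subadd {u v : ℝ} (hu : 0 ≤ u) (hv : 0 ≤ v) : P.w (u + v) ≤ P.w u + P.w v := by
  rcases (add_nonneg hu hv).eq_or_lt with h | h
  · have hu0 : u = 0 := by linarith
    have hv0 : v = 0 := by linarith
    simp [hu0, hv0, P.w_zero]
  · have h1 := P.w_div_anti hu (by linarith : u ≤ u + v)
    have h2 := P.w_div_anti hv (by linarith : v ≤ u + v)
    have h3 : (u + v) * P.w (u + v) ≤ (u + v) * (P.w u + P.w v) := by nlinarith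
    exact le_of_mul_le_mul_left h3 h

/-- one step of the algorithm -/
lemma w_step {v t : ℝ} (ht : 1 ≤ |t|) : P.w |v - t| - P.w |v| ≤ t ^ 2 := by
  have ht2 : |t| ≤ t ^ 2 := by
    rw [← sq_abs]; nlinarith
  -- `|v - t| = |v| + |t|` or `|v - t| = ||v| - |t||`
  have hcases : |v - t| = |v| + |t| ∨ |v - t| = |(|v| - |t|)| := by
    rcases le_total 0 v with hv | hv <;> rcases le_total 0 t with ht' | ht'
    · right; rw [abs_of_nonneg hv, abs_of_nonneg ht']
    · left; rw [abs_of_nonneg hv, abs_of_nonpos ht', abs_of_nonneg (by linarith)]; ring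
    · left; rw [abs_of_nonpos hv, abs_of_nonneg ht', abs_of_nonpos (by linarith)]; ring
    · right; rw [abs_of_nonpos hv, abs_of_nonpos ht']
      rw [← abs_neg]; congr 1; ring
  set a := |v| with ha
  set τ := |t| with hτ
  have ha0 : 0 ≤ a := abs_nonneg v
  rcases hcases with h | h
  · rw [h]
    have h1 := P.w_subadd ha0 (by linarith : 0 ≤ τ)
    have h2 := P.w_le_self ht
    linarith
  · rw [h]
    rcases le_total τ a with h' | h'
    · rw [abs_of_nonneg (by linarith)]
      have := P.w_slope (u := a - τ) (v := a) (by linarith) (by linarith)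
      linarith
    · rw [abs_of_nonpos (by linarith), neg_sub]
      have hb : 0 ≤ τ - a := by linarith
      rcases le_total a 1 with h1 | h1
      · have h2 := P.w_slope hb (by linarith : τ - a ≤ τ)
        have h3 := P.w_le_self ht
        have h4 := P.self_le_w ha0 h1
        linarith
      · have h2 := P.w_ge h1
        rcases le_total (τ - a) 1 with h3 | h3
        · have h4 := P.w_slope hb h3
          rw [P.w_one] at h4
          linarith
        · have h4 := P.w_le_self h3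
          linarith

/-- algebraic inequality -/
lemma alg {x D r η : ℝ} (hx : 0 ≤ x) (hD : 0 < D) (hr : |r| ≤ D) (hη : 0 < η) :
    x * r - η * r ^ 2 ≤ x ^ 2 / (x / D + η) := by
  have hden : 0 < x / D + η := by positivity
  rw [le_div_iff₀ hden]
  obtain ⟨ρ, hρ⟩ : ∃ ρ, r = ρ * D := ⟨r / D, by field_simp⟩
  have hρ1 : |ρ| ≤ 1 := by
    rw [hρ, abs_mul, abs_of_pos hD] at hr
    exact (mul_le_iff_le_one_left hD).1 hr
  obtain ⟨h1, h2⟩ := abs_le.1 hρ1
  obtain ⟨z, hz⟩ : ∃ z, x = z * D := ⟨x / D, by field_simp⟩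
  have hz0 : 0 ≤ z := by
    rw [hz] at hx
    exact nonneg_of_mul_nonneg_left hx hD
  have e : x / D = z := by rw [hz]; field_simp
  rw [e, hρ, hz]
  have key : (z * ρ - η * ρ ^ 2) * (z + η) ≤ z ^ 2 := by
    have : z ^ 2 - (z * ρ - η * ρ ^ 2) * (z + η)
        = (1 - ρ) * (z ^ 2 - η * ρ * z) + η ^ 2 * ρ ^ 2 := by ring
    rcases le_total 0 ρ with h | h
    · nlinarith [mul_nonneg (by linarith : (0:ℝ) ≤ 1 - ρ) (sq_nonneg (z - η * ρ / 2)),
        mul_nonneg (by linarith : (0:ℝ) ≤ 1 - ρ) (sq_nonneg (η * ρ)), sq_nonneg (η * ρ),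
        mul_nonneg h (sq_nonneg (η * ρ))]
    · have h3 : 0 ≤ -(η * ρ * z) := by
        have : 0 ≤ η * (-ρ) * z := by
          apply mul_nonneg (mul_nonneg hη.le (by linarith)) hz0
        linarith
      nlinarith [mul_nonneg (by linarith : (0:ℝ) ≤ 1 - ρ) h3, sq_nonneg z, sq_nonneg (η * ρ),
        mul_nonneg (by linarith : (0:ℝ) ≤ 1 - ρ) (sq_nonneg z)]
  have hD2 : 0 < D ^ 2 := by positivity
  nlinarith [mul_le_mul_of_nonneg_left key hD2.le]

/-- change of scale, both arguments in the first region -/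
lemma scale_one {x D D' r : ℝ} (hx : 0 ≤ x) (hD' : 0 < D') (hDD : D' ≤ D) (hr : |r| ≤ D')
    (h : x / D' ≤ P.V) :
    (1 / D' - 1 / D) * (P.κ * (x * r - P.η * r ^ 2) - P.A * x ^ 2)
      ≤ D * P.w (x / D) - D' * P.w (x / D') := by
  have hD : 0 < D := lt_of_lt_of_le hD' hDD
  have hle : x / D ≤ x / D' := div_le_div_of_nonneg_left hx hD' hDD
  rw [P.w_of_le h, P.w_of_le (hle.trans h)]
  have h1 := P.y_sub_ge (u := x / D) (v := x / D') (by positivity) hle
  have h2 := mul_le_mul_of_nonneg_left h1 hx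
  have h3 := alg hx hD' hr P.hη
  have hδ : 0 ≤ 1 / D' - 1 / D := by
    have := one_div_le_one_div_of_le hD' hDD
    linarith
  have hη := P.hη
  have hden : 0 < x / D' + P.η := by positivity
  have e1 : x * ((x / D' - x / D) * (P.κ / (x / D' + P.η) - P.A))
      = (1 / D' - 1 / D) * (P.κ * (x ^ 2 / (x / D' + P.η)) - P.A * x ^ 2) := by
    field_simp
  have e2 : D * (x / D * P.y (x / D)) - D' * (x / D' * P.y (x / D'))
      = x * (P.y (x / D) - P.y (x / D')) := by
    field_simp
  rw [e2]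
  refine le_trans ?_ h2
  rw [e1]
  apply mul_le_mul_of_nonneg_left _ hδ
  have := mul_le_mul_of_nonneg_left h3 P.κpos.le
  linarith

lemma h_le_β {v : ℝ} (hv : P.V ≤ v) :
    P.κ * (v ^ 2 / (v + P.η)) - P.A * v ^ 2 ≤ P.β := by
  have hV := P.Vpos
  have hη := P.hη
  have hv0 : 0 < v := lt_of_lt_of_le hV hv
  have key : v ^ 2 / (v + P.η) - P.V ^ 2 / (P.V + P.η) ≤ v - P.V := by
    rw [div_sub_div _ _ (by positivity) (by positivity), div_le_iff₀ (by positivity)]
    nlinarith [mul_nonneg (sub_nonneg.2 hv) (sq_nonneg P.η)]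
  have h2 := P.two_A_V
  have hκ := P.κpos
  have hA := P.hA
  have key' := mul_le_mul_of_nonneg_left key hκ.le
  unfold β
  have e : P.κ * P.V ^ 2 / (P.V + P.η) = P.κ * (P.V ^ 2 / (P.V + P.η)) := by ring
  rw [e]
  have h3 : P.κ * (v - P.V) ≤ P.A * v ^ 2 - P.A * P.V ^ 2 := by
    have : P.A * v ^ 2 - P.A * P.V ^ 2 - P.κ * (v - P.V) = P.A * (v - P.V) ^ 2 := by
      rw [← h2]; ring
    nlinarith [mul_nonneg hA.le (sq_nonneg (v - P.V))]
  nlinarith

/-- change of scale, both arguments in the second region -/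
lemma scale_two {x D D' r : ℝ} (hx : 0 ≤ x) (hD' : 0 < D') (hDD : D' ≤ D) (hr : |r| ≤ D')
    (h : P.V ≤ x / D) :
    (1 / D' - 1 / D) * (P.κ * (x * r - P.η * r ^ 2) - P.A * x ^ 2)
      ≤ D * P.w (x / D) - D' * P.w (x / D') := by
  have hD : 0 < D := lt_of_lt_of_le hD' hDD
  have hle : x / D ≤ x / D' := div_le_div_of_nonneg_left hx hD' hDD
  rw [P.w_of_ge h, P.w_of_ge (h.trans hle)]
  have h3 := alg hx hD' hr P.hη
  have h3' := mul_le_mul_of_nonneg_left h3 P.κpos.le
  have hβ := P.h_le_β (h.trans hle)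
  have hδ : 0 ≤ 1 / D' - 1 / D := by
    have := one_div_le_one_div_of_le hD' hDD
    linarith
  have hη := P.hη
  have hden : 0 < x / D' + P.η := by positivity
  have hB : P.κ * (x * r - P.η * r ^ 2) - P.A * x ^ 2 ≤ D' ^ 2 * P.β := by
    have e : D' ^ 2 * (P.κ * ((x / D') ^ 2 / (x / D' + P.η)) - P.A * (x / D') ^ 2)
        = P.κ * (x ^ 2 / (x / D' + P.η)) - P.A * x ^ 2 := by
      field_simp
    have := mul_le_mul_of_nonneg_left hβ (by positivity : 0 ≤ D' ^ 2)
    linarith
  have h4 := mul_le_mul_of_nonneg_left hB hδ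
  have hβ0 := P.β_nonneg
  have e2 : D * (x / D * (P.y P.V - P.β / P.V) + P.β) - D' * (x / D' * (P.y P.V - P.β / P.V) + P.β)
      = (D - D') * P.β := by
    field_simp
    ring
  rw [e2]
  refine h4.trans ?_
  have e3 : (1 / D' - 1 / D) * (D' ^ 2 * P.β) = (D' / D) * ((D - D') * P.β) := by
    field_simp
  rw [e3]
  have h5 : D' / D ≤ 1 := (div_le_one hD).2 hDD
  have h6 : 0 ≤ (D - D') * P.β := mul_nonneg (by linarith) hβ0
  nlinarith

/-- change of scale -/
lemma scale_nonneg {x D D' r : ℝ} (hx : 0 ≤ x) (hD' : 0 < D') (hDD : D' ≤ D) (hr : |r| ≤ D') :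
    (1 / D' - 1 / D) * (P.κ * (x * r - P.η * r ^ 2) - P.A * x ^ 2)
      ≤ D * P.w (x / D) - D' * P.w (x / D') := by
  have hD : 0 < D := lt_of_lt_of_le hD' hDD
  rcases le_total (x / D') P.V with h | h
  · exact P.scale_one hx hD' hDD hr h
  · rcases le_total P.V (x / D) with h' | h'
    · exact P.scale_two hx hD' hDD hr h'
    · have hV := P.Vpos
      have hs1 : x / P.V ≤ D := by
        rw [div_le_iff₀ hV]
        rw [div_le_iff₀ hD] at h'
        linarith
      have hs2 : D' ≤ x / P.V := by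
        rw [le_div_iff₀ hV]
        rw [le_div_iff₀ hD'] at h
        linarith
      have hs0 : 0 < x / P.V := lt_of_lt_of_le hD' hs2
      have hx0 : 0 < x := by
        have := (div_pos_iff.1 hs0)
        rcases this with h | h
        · exact h.1
        · linarith [h.2]
      have e : x / (x / P.V) = P.V := by field_simp
      have h1 := P.scale_one hx hs0 hs1 (hr.trans hs2) (by rw [e])
      have h2 := P.scale_two hx hD' hs2 hr (by rw [e])
      have e3 : (1 / D' - 1 / D) = (1 / (x / P.V) - 1 / D) + (1 / D' - 1 / (x / P.V)) := by ring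
      rw [e3, add_mul]
      linarith

lemma scale {x D D' r : ℝ} (hD' : 0 < D') (hDD : D' ≤ D) (hr : |r| ≤ D') :
    (1 / D' - 1 / D) * (P.κ * (x * r - P.η * r ^ 2) - P.A * x ^ 2)
      ≤ D * P.w (|x| / D) - D' * P.w (|x| / D') := by
  rcases le_total 0 x with h | h
  · rw [abs_of_nonneg h]
    exact P.scale_nonneg h hD' hDD hr
  · rw [abs_of_nonpos h]
    have := P.scale_nonneg (x := -x) (r := -r) (by linarith) hD' hDD (by rwa [abs_neg])
    simpa using this

end Par

end Pool.Agent.Lib.MP_3cbb73_an
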