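import Mathlib

set_option autoImplicit false

namespace Pool.Agent.Lib.MP_3cbb73_an

open scoped RealInnerProductSpace

/-- A dictionary in `H`: a set of unit vectors with dense linear span. -/
def IsDictionary {H : Type*} [NormedAddCommGroup H] [InnerProductSpace ℝ H] (D : Set H) : Prop :=
  (∀ g ∈ D, ‖g‖ = 1) ∧ Dense ((Submodule.span ℝ D : Submodule ℝ H) : Set H)

/-- The class `RB(C₁, C₂)`: dictionaries that are Riesz bases with constants `C₁, C₂`. -/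
def RB (H : Type*) [NormedAddCommGroup H] [InnerProductSpace ℝ H] (C₁ C₂ : ℝ) : Set (Set H) :=
  {B | IsDictionary B ∧ ∀ (s : Finset H) (c : H → ℝ), (↑s : Set H) ⊆ B →
    C₁ * √(∑ g ∈ s, c g ^ 2) ≤ ‖∑ g ∈ s, c g • g‖ ∧
    ‖∑ g ∈ s, c g • g‖ ≤ C₂ * √(∑ g ∈ s, c g ^ 2)}

/-- `A₁(D)`: the closure of the set of finite sums `∑ c_g g` with `g ∈ D` and `∑ |c_g| ≤ 1`. -/
def A1 {H : Type*} [NormedAddCommGroup H] [InnerProductSpace ℝ H] (D : Set H) : Set H :=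
  closure {f | ∃ (s : Finset H) (c : H → ℝ), (↑s : Set H) ⊆ D ∧ ∑ g ∈ s, |c g| ≤ 1 ∧
    ∑ g ∈ s, c g • g = f}

/-- `F` is the sequence of residuals `F m = f_m = f - G_m(f, D)` of a realization of the Pure
Greedy Algorithm for `f` with respect to `D`. -/
def IsPGA {H : Type*} [NormedAddCommGroup H] [InnerProductSpace ℝ H] (D : Set H) (f : H)
    (F : ℕ → H) : Prop :=
  F 0 = f ∧ ∀ m, ∃ φ ∈ D, (∀ g ∈ D, |⟪F m, g⟫| ≤ |⟪F m, φ⟫|) ∧ F (m + 1) = F m - ⟪F m, φ⟫ • φ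

/-- The set of all numbers `‖f - G_m(f, B)‖`, over all `B ∈ RB(C₁, C₂)`, all `f ∈ A₁(B)` and all
realizations of the Pure Greedy Algorithm. -/
def errors (H : Type*) [NormedAddCommGroup H] [InnerProductSpace ℝ H] (C₁ C₂ : ℝ) (m : ℕ) :
    Set ℝ :=
  {t | ∃ B ∈ RB H C₁ C₂, ∃ f ∈ A1 B, ∃ F : ℕ → H, IsPGA B f F ∧ t = ‖F m‖}

/-- `γ(m, RB(C₁, C₂))`, the supremum of the errors. -/
noncomputable def γ (H : Type*) [NormedAddCommGroup H] [InnerProductSpace ℝ H] (C₁ C₂ : ℝ)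
    (m : ℕ) : ℝ := sSup (errors H C₁ C₂ m)

end Pool.Agent.Lib.MP_3cbb73_an
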