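import Pool.Agent.Lib.MP_3cbb73_an.Greedy

set_option autoImplicit false

/-! The rate of convergence and the coefficient expansion. -/

namespace Pool.Agent.Lib.MP_3cbb73_an

open Real Filter Topology
open scoped RealInnerProductSpace

variable {H : Type*} [NormedAddCommGroup H] [InnerProductSpace ℝ H] {ι : Type*}
variable {g : ι → H} {p q : ℝ}

lemma seq_bound {a : ℕ → ℝ} {M : ℝ} (hM : 0 < M) (h0 : a 0 ≤ M)
    (h : ∀ k, a (k + 1) ≤ a k - a k ^ 2 / M) : ∀ k, a k ≤ M / (k + 1) := by
  intro k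
  induction k with
  | zero => simpa using h0
  | succ k ih =>
    rcases Nat.eq_zero_or_pos k with hk | hk
    · subst hk
      have h1 := h 0
      have h2 : a 0 - a 0 ^ 2 / M ≤ M / 4 := by
        rw [sub_le_iff_le_add, ← sub_le_iff_le_add', le_div_iff₀ hM]
        nlinarith [sq_nonneg (a 0 - M / 2)]
      have h3 : M / 4 ≤ M / ((0 + 1 : ℕ) + 1) := by
        push_cast
        rw [div_le_div_iff_of_pos_left hM (by norm_num) (by norm_num)]
        norm_num
      linarith
    · have hk1 : (1 : ℝ) ≤ k := by exact_mod_cast hk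
      set s : ℝ := 1 / (k + 1) with hs
      have hs0 : 0 < s := by positivity
      have hs1 : 2 * s ≤ 1 := by
        rw [hs]
        rw [mul_one_div, div_le_one (by positivity)]
        linarith
      have h1 := h k
      have h2 : a k - a k ^ 2 / M ≤ a k * (1 - 2 * s) + s ^ 2 * M := by
        have : 0 ≤ (a k / M - s) ^ 2 * M := by positivity
        have e : (a k / M - s) ^ 2 * M = a k ^ 2 / M - 2 * s * a k + s ^ 2 * M := by
          field_simp
          ring
        nlinarith
      have h3 : a k * (1 - 2 * s) ≤ M * s * (1 - 2 * s) := by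
        apply mul_le_mul_of_nonneg_right _ (by linarith)
        refine ih.trans (le_of_eq ?_)
        rw [hs]; ring
      have h4 : M * s * (1 - 2 * s) + s ^ 2 * M ≤ M / ((k + 1 : ℕ) + 1) := by
        rw [hs]
        push_cast
        rw [le_div_iff₀ (by positivity)]
        have hk0 : (0:ℝ) < k + 1 := by positivity
        field_simp
        nlinarith
      linarith

/-- The residuals satisfy `‖F k‖² ≤ C² / (k+1)`. -/
theorem rate (hg : Riesz g p q) (hp : 1 / 8 < p) (hq : 0 < q) (P : Par)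
    (hpar : 1 ≤ P.κ - P.κ * P.η * q - P.A / p)
    {F : ℕ → H} {φ : ℕ → ι}
    (hstep : ∀ k, F (k + 1) = F k - ⟪F k, g (φ k)⟫ • g (φ k))
    (hmax : ∀ k i, |⟪F k, g i⟫| ≤ |⟪F k, g (φ k)⟫|)
    {x : ι → ℝ} (hx1 : Summable (fun i => |x i|)) (hxs : ∑' i, |x i| ≤ 1)
    (hx : HasSum (fun i => x i • g i) (F 0)) (k : ℕ) :
    ‖F k‖ ^ 2 ≤ ((1 + |P.y 0|) / (1 - 1 / (8 * p))) ^ 2 / (k + 1) := by
  classical
  have hp0 : 0 < p := by linarith
  set c : ℝ := 1 - 1 / (8 * p) with hc
  have hc0 : 0 < c := by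
    rw [hc, sub_pos, div_lt_one (by positivity)]
    linarith
  have hc1 : c ≤ 1 := by
    rw [hc]
    have : 0 < 1 / (8 * p) := by positivity
    linarith
  set C : ℝ := (1 + |P.y 0|) / c with hC
  have hC1 : 1 ≤ C := by
    rw [hC, le_div_iff₀ hc0]
    have := abs_nonneg (P.y 0)
    linarith
  -- positivity of the maximal inner product
  have hpos : ∀ k, ∀ x : ι → ℝ, HasSum (fun i => x i • g i) (F k) → F k ≠ 0 →
      0 < |⟪F k, g (φ k)⟫| := by
    intro k x hx hF
    by_contra hcon
    have h0 : |⟪F k, g (φ k)⟫| = 0 := le_antisymm (not_lt.1 hcon) (abs_nonneg _)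
    have h1 : ∀ i, ⟪F k, g i⟫ = 0 := by
      intro i
      have := hmax k i
      rw [h0] at this
      exact abs_eq_zero.1 (le_antisymm this (abs_nonneg _))
    have h2 := hasSum_energy hx
    simp only [h1, mul_zero] at h2
    have h3 := h2.unique hasSum_zero
    exact hF (norm_eq_zero.1 (pow_eq_zero_iff (two_ne_zero) |>.1 h3))
  -- the invariant
  have hinv : ∀ k, F k ≠ 0 → ∃ (D : ℝ) (x : ι → ℝ), 0 < D ∧ D ≤ |⟪F k, g (φ k)⟫| ∧
      Summable (fun i => |x i|) ∧ HasSum (fun i => x i • g i) (F k) ∧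
      Gam P D x (F k) ≤ 1 + |P.y 0| := by
    intro k
    induction k with
    | zero =>
      intro hF
      have h1 := hpos 0 x hx hF
      refine ⟨|⟪F 0, g (φ 0)⟫|, x, h1, le_rfl, hx1, hx, ?_⟩
      have h2 := Gam_init P h1 hx1 hx (hmax 0)
      refine h2.trans ?_
      have h3 : 0 ≤ ∑' i, |x i| := tsum_nonneg (fun i => abs_nonneg _)
      have h4 : (1 + P.y 0) * ∑' i, |x i| ≤ (1 + |P.y 0|) * ∑' i, |x i| := by
        apply mul_le_mul_of_nonneg_right _ h3
        have := le_abs_self (P.y 0)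
        linarith
      have h5 : (1 + |P.y 0|) * ∑' i, |x i| ≤ (1 + |P.y 0|) * 1 := by
        apply mul_le_mul_of_nonneg_left hxs
        have := abs_nonneg (P.y 0)
        linarith
      linarith
    | succ k ih =>
      intro hF
      have hFk : F k ≠ 0 := by
        intro h0
        apply hF
        rw [hstep k, h0]
        simp
      obtain ⟨D, x, hD, hDle, hxs, hxf, hG⟩ := ih hFk
      set r := ⟪F k, g (φ k)⟫ with hr
      set x' := Function.update x (φ k) (x (φ k) - r) with hx'
      have hx's : Summable (fun i => |x' i|) := by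
        have : (fun i => |x' i|) = Function.update (fun i => |x i|) (φ k) (|x (φ k) - r|) := by
          funext j
          by_cases h : j = φ k
          · subst h; simp [hx']
          · simp [hx', Function.update_of_ne h]
        rw [this]
        exact (hxs.hasSum.update (φ k) _).summable
      have hx'f : HasSum (fun i => x' i • g i) (F (k + 1)) := by
        have : (fun i => x' i • g i)
            = Function.update (fun i => x i • g i) (φ k) ((x (φ k) - r) • g (φ k)) := by
          funext j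
          by_cases h : j = φ k
          · subst h; simp [hx']
          · simp [hx', Function.update_of_ne h]
        rw [this]
        have h1 := hxf.update (φ k) ((x (φ k) - r) • g (φ k))
        convert h1 using 1
        rw [hstep k, sub_smul]
        abel
      have hG' : Gam P D x' (F (k + 1)) ≤ 1 + |P.y 0| := by
        have := Gam_step hg.norm_one P hD hxs (f := F k) (φ k) hDle
        rw [hstep k]
        exact this.trans hG
      have hδ := hpos (k + 1) x' hx'f hF
      rcases le_total D |⟪F (k + 1), g (φ (k + 1))⟫| with h | h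
      · exact ⟨D, x', hD, h, hx's, hx'f, hG'⟩
      · refine ⟨_, x', hδ, le_rfl, hx's, hx'f, ?_⟩
        exact (hg.Gam_scale hp0 hq P hpar hδ h hx's hx'f (hmax (k + 1))).trans hG'
  -- the basic inequality
  have hbasic : ∀ k, ‖F k‖ ^ 2 ≤ C * |⟪F k, g (φ k)⟫| := by
    intro k
    by_cases hF : F k = 0
    · rw [hF]; simp
    · obtain ⟨D, x, hD, hDle, hxs, hxf, hG⟩ := hinv k hF
      have h1 := hg.le_Gam hp0 P hD hxs hxf
      have h2 : c * (‖F k‖ ^ 2 / D) ≤ 1 + |P.y 0| := h1.trans hG
      have h3 : ‖F k‖ ^ 2 ≤ C * D := by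
        rw [hC, div_mul_eq_mul_div, le_div_iff₀ hc0]
        have h4 : c * (‖F k‖ ^ 2 / D) * D ≤ (1 + |P.y 0|) * D :=
          mul_le_mul_of_nonneg_right h2 hD.le
        have h5 : c * (‖F k‖ ^ 2 / D) * D = ‖F k‖ ^ 2 * c := by field_simp
        linarith
      have h4 : C * D ≤ C * |⟪F k, g (φ k)⟫| := by
        apply mul_le_mul_of_nonneg_left hDle
        linarith
      linarith
  have hnorm : ∀ k, ‖F (k + 1)‖ ^ 2 = ‖F k‖ ^ 2 - ⟪F k, g (φ k)⟫ ^ 2 := by
    intro k
    rw [hstep k, norm_sub_sq_real, real_inner_smul_right, norm_smul, hg.norm_one,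
      Real.norm_eq_abs, mul_one, sq_abs]
    ring
  have hC2 : 0 < C ^ 2 := by positivity
  apply seq_bound (a := fun k => ‖F k‖ ^ 2) hC2
  · -- initial norm
    have h1 : ‖F 0‖ ≤ 1 := by
      rw [← hx.tsum_eq]
      refine (norm_tsum_le_tsum_norm ?_).trans ?_
      · simpa [norm_smul, hg.norm_one] using hx1
      · simpa [norm_smul, hg.norm_one] using hxs
    have h2 : ‖F 0‖ ^ 2 ≤ 1 := by
      have := norm_nonneg (F 0)
      nlinarith
    have h3 : 1 ≤ C ^ 2 := by nlinarith
    simpa using h2.trans h3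
  · intro k
    rw [hnorm k]
    have h1 := hbasic k
    have h2 : (‖F k‖ ^ 2) ^ 2 / C ^ 2 ≤ ⟪F k, g (φ k)⟫ ^ 2 := by
      rw [div_le_iff₀ hC2, ← sq_abs (⟪F k, g (φ k)⟫)]
      have := pow_le_pow_left₀ (sq_nonneg ‖F k‖) h1 2
      nlinarith
    linarith

/-- Coefficient expansion of an element of the closure of the absolute convex hull. -/
theorem exists_coeff (hg : Riesz g p q) (hp : 0 < p) (hq : 0 < q) {f : H}
    (hf : f ∈ closure {f | ∃ (s : Finset ι) (c : ι → ℝ), ∑ i ∈ s, |c i| ≤ 1 ∧
      ∑ i ∈ s, c i • g i = f}) :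
    ∃ x : ι → ℝ, Summable (fun i => |x i|) ∧ ∑' i, |x i| ≤ 1 ∧
      HasSum (fun i => x i • g i) f := by
  classical
  rw [mem_closure_iff_seq_limit] at hf
  obtain ⟨u, hu, hlim⟩ := hf
  choose s c hc1 hcu using hu
  set d : ℕ → ι → ℝ := fun n i => if i ∈ s n then c n i else 0 with hd
  have hd0 : ∀ n i, i ∉ s n → d n i = 0 := by
    intro n i hi
    simp [hd, hi]
  have hsumd : ∀ n (t : Finset ι), s n ⊆ t → ∑ i ∈ t, d n i • g i = u n := by
    intro n t ht
    rw [← hcu n]
    rw [← Finset.sum_subset ht (fun i _ hi => by rw [hd0 n i hi, zero_smul])]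
    apply Finset.sum_congr rfl
    intro i hi
    simp [hd, hi]
  have habs : ∀ n (t : Finset ι), ∑ i ∈ t, |d n i| ≤ 1 := by
    intro n t
    refine le_trans ?_ (hc1 n)
    calc ∑ i ∈ t, |d n i| ≤ ∑ i ∈ t ∪ s n, |d n i| :=
          Finset.sum_le_sum_of_subset_of_nonneg Finset.subset_union_left
            (fun i _ _ => abs_nonneg _)
      _ = ∑ i ∈ s n, |d n i| := by
          symm
          apply Finset.sum_subset Finset.subset_union_right
          intro i _ hi
          rw [hd0 n i hi, abs_zero]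
      _ = ∑ i ∈ s n, |c n i| := by
          apply Finset.sum_congr rfl
          intro i hi
          simp [hd, hi]
  have hdiff : ∀ n m (t : Finset ι), p * ∑ i ∈ t, (d n i - d m i) ^ 2 ≤ ‖u n - u m‖ ^ 2 := by
    intro n m t
    have h1 := hg.lower (t ∪ (s n ∪ s m)) (fun i => d n i - d m i)
    have h2 : ∑ i ∈ t ∪ (s n ∪ s m), (d n i - d m i) • g i = u n - u m := by
      simp only [sub_smul]
      rw [Finset.sum_sub_distrib, hsumd n _ (Finset.subset_union_left.trans
        Finset.subset_union_right), hsumd m _ (Finset.subset_union_right.trans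
        Finset.subset_union_right)]
    rw [h2] at h1
    refine le_trans ?_ h1
    apply mul_le_mul_of_nonneg_left _ hp.le
    exact Finset.sum_le_sum_of_subset_of_nonneg Finset.subset_union_left
      (fun i _ _ => sq_nonneg _)
  have hcau : ∀ i, ∃ y, Tendsto (fun n => d n i) atTop (𝓝 y) := by
    intro i
    apply cauchySeq_tendsto_of_complete
    have hu : CauchySeq u := hlim.cauchySeq
    rw [Metric.cauchySeq_iff] at hu ⊢
    intro ε hε
    obtain ⟨N, hN⟩ := hu (√p * ε) (by positivity)
    refine ⟨N, fun m hm n hn => ?_⟩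
    have h1 := hN m hm n hn
    rw [dist_eq_norm] at h1
    rw [Real.dist_eq]
    have h2 := hdiff m n {i}
    rw [Finset.sum_singleton] at h2
    have h3 : ‖u m - u n‖ ^ 2 < (√p * ε) ^ 2 := by
      apply pow_lt_pow_left₀ h1 (norm_nonneg _) two_ne_zero
    rw [mul_pow, Real.sq_sqrt hp.le] at h3
    have h4 : (d m i - d n i) ^ 2 < ε ^ 2 := by
      have : p * (d m i - d n i) ^ 2 < p * ε ^ 2 := by linarith
      exact lt_of_mul_lt_mul_left this hp.le
    exact abs_lt_of_sq_lt_sq h4 hε.le
  choose x hx using hcau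
  have hxabs : ∀ t : Finset ι, ∑ i ∈ t, |x i| ≤ 1 := by
    intro t
    have h1 : Tendsto (fun n => ∑ i ∈ t, |d n i|) atTop (𝓝 (∑ i ∈ t, |x i|)) :=
      tendsto_finsetSum _ (fun i _ => (hx i).abs)
    exact le_of_tendsto h1 (Eventually.of_forall (fun n => habs n t))
  have hxd : ∀ n (t : Finset ι), p * ∑ i ∈ t, (d n i - x i) ^ 2 ≤ ‖u n - f‖ ^ 2 := by
    intro n t
    have h1 : Tendsto (fun m => p * ∑ i ∈ t, (d n i - d m i) ^ 2) atTop
        (𝓝 (p * ∑ i ∈ t, (d n i - x i) ^ 2)) := by
      apply Tendsto.const_mul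
      apply tendsto_finsetSum
      intro i _
      exact (tendsto_const_nhds.sub (hx i)).pow 2
    have h2 : Tendsto (fun m => ‖u n - u m‖ ^ 2) atTop (𝓝 (‖u n - f‖ ^ 2)) :=
      ((tendsto_const_nhds.sub hlim).norm).pow 2
    exact le_of_tendsto_of_tendsto' h1 h2 (fun m => hdiff n m t)
  refine ⟨x, summable_of_sum_le (fun i => abs_nonneg _) hxabs, ?_, ?_⟩
  · exact (summable_of_sum_le (fun i => abs_nonneg _) hxabs).tsum_le_of_sum_le hxabs
  · rw [HasSum, SummationFilter.unconditional_filter, Metric.tendsto_atTop]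
    intro ε hε
    set K : ℝ := √(q / p) + 1 with hK
    have hK0 : 0 < K := by positivity
    obtain ⟨n, hn⟩ := (Metric.tendsto_atTop.1 hlim (ε / K) (by positivity))
    have hn' := hn n le_rfl
    refine ⟨s n, fun t ht => ?_⟩
    rw [dist_eq_norm] at hn' ⊢
    have h1 : ‖∑ i ∈ t, x i • g i - u n‖ ≤ √(q / p) * ‖u n - f‖ := by
      have h2 := hg.upper t (fun i => d n i - x i)
      have h3 : ∑ i ∈ t, (d n i - x i) • g i = u n - ∑ i ∈ t, x i • g i := by
        simp only [sub_smul]
        rw [Finset.sum_sub_distrib, hsumd n t ht]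
      rw [h3] at h2
      have h4 := hxd n t
      have h5 : ‖u n - ∑ i ∈ t, x i • g i‖ ^ 2 ≤ (√(q / p) * ‖u n - f‖) ^ 2 := by
        rw [mul_pow, Real.sq_sqrt (by positivity)]
        refine h2.trans ?_
        rw [div_mul_eq_mul_div, le_div_iff₀ hp]
        nlinarith
      rw [norm_sub_rev]
      exact le_of_sq_le_sq h5 (by positivity)
    calc ‖∑ i ∈ t, x i • g i - f‖ = ‖(∑ i ∈ t, x i • g i - u n) + (u n - f)‖ := by
          congr 1; abel
      _ ≤ ‖∑ i ∈ t, x i • g i - u n‖ + ‖u n - f‖ := norm_add_le _ _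
      _ ≤ √(q / p) * ‖u n - f‖ + ‖u n - f‖ := by linarith
      _ = K * ‖u n - f‖ := by rw [hK]; ring
      _ < K * (ε / K) := by gcongr
      _ = ε := by field_simp

end Pool.Agent.Lib.MP_3cbb73_an
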