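import Pool.Agent.Lib.MP_3cbb73_an.ToepPert

set_option autoImplicit false

namespace Pool.Agent.Lib.MP_3cbb73_an

open Real

namespace Toep

variable {T : ℕ}

/-- The states inside a cycle. -/
noncomputable def stt (C : ℤ × Fin T → ℝ) (p : ℕ → ℤ × Fin T) (a : ℕ → ℝ) : ℕ → ℤ × Fin T → ℝ
  | 0 => C
  | s + 1 => stt C p a s - Pi.single (p s) (a s)

/-- A legal cycle for an exact kernel from an approximate one. -/
theorem zrun_pert (D : Toep T) {N : ℕ} (hN : 0 < N) (uτ uσ : Fin N → Fin T) (um : Fin N → ℕ)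
    (h1 : ∀ i, 1 ≤ um i) (hL : ∀ i, um i ≤ D.L)
    (C : ℤ × Fin T → ℝ) (p : ℕ → ℤ × Fin T) (a : ℕ → ℝ) (x : ℝ) (hx : 0 ≤ x)
    (hcyc : stt C p a N = x • sh 1 C)
    (hmono : ∀ s, s + 1 < N → |a (s + 1)| ≤ |a s|) (hlast : x * |a 0| ≤ |a (N - 1)|)
    (ε μ : ℝ) (hε : 0 ≤ ε)
    (hinfl : ∀ s, s < N → ∀ l, ε * ∑ i, |D.infl (uτ i) (uσ i) (um i) (stt C p a s) l| ≤ μ)
    (hres : ∀ s, s < N → ∀ l, l ≠ p s → |D.Res (stt C p a s) l| + μ ≤ |a s|)
    (B : Matrix (Fin N) (Fin N) ℝ)
    (hB1 : ∀ i, ∑ j, |(1 - B * (Matrix.of (fun s i : Fin N =>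
      D.infl (uτ i) (uσ i) (um i) (stt C p a s) (p s)))) i j| ≤ 1 / 2)
    (hB2 : ∀ i, |(B.mulVec (fun s : Fin N => a s - D.Res (stt C p a s) (p s))) i| ≤ ε / 2) :
    ∃ y : Fin N → ℝ, (∀ i, |y i| ≤ ε) ∧
      (D.pert uτ uσ um h1 hL y).ZRun C (x • sh 1 C) ((List.range N).map p) := by
  obtain ⟨y, hy, hyε⟩ := exists_solution _ B _ ε hε hB1 hB2
  refine ⟨y, hyε, ?_⟩
  set D' := D.pert uτ uσ um h1 hL y with hD'
  have hR : ∀ C' l, D'.Res C' l = D.Res C' l + ∑ i, y i * D.infl (uτ i) (uσ i) (um i) C' l :=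
    fun C' l => Res_pert D uτ uσ um h1 hL y C' l
  have hpick : ∀ s, s < N → D'.Res (stt C p a s) (p s) = a s := by
    intro s hs
    have h := congrFun hy ⟨s, hs⟩
    simp only [Matrix.mulVec, dotProduct, Matrix.of_apply] at h
    rw [hR]
    have e : ∑ i, y i * D.infl (uτ i) (uσ i) (um i) (stt C p a s) (p s) =
        ∑ i, D.infl (uτ i) (uσ i) (um i) (stt C p a s) (p s) * y i :=
      Finset.sum_congr rfl (fun _ _ => mul_comm _ _)
    rw [e, h]
    ring
  have hall : ∀ s, s < N → ∀ l, |D'.Res (stt C p a s) l| ≤ |a s| := by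
    intro s hs l
    by_cases hl : l = p s
    · rw [hl, hpick s hs]
    · rw [hR]
      refine (abs_add_le _ _).trans ?_
      refine le_trans ?_ (hres s hs l hl)
      refine add_le_add_right ?_ _
      refine le_trans ?_ (hinfl s hs l)
      refine (Finset.abs_sum_le_sum_abs _ _).trans ?_
      rw [Finset.mul_sum]
      refine Finset.sum_le_sum (fun i _ => ?_)
      rw [abs_mul]
      exact mul_le_mul_of_nonneg_right (hyε i) (abs_nonneg _)
  have hafter : ∀ s, s < N → ∀ l, |D'.Res (stt C p a (s + 1)) l| ≤ |a s| := by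
    intro s hs l
    by_cases hs' : s + 1 < N
    · exact (hall (s + 1) hs' l).trans (hmono s hs')
    · have hsN : s + 1 = N := by omega
      rw [hsN, hcyc, Res_smul, Res_sh, abs_mul, abs_of_nonneg hx]
      have h3 := hall 0 hN (l.1 - 1, l.2)
      have h4 : x * |D'.Res C (l.1 - 1, l.2)| ≤ x * |a 0| := mul_le_mul_of_nonneg_left h3 hx
      have h5 : N - 1 = s := by omega
      rw [h5] at hlast
      exact h4.trans hlast
  have key : ∀ n s, s + n = N → D'.ZRun (stt C p a s) (stt C p a N) ((List.range' s n).map p) := by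
    intro n
    induction n with
    | zero =>
      intro s hs
      rw [add_zero] at hs
      subst hs
      exact ZRun.nil _
    | succ n ih =>
      intro s hs
      rw [List.range'_succ, List.map_cons]
      have hsN : s < N := by omega
      have e : stt C p a s - Pi.single (p s) (D'.Res (stt C p a s) (p s)) = stt C p a (s + 1) := by
        rw [hpick s hsN]; rfl
      refine ZRun.cons _ (fun l => ?_) (fun l => ?_) ?_
      · rw [hpick s hsN]; exact hall s hsN l
      · rw [e, hpick s hsN]; exact hafter s hsN l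
      · rw [e]; exact ih (s + 1) (by omega)
  have h6 := key N 0 (by omega)
  rw [hcyc, ← List.range_eq_range'] at h6
  exact h6

/-- Riesz bound of the perturbed kernel. -/
theorem lower_pert (D : Toep T) {N : ℕ} (uτ uσ : Fin N → Fin T) (um : Fin N → ℕ)
    (h1 : ∀ i, 1 ≤ um i) (hL : ∀ i, um i ≤ D.L) (y : Fin N → ℝ) (ε : ℝ)
    (hy : ∀ i, |y i| ≤ ε) {U : ℕ} (b : Fin U → Fin T → ℕ → ℝ)
    (hb : ∀ ρ τ k, D.L < k → b ρ τ k = 0) (c η : ℝ)
    (hη : ∀ τ, ∑ m ∈ Finset.range (D.L + 1), ∑ σ,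
      (|D.h τ σ m - Gk D.P D.Q b D.L τ σ m - if m = 0 ∧ τ = σ then c * D.s τ else 0| +
       |D.h σ τ m - Gk D.P D.Q b D.L σ τ m - if m = 0 ∧ σ = τ then c * D.s σ else 0|) ≤
      η * D.s τ) : (D.pert uτ uσ um h1 hL y).Lower (c - (η + 2 * N * ε)) := by
  have hε : ∀ i : Fin N, 0 ≤ ε := fun i => (abs_nonneg _).trans (hy i)
  refine lower_of_factor (D.pert uτ uσ um h1 hL y) b hb c (η + 2 * N * ε) (fun τ => ?_)
  change ∑ m ∈ Finset.range (D.L + 1), ∑ σ,
      (|D.h τ σ m + (∑ i, if uτ i = τ ∧ uσ i = σ ∧ um i = m then y i else 0) -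
        Gk D.P D.Q b D.L τ σ m - if m = 0 ∧ τ = σ then c * D.s τ else 0| +
       |D.h σ τ m + (∑ i, if uτ i = σ ∧ uσ i = τ ∧ um i = m then y i else 0) -
        Gk D.P D.Q b D.L σ τ m - if m = 0 ∧ σ = τ then c * D.s σ else 0|) ≤
      (η + 2 * N * ε) * D.s τ
  have hterm : ∀ m σ, (|D.h τ σ m + (∑ i, if uτ i = τ ∧ uσ i = σ ∧ um i = m then y i else 0) -
        Gk D.P D.Q b D.L τ σ m - if m = 0 ∧ τ = σ then c * D.s τ else 0| +
       |D.h σ τ m + (∑ i, if uτ i = σ ∧ uσ i = τ ∧ um i = m then y i else 0) -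
        Gk D.P D.Q b D.L σ τ m - if m = 0 ∧ σ = τ then c * D.s σ else 0|) ≤
      (|D.h τ σ m - Gk D.P D.Q b D.L τ σ m - if m = 0 ∧ τ = σ then c * D.s τ else 0| +
       |D.h σ τ m - Gk D.P D.Q b D.L σ τ m - if m = 0 ∧ σ = τ then c * D.s σ else 0|) +
      ((∑ i, if uτ i = τ ∧ uσ i = σ ∧ um i = m then |y i| else 0) +
       (∑ i, if uτ i = σ ∧ uσ i = τ ∧ um i = m then |y i| else 0)) := by
    intro m σ
    have e : ∀ τ σ : Fin T, |∑ i, if uτ i = τ ∧ uσ i = σ ∧ um i = m then y i else 0| ≤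
        ∑ i, if uτ i = τ ∧ uσ i = σ ∧ um i = m then |y i| else 0 := by
      intro τ σ
      refine (Finset.abs_sum_le_sum_abs _ _).trans (Finset.sum_le_sum (fun i _ => ?_))
      split_ifs
      · exact le_rfl
      · rw [abs_zero]
    have e1 := e τ σ
    have e2 := e σ τ
    have f : ∀ a b c d : ℝ, |a + b - c - d| ≤ |a - c - d| + |b| := by
      intro a b c d
      calc |a + b - c - d| = |(a - c - d) + b| := by congr 1; ring
        _ ≤ _ := abs_add_le _ _
    have f1 := f (D.h τ σ m) (∑ i, if uτ i = τ ∧ uσ i = σ ∧ um i = m then y i else 0)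
      (Gk D.P D.Q b D.L τ σ m) (if m = 0 ∧ τ = σ then c * D.s τ else 0)
    have f2 := f (D.h σ τ m) (∑ i, if uτ i = σ ∧ uσ i = τ ∧ um i = m then y i else 0)
      (Gk D.P D.Q b D.L σ τ m) (if m = 0 ∧ σ = τ then c * D.s σ else 0)
    linarith
  refine (Finset.sum_le_sum (fun m _ => Finset.sum_le_sum (fun σ _ => hterm m σ))).trans ?_
  simp only [Finset.sum_add_distrib]
  have hs1 : ∑ m ∈ Finset.range (D.L + 1), ∑ σ, ∑ i,
      (if uτ i = τ ∧ uσ i = σ ∧ um i = m then |y i| else 0) ≤ N * ε := by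
    have e1 : ∑ m ∈ Finset.range (D.L + 1), ∑ σ, ∑ i,
        (if uτ i = τ ∧ uσ i = σ ∧ um i = m then |y i| else 0) =
        ∑ i, ∑ m ∈ Finset.range (D.L + 1), ∑ σ,
        (if uτ i = τ ∧ uσ i = σ ∧ um i = m then |y i| else 0) := by
      rw [Finset.sum_comm' (s := Finset.univ) (t := fun _ => Finset.range (D.L + 1))
        (s' := fun _ => Finset.univ) (t' := Finset.range (D.L + 1))]
      · refine Finset.sum_congr rfl (fun m _ => ?_)
        rw [Finset.sum_comm]
      · intro x y; simp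
    rw [e1]
    calc _ ≤ ∑ _i : Fin N, ε := by
          refine Finset.sum_le_sum (fun i _ => ?_)
          rw [Finset.sum_eq_single_of_mem (um i) (by rw [Finset.mem_range]; have := hL i; omega),
            Finset.sum_eq_single (uσ i)]
          · split_ifs
            · exact hy i
            · exact hε i
          · intro σ _ hσ
            exact if_neg (fun h => hσ h.2.1.symm)
          · intro h; exact absurd (Finset.mem_univ _) h
          · intro m _ hm
            exact Finset.sum_eq_zero (fun σ _ => if_neg (fun h => hm h.2.2.symm))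
      _ = N * ε := by simp
  have hs2 : ∑ m ∈ Finset.range (D.L + 1), ∑ σ, ∑ i,
      (if uτ i = σ ∧ uσ i = τ ∧ um i = m then |y i| else 0) ≤ N * ε := by
    have e1 : ∑ m ∈ Finset.range (D.L + 1), ∑ σ, ∑ i,
        (if uτ i = σ ∧ uσ i = τ ∧ um i = m then |y i| else 0) =
        ∑ i, ∑ m ∈ Finset.range (D.L + 1), ∑ σ,
        (if uτ i = σ ∧ uσ i = τ ∧ um i = m then |y i| else 0) := by
      rw [Finset.sum_comm' (s := Finset.univ) (t := fun _ => Finset.range (D.L + 1))
        (s' := fun _ => Finset.univ) (t' := Finset.range (D.L + 1))]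
      · refine Finset.sum_congr rfl (fun m _ => ?_)
        rw [Finset.sum_comm]
      · intro x y; simp
    rw [e1]
    calc _ ≤ ∑ _i : Fin N, ε := by
          refine Finset.sum_le_sum (fun i _ => ?_)
          rw [Finset.sum_eq_single_of_mem (um i) (by rw [Finset.mem_range]; have := hL i; omega),
            Finset.sum_eq_single (uτ i)]
          · split_ifs
            · exact hy i
            · exact hε i
          · intro σ _ hσ
            exact if_neg (fun h => hσ h.1.symm)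
          · intro h; exact absurd (Finset.mem_univ _) h
          · intro m _ hm
            exact Finset.sum_eq_zero (fun σ _ => if_neg (fun h => hm h.2.2.symm))
      _ = N * ε := by simp
  have hη' := hη τ
  simp only [Finset.sum_add_distrib] at hη'
  have hs : (1 : ℝ) ≤ D.s τ := by exact_mod_cast D.hs τ
  have hNε : 0 ≤ (N : ℝ) * ε := by
    rcases Nat.eq_zero_or_pos N with h | h
    · subst h; simp
    · have := hε ⟨0, h⟩
      positivity
  nlinarith

end Toep

end Pool.Agent.Lib.MP_3cbb73_an
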