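import Pool.Agent.Lib.MP_3cbb73_an.ToepPSD

set_option autoImplicit false

namespace Pool.Agent.Lib.MP_3cbb73_an

open Real

namespace Toep

variable {T : ℕ} {D : Toep T}

theorem mem_cyc {ps : List (ℤ × Fin T)} {M : ℤ} {K : ℕ} {p : ℤ × Fin T}
    (hp : p ∈ cyc ps M K) : ∃ q ∈ ps, ∃ k : ℕ, k < K ∧ p = (q.1 + (M + k), q.2) := by
  induction K with
  | zero => simp [cyc] at hp
  | succ K ih =>
    simp only [cyc, List.mem_append, List.mem_map] at hp
    rcases hp with hp | ⟨q, hq, rfl⟩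
    · obtain ⟨q, hq, k, hk, rfl⟩ := ih hp
      exact ⟨q, hq, k, by omega, rfl⟩
    · exact ⟨q, hq, K, by omega, rfl⟩

theorem le_cost (D : Toep T) (R : ℕ) {ps : List (ℤ × Fin T)} {p : ℤ × Fin T} (hp : p ∈ ps) :
    D.s p.2 * D.P ^ p.1.toNat * D.Q ^ (R - p.1.toNat) ≤ D.cost R ps := by
  unfold cost
  exact List.single_le_sum (fun _ _ => Nat.zero_le _) _ (List.mem_map.2 ⟨p, hp, rfl⟩)

/-- Lower bound for one cycle-periodic run, along geometric times. -/
theorem geom_bound {H : Type*} [NormedAddCommGroup H] [InnerProductSpace ℝ H] [CompleteSpace H]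
    (hinf : ¬ FiniteDimensional ℝ H) {C : ℤ × Fin T → ℝ} {x : ℝ} {ps : List (ℤ × Fin T)}
    {M : ℕ} {τ₀ : Fin T} (hrun : D.ZRun C (x • sh 1 C) ps)
    (hsupp : ∀ p : ℤ × Fin T, p.1 < -M ∨ 0 ≤ p.1 → C p = 0)
    (hps : ∀ p ∈ ps, -(M : ℤ) ≤ p.1 ∧ p.1 ≤ 0) (hbirth : (0, τ₀) ∈ ps)
    {C₁ C₂ : ℝ} (h0 : 0 < C₁) (h1 : C₁ ≤ 1) (h2 : 1 ≤ C₂)
    (hlow : D.Lower (C₁ ^ 2)) (hupp : D.Upper (C₂ ^ 2)) :
    ∃ A : ℝ, 0 < A ∧ ∀ K : ℕ, ∃ m : ℕ, (D.P : ℝ) ^ K ≤ m ∧
      C₁ * (√D.P ^ K * x ^ (K + 1) * |C (-1, τ₀)|) ≤ γ H C₁ C₂ m * (D.Q ^ K * A) := by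
  have hP1 : (1 : ℝ) ≤ D.P := by exact_mod_cast D.hP
  have hQ1 : (1 : ℝ) ≤ D.Q := by exact_mod_cast D.hQ
  set g : ℕ → ℝ := fun k => ∑ τ, (D.s τ : ℝ) * D.P ^ k * D.Q ^ (M + 1 - k) *
    |C ((k : ℤ) - M, τ)| with hg
  set A : ℝ := 1 + ∑ k ∈ Finset.range M, g k with hA
  have hg0 : ∀ k, 0 ≤ g k := fun k => Finset.sum_nonneg (fun τ _ => by positivity)
  have hA1 : 1 ≤ A := by
    have := Finset.sum_nonneg (fun k (_ : k ∈ Finset.range M) => hg0 k)
    rw [hA]; linarith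
  refine ⟨A, by linarith, fun K => ⟨D.cost (M + K + 1) (cyc ps M (K + 1)), ?_, ?_⟩⟩
  · -- the number of steps
    have hmem : ((0 : ℤ) + ((M : ℤ) + (K : ℕ)), τ₀) ∈ cyc ps M (K + 1) := by
      simp only [cyc, List.mem_append, List.mem_map]
      exact Or.inr ⟨(0, τ₀), hbirth, rfl⟩
    have h := le_cost D (M + K + 1) hmem
    simp only at h
    rw [show ((0 : ℤ) + ((M : ℤ) + (K : ℕ))).toNat = M + K by omega,
      show M + K + 1 - (M + K) = 1 by omega] at h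
    have h3 : D.P ^ K ≤ D.s τ₀ * D.P ^ (M + K) * D.Q ^ 1 := by
      have e1 : 1 ≤ D.s τ₀ := D.hs τ₀
      have e2 : 1 ≤ D.P ^ M := Nat.one_le_pow _ _ D.hP
      have e3 : 1 ≤ D.Q := D.hQ
      calc D.P ^ K = 1 * (1 * D.P ^ K) * 1 := by ring
        _ ≤ D.s τ₀ * (D.P ^ M * D.P ^ K) * D.Q := by gcongr
        _ = _ := by rw [pow_add, pow_one]
    exact_mod_cast h3.trans h
  · have hz := hrun.cycles (M : ℤ) (K + 1)
    have hS : Supp (M + K + 1) (sh (M : ℤ) C) := by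
      intro p hp
      apply hsupp
      simp only
      push_cast at hp
      omega
    have hb := hz.brun (R := M + K + 1) hS (by
      intro p hp
      obtain ⟨q, hq, k, hk, rfl⟩ := mem_cyc hp
      have := hps q hq
      simp only
      push_cast
      omega)
    have key := brun_le_γ' (H := H) (fun i => D.sz_pos _ i) (D.W_symm _) (D.W_diag _) h0 h1 h2
      (fun v => by have := hlow (M + K + 1) v; exact this)
      (fun v => by have := hupp (M + K + 1) v; exact this) hinf hb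
    refine le_trans ?_ (key.trans ?_)
    · apply mul_le_mul_of_nonneg_left _ h0.le
      apply Real.le_sqrt_of_sq_le
      let i : Fin (M + K + 1) × Fin T := (⟨M + K, by omega⟩, τ₀)
      have hsingle := Finset.single_le_sum (f := fun i => (D.sz (M + K + 1) i : ℝ) *
        emb (M + K + 1) (x ^ (K + 1) • sh ((M : ℤ) + ((K + 1 : ℕ) : ℤ)) C) i ^ 2)
        (fun i _ => by positivity) (Finset.mem_univ i)
      refine le_trans ?_ hsingle
      have e1 : emb (M + K + 1) (x ^ (K + 1) • sh ((M : ℤ) + ((K + 1 : ℕ) : ℤ)) C) i =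
          x ^ (K + 1) * C (-1, τ₀) := by
        simp only [emb, i, Pi.smul_apply, smul_eq_mul, sh]
        congr 3
        push_cast
        ring
      have e2 : (D.P : ℝ) ^ K ≤ D.sz (M + K + 1) i := by
        have h3 : D.P ^ K ≤ D.sz (M + K + 1) i := by
          unfold sz
          simp only [i]
          rw [show M + K + 1 - (M + K) = 1 by omega]
          have e1 : 1 ≤ D.s τ₀ := D.hs τ₀
          have e2 : 1 ≤ D.P ^ M := Nat.one_le_pow _ _ D.hP
          have e3 : 1 ≤ D.Q := D.hQ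
          calc D.P ^ K = 1 * (1 * D.P ^ K) * 1 := by ring
            _ ≤ D.s τ₀ * (D.P ^ M * D.P ^ K) * D.Q := by gcongr
            _ = _ := by rw [pow_add, pow_one]
        exact_mod_cast h3
      simp only [e1]
      have e3 : (√D.P ^ K * x ^ (K + 1) * |C (-1, τ₀)|) ^ 2 =
          (D.P : ℝ) ^ K * (x ^ (K + 1) * C (-1, τ₀)) ^ 2 := by
        rw [mul_pow, mul_pow, ← pow_mul, mul_comm K 2, pow_mul, Real.sq_sqrt (by positivity), sq_abs]
        ring
      rw [e3]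
      exact mul_le_mul_of_nonneg_right e2 (sq_nonneg _)
    · have hγ : 0 ≤ γ H C₁ C₂ (D.cost (M + K + 1) (cyc ps M (K + 1))) := by
        by_contra hneg
        push Not at hneg
        have hnn : 0 ≤ C₁ * √(∑ i, (D.sz (M + K + 1) i : ℝ) *
          emb (M + K + 1) (x ^ (K + 1) • sh ((M : ℤ) + ((K + 1 : ℕ) : ℤ)) C) i ^ 2) := by positivity
        have hsum : 0 ≤ ∑ i, (D.sz (M + K + 1) i : ℝ) * |emb (M + K + 1) (sh (M : ℤ) C) i| :=
          Finset.sum_nonneg (fun _ _ => by positivity)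
        rcases hsum.eq_or_lt with hsum | hsum
        · -- all coefficients vanish: use the trivial bound
          exact absurd (γ_nonneg (H := H) C₁ C₂ _) (not_le.2 hneg)
        · nlinarith
      refine mul_le_mul_of_nonneg_left ?_ hγ
      -- the initial norm
      have e1 : ∑ i, (D.sz (M + K + 1) i : ℝ) * |emb (M + K + 1) (sh (M : ℤ) C) i| =
          ∑ k ∈ Finset.range (M + K + 1), ∑ τ, ((D.s τ : ℝ) * D.P ^ k * D.Q ^ (M + K + 1 - k)) *
            |C ((k : ℤ) - M, τ)| := by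
        rw [Fintype.sum_prod_type, ← Fin.sum_univ_eq_sum_range (fun k => ∑ τ,
          ((D.s τ : ℝ) * D.P ^ k * D.Q ^ (M + K + 1 - k)) * |C ((k : ℤ) - M, τ)|)]
        refine Finset.sum_congr rfl (fun k _ => Finset.sum_congr rfl (fun τ _ => ?_))
        simp only [sz, emb, sh]
        push_cast
        rfl
      have e2 : ∑ k ∈ Finset.range (M + K + 1), ∑ τ, ((D.s τ : ℝ) * D.P ^ k *
          D.Q ^ (M + K + 1 - k)) * |C ((k : ℤ) - M, τ)| = ∑ k ∈ Finset.range M, D.Q ^ K * g k := by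
        rw [← Finset.sum_subset (Finset.range_mono (by omega : M ≤ M + K + 1))]
        · refine Finset.sum_congr rfl (fun k hk => ?_)
          rw [Finset.mem_range] at hk
          simp only [hg, Finset.mul_sum]
          refine Finset.sum_congr rfl (fun τ _ => ?_)
          rw [show M + K + 1 - k = K + (M + 1 - k) by omega, pow_add]
          ring
        · intro k _ hk
          rw [Finset.mem_range, not_lt] at hk
          refine Finset.sum_eq_zero (fun τ _ => ?_)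
          rw [hsupp _ (Or.inr (by simp only; omega)), abs_zero, mul_zero]
      rw [e1, e2, ← Finset.mul_sum]
      refine mul_le_mul_of_nonneg_left ?_ (by positivity)
      rw [hA]
      linarith

/-- MAIN THEOREM of the Toeplitz model. -/
theorem main_bound {H : Type*} [NormedAddCommGroup H] [InnerProductSpace ℝ H] [CompleteSpace H]
    (hinf : ¬ FiniteDimensional ℝ H) {C : ℤ × Fin T → ℝ} {x : ℝ} {ps : List (ℤ × Fin T)}
    {M : ℕ} {τ₀ : Fin T} (hrun : D.ZRun C (x • sh 1 C) ps)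
    (hsupp : ∀ p : ℤ × Fin T, p.1 < -M ∨ 0 ≤ p.1 → C p = 0)
    (hps : ∀ p ∈ ps, -(M : ℤ) ≤ p.1 ∧ p.1 ≤ 0) (hbirth : (0, τ₀) ∈ ps)
    (hC : C (-1, τ₀) ≠ 0) (hx0 : 0 < x)
    (hxP : x ^ 2 * D.P ≤ D.Q ^ 2) {C₁ C₂ : ℝ} (h0 : 0 < C₁) (h1 : C₁ ≤ 1) (h2 : 1 ≤ C₂)
    (hlow : D.Lower (C₁ ^ 2)) (hupp : D.Upper (C₂ ^ 2)) :
    ∃ κ : ℝ, 0 < κ ∧ ∀ m : ℕ, 1 ≤ m →
      κ * (m : ℝ) ^ (-(1 / 2) + log (D.P * x / D.Q) / log D.P) ≤ γ H C₁ C₂ m := by
  obtain ⟨A, hA, hK⟩ := geom_bound hinf hrun hsupp hps hbirth h0 h1 h2 hlow hupp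
  have hQ : (1 : ℝ) ≤ D.Q := by exact_mod_cast D.hQ
  have hP : (1 : ℝ) < D.P := by
    have : D.Q < D.P := D.hPQ
    have h4 : (D.Q : ℝ) < D.P := by exact_mod_cast this
    linarith
  have hP0 : (0 : ℝ) < D.P := by linarith
  have hQ0 : (0 : ℝ) < D.Q := by linarith
  have hlog : 0 < log D.P := Real.log_pos hP
  set δ := log (D.P * x / D.Q) / log D.P with hδ
  have hPδ : (D.P : ℝ) ^ δ = D.P * x / D.Q := by
    rw [Real.rpow_def_of_pos hP0, hδ, mul_div_cancel₀ _ hlog.ne', Real.exp_log (by positivity)]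
  have hPη : (D.P : ℝ) ^ (-(1 / 2 - δ)) = √D.P * x / D.Q := by
    rw [show -(1 / 2 - δ) = δ - 1 / 2 by ring, Real.rpow_sub hP0, hPδ, ← Real.sqrt_eq_rpow]
    have h3 : √(D.P : ℝ) ≠ 0 := by positivity
    have h4 : (D.P : ℝ) = √D.P * √D.P := (Real.mul_self_sqrt hP0.le).symm
    field_simp
    rw [Real.sq_sqrt hP0.le]
  have hη : 0 ≤ 1 / 2 - δ := by
    by_contra hneg
    push Not at hneg
    have h3 : 1 < (D.P : ℝ) ^ (-(1 / 2 - δ)) := Real.one_lt_rpow hP (by linarith)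
    rw [hPη, lt_div_iff₀ hQ0, one_mul] at h3
    have h4 : (√D.P * x) ^ 2 = x ^ 2 * D.P := by
      rw [mul_pow, Real.sq_sqrt hP0.le]; ring
    have h5 : (D.Q : ℝ) ^ 2 < (√D.P * x) ^ 2 := by
      apply pow_lt_pow_left₀ h3 hQ0.le (by norm_num)
    linarith
  have hc : 0 < C₁ * x * |C (-1, τ₀)| / A := by positivity
  refine ⟨C₁ * x * |C (-1, τ₀)| / A * ((D.P : ℝ) / min 1 1) ^ (-(1 / 2 - δ)), by positivity,
    fun m hm => ?_⟩
  rw [show -(1 / 2) + δ = -(1 / 2 - δ) by ring]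
  refine γ_lower_of_geometric hP one_pos hc hη (fun K => ?_) hm
  obtain ⟨m', h3, h4⟩ := hK K
  refine ⟨m', by rw [one_mul]; exact h3, ?_⟩
  have h5 : ((D.P : ℝ) ^ K) ^ (-(1 / 2 - δ)) = (√D.P * x / D.Q) ^ K := by
    rw [← hPη, ← Real.rpow_natCast, ← Real.rpow_mul hP0.le, ← Real.rpow_natCast,
      ← Real.rpow_mul hP0.le, mul_comm]
  rw [h5]
  have h6 : C₁ * (√D.P ^ K * x ^ (K + 1) * |C (-1, τ₀)|) / (D.Q ^ K * A) ≤ γ H C₁ C₂ m' := by
    rw [div_le_iff₀ (by positivity)]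
    exact h4
  refine le_trans (le_of_eq ?_) h6
  rw [div_pow, mul_pow, pow_succ]
  field_simp

end Toep

end Pool.Agent.Lib.MP_3cbb73_an
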