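import Pool.Agent.Lib.MP_3cbb73_an.Toeplitz

set_option autoImplicit false

namespace Pool.Agent.Lib.MP_3cbb73_an

open Real

section forms

variable {T : ℕ} (P Q : ℕ)

/-- Weighted block Toeplitz matrix of a kernel `g`. -/
noncomputable def Wg (g : Fin T → Fin T → ℕ → ℝ) (R : ℕ) (i j : Fin R × Fin T) : ℝ :=
  if (i.1 : ℕ) ≤ j.1 then
    (P : ℝ) ^ (i.1 : ℕ) * Q ^ (R - (i.1 : ℕ)) * g i.2 j.2 ((j.1 : ℕ) - i.1)
  else (P : ℝ) ^ (j.1 : ℕ) * Q ^ (R - (j.1 : ℕ)) * g j.2 i.2 ((i.1 : ℕ) - j.1)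

theorem Wg_add (g g' : Fin T → Fin T → ℕ → ℝ) (R : ℕ) (i j : Fin R × Fin T) :
    Wg P Q (fun τ σ m => g τ σ m + g' τ σ m) R i j = Wg P Q g R i j + Wg P Q g' R i j := by
  unfold Wg
  split_ifs <;> ring

theorem Wg_symm (g : Fin T → Fin T → ℕ → ℝ) (hg : ∀ τ σ, g τ σ 0 = g σ τ 0) (R : ℕ)
    (i j : Fin R × Fin T) : Wg P Q g R i j = Wg P Q g R j i := by
  unfold Wg
  rcases lt_trichotomy (i.1 : ℕ) j.1 with h | h | h
  · rw [if_pos h.le, if_neg (by omega)]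
  · rw [if_pos h.le, if_pos h.ge, h, Nat.sub_self, hg]
  · rw [if_neg (by omega), if_pos h.le]

theorem Wg_abs (g : Fin T → Fin T → ℕ → ℝ) (R : ℕ) (i j : Fin R × Fin T) :
    |Wg P Q g R i j| = Wg P Q (fun τ σ m => |g τ σ m|) R i j := by
  unfold Wg
  split_ifs
  · rw [abs_mul, abs_of_nonneg (by positivity)]
  · rw [abs_mul, abs_of_nonneg (by positivity)]

theorem pq_mono {P Q : ℕ} (hPQ : Q ≤ P) {R i j : ℕ} (hj : j ≤ i) (hi : i ≤ R) :
    (P : ℝ) ^ j * Q ^ (R - j) ≤ (P : ℝ) ^ i * Q ^ (R - i) := by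
  obtain ⟨e, rfl⟩ : ∃ e, i = j + e := ⟨i - j, by omega⟩
  obtain ⟨f, rfl⟩ : ∃ f, R = j + e + f := ⟨R - (j + e), by omega⟩
  rw [show j + e + f - j = e + f by omega, show j + e + f - (j + e) = f by omega, pow_add, pow_add]
  have h1 : (Q : ℝ) ^ e ≤ (P : ℝ) ^ e := pow_le_pow_left₀ (by positivity) (by exact_mod_cast hPQ) e
  calc (P : ℝ) ^ j * ((Q : ℝ) ^ e * Q ^ f) = (P : ℝ) ^ j * Q ^ f * (Q : ℝ) ^ e := by ring
    _ ≤ (P : ℝ) ^ j * Q ^ f * (P : ℝ) ^ e := by gcongr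
    _ = _ := by ring

/-- Row sums. -/
theorem row_sum_le {P Q : ℕ} (hPQ : Q ≤ P) (g : Fin T → Fin T → ℕ → ℝ) (L : ℕ)
    (hg0 : ∀ τ σ m, 0 ≤ g τ σ m) (hL : ∀ τ σ m, L < m → g τ σ m = 0) (R : ℕ)
    (i : Fin R × Fin T) :
    ∑ j, Wg P Q g R i j ≤ (P : ℝ) ^ (i.1 : ℕ) * Q ^ (R - (i.1 : ℕ)) *
      ∑ m ∈ Finset.range (L + 1), ∑ σ, (g i.2 σ m + g σ i.2 m) := by
  have hi := i.1.2
  rw [Fintype.sum_prod_type]
  have h1 : ∀ k : Fin R, ∑ σ, Wg P Q g R i (k, σ) ≤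
      (P : ℝ) ^ (i.1 : ℕ) * Q ^ (R - (i.1 : ℕ)) *
        ((if (i.1 : ℕ) ≤ k then ∑ σ, g i.2 σ ((k : ℕ) - i.1) else 0) +
         (if (k : ℕ) < i.1 then ∑ σ, g σ i.2 ((i.1 : ℕ) - k) else 0)) := by
    intro k
    by_cases hk : (i.1 : ℕ) ≤ k
    · rw [if_pos hk, if_neg (by omega), add_zero, Finset.mul_sum]
      refine Finset.sum_le_sum (fun σ _ => ?_)
      unfold Wg
      rw [if_pos hk]
    · rw [if_neg hk, if_pos (by omega), zero_add, Finset.mul_sum]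
      refine Finset.sum_le_sum (fun σ _ => ?_)
      unfold Wg
      rw [if_neg hk]
      exact mul_le_mul_of_nonneg_right (pq_mono hPQ (by simp only; omega) hi.le) (hg0 _ _ _)
  refine (Finset.sum_le_sum (fun k _ => h1 k)).trans ?_
  rw [← Finset.mul_sum]
  refine mul_le_mul_of_nonneg_left ?_ (by positivity)
  rw [Finset.sum_add_distrib]
  simp only [Finset.sum_add_distrib]
  refine add_le_add ?_ ?_
  · rw [Fin.sum_univ_eq_sum_range
      (fun k => if (i.1 : ℕ) ≤ k then ∑ σ, g i.2 σ (k - i.1) else 0) R]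
    rw [← Finset.sum_filter]
    have : ∑ k ∈ (Finset.range R).filter (fun k => (i.1 : ℕ) ≤ k), ∑ σ, g i.2 σ (k - i.1) =
        ∑ m ∈ Finset.range (R - i.1), ∑ σ, g i.2 σ m := by
      refine Finset.sum_bij' (fun k _ => k - i.1) (fun m _ => m + i.1) ?_ ?_ ?_ ?_ ?_
      · intro k hk; simp only [Finset.mem_filter, Finset.mem_range] at hk ⊢; omega
      · intro m hm; simp only [Finset.mem_filter, Finset.mem_range] at hm ⊢; omega
      · intro k hk; simp only [Finset.mem_filter, Finset.mem_range] at hk; omega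
      · intro m hm; omega
      · intro k hk; rfl
    rw [this]
    have h3 : ∑ m ∈ Finset.range (R - i.1), ∑ σ, g i.2 σ m ≤
        ∑ m ∈ Finset.range (R - i.1) ∪ Finset.range (L + 1), ∑ σ, g i.2 σ m :=
      Finset.sum_le_sum_of_subset_of_nonneg Finset.subset_union_left
        (fun _ _ _ => Finset.sum_nonneg (fun _ _ => hg0 _ _ _))
    refine h3.trans (le_of_eq ?_)
    refine (Finset.sum_subset Finset.subset_union_right (fun m _ hm => ?_)).symm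
    rw [Finset.mem_range] at hm
    exact Finset.sum_eq_zero (fun σ _ => hL _ _ _ (by omega))
  · rw [Fin.sum_univ_eq_sum_range
      (fun k => if k < (i.1 : ℕ) then ∑ σ, g σ i.2 (i.1 - k) else 0) R]
    rw [← Finset.sum_filter]
    have : ∑ k ∈ (Finset.range R).filter (fun k => k < (i.1 : ℕ)), ∑ σ, g σ i.2 (i.1 - k) =
        ∑ m ∈ Finset.Icc 1 (i.1 : ℕ), ∑ σ, g σ i.2 m := by
      refine Finset.sum_bij' (fun k _ => i.1 - k) (fun m _ => i.1 - m) ?_ ?_ ?_ ?_ ?_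
      · intro k hk; simp only [Finset.mem_filter, Finset.mem_range, Finset.mem_Icc] at hk ⊢; omega
      · intro m hm; simp only [Finset.mem_filter, Finset.mem_range, Finset.mem_Icc] at hm ⊢; omega
      · intro k hk; simp only [Finset.mem_filter, Finset.mem_range] at hk; omega
      · intro m hm; simp only [Finset.mem_Icc] at hm; omega
      · intro k hk; rfl
    rw [this]
    have h3 : ∑ m ∈ Finset.Icc 1 (i.1 : ℕ), ∑ σ, g σ i.2 m ≤
        ∑ m ∈ Finset.Icc 1 (i.1 : ℕ) ∪ Finset.range (L + 1), ∑ σ, g σ i.2 m :=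
      Finset.sum_le_sum_of_subset_of_nonneg Finset.subset_union_left
        (fun _ _ _ => Finset.sum_nonneg (fun _ _ => hg0 _ _ _))
    refine h3.trans (le_of_eq ?_)
    refine (Finset.sum_subset Finset.subset_union_right (fun m _ hm => ?_)).symm
    rw [Finset.mem_range] at hm
    exact Finset.sum_eq_zero (fun σ _ => hL _ _ _ (by omega))

/-- The error form. -/
theorem form_le {P Q : ℕ} (hPQ : Q ≤ P) (g : Fin T → Fin T → ℕ → ℝ) (L : ℕ)
    (hg : ∀ τ σ, g τ σ 0 = g σ τ 0) (hL : ∀ τ σ m, L < m → g τ σ m = 0)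
    (s : Fin T → ℕ) (η : ℝ)
    (hη : ∀ τ, ∑ m ∈ Finset.range (L + 1), ∑ σ, (|g τ σ m| + |g σ τ m|) ≤ η * s τ)
    (R : ℕ) (v : Fin R × Fin T → ℝ) :
    |∑ i, ∑ j, Wg P Q g R i j * v i * v j| ≤
      η * ∑ i : Fin R × Fin T, (s i.2 * P ^ (i.1 : ℕ) * Q ^ (R - (i.1 : ℕ)) : ℝ) * v i ^ 2 := by
  set g' : Fin T → Fin T → ℕ → ℝ := fun τ σ m => |g τ σ m| with hg'
  have hsym : ∀ i j, Wg P Q g' R i j = Wg P Q g' R j i :=
    fun i j => Wg_symm P Q g' (fun τ σ => by simp only [hg', hg τ σ]) R i j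
  have h1 : |∑ i, ∑ j, Wg P Q g R i j * v i * v j| ≤
      ∑ i, ∑ j, Wg P Q g' R i j * ((v i ^ 2 + v j ^ 2) / 2) := by
    refine (Finset.abs_sum_le_sum_abs _ _).trans (Finset.sum_le_sum (fun i _ => ?_))
    refine (Finset.abs_sum_le_sum_abs _ _).trans (Finset.sum_le_sum (fun j _ => ?_))
    rw [abs_mul, abs_mul, Wg_abs, mul_assoc]
    refine mul_le_mul_of_nonneg_left ?_ (by rw [← Wg_abs]; exact abs_nonneg _)
    have := sq_nonneg (|v i| - |v j|)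
    rw [← sq_abs (v i), ← sq_abs (v j)]
    nlinarith
  have h2 : ∑ i, ∑ j, Wg P Q g' R i j * ((v i ^ 2 + v j ^ 2) / 2) =
      ∑ i, (∑ j, Wg P Q g' R i j) * v i ^ 2 := by
    have e1 : ∑ i, ∑ j, Wg P Q g' R i j * ((v i ^ 2 + v j ^ 2) / 2) =
        (∑ i, ∑ j, Wg P Q g' R i j * v i ^ 2) / 2 + (∑ i, ∑ j, Wg P Q g' R i j * v j ^ 2) / 2 := by
      simp only [Finset.sum_div, ← Finset.sum_add_distrib]
      refine Finset.sum_congr rfl (fun i _ => Finset.sum_congr rfl (fun j _ => ?_))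
      ring
    have e2 : ∑ i, ∑ j, Wg P Q g' R i j * v j ^ 2 = ∑ i, ∑ j, Wg P Q g' R i j * v i ^ 2 := by
      rw [Finset.sum_comm]
      refine Finset.sum_congr rfl (fun i _ => Finset.sum_congr rfl (fun j _ => ?_))
      rw [hsym]
    rw [e1, e2, add_halves]
    refine Finset.sum_congr rfl (fun i _ => ?_)
    rw [Finset.sum_mul]
  refine h1.trans (h2.le.trans ?_)
  rw [Finset.mul_sum]
  refine Finset.sum_le_sum (fun i _ => ?_)
  rw [← mul_assoc]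
  refine mul_le_mul_of_nonneg_right ?_ (sq_nonneg _)
  refine (row_sum_le hPQ g' L (fun _ _ _ => abs_nonneg _)
    (fun τ σ m hm => by simp only [hg', hL τ σ m hm, abs_zero]) R i).trans ?_
  refine (mul_le_mul_of_nonneg_left (hη i.2) (by positivity)).trans (le_of_eq ?_)
  ring

/-- The kernel of a sum of squares. -/
noncomputable def Gk (P Q : ℕ) {U : ℕ} (b : Fin U → Fin T → ℕ → ℝ) (L : ℕ) (τ σ : Fin T) (m : ℕ) :
    ℝ := ∑ k ∈ Finset.range (L + 1), ∑ ρ, ((Q : ℝ) / P) ^ k * (b ρ τ k * b ρ σ (k + m))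

theorem Gk_symm (P Q : ℕ) {U : ℕ} (b : Fin U → Fin T → ℕ → ℝ) (L : ℕ) (τ σ : Fin T) :
    Gk P Q b L τ σ 0 = Gk P Q b L σ τ 0 := by
  unfold Gk
  refine Finset.sum_congr rfl (fun k _ => Finset.sum_congr rfl (fun ρ _ => ?_))
  simp only [add_zero]
  ring

theorem Gk_zero (P Q : ℕ) {U : ℕ} (b : Fin U → Fin T → ℕ → ℝ) (L : ℕ)
    (hb : ∀ ρ τ k, L < k → b ρ τ k = 0) (τ σ : Fin T) (m : ℕ) (hm : L < m) :
    Gk P Q b L τ σ m = 0 := by
  unfold Gk
  refine Finset.sum_eq_zero (fun k _ => Finset.sum_eq_zero (fun ρ _ => ?_))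
  rw [hb ρ σ (k + m) (by omega), mul_zero, mul_zero]

/-- Extension of the factor to the integers. -/
noncomputable def bz {U : ℕ} (b : Fin U → Fin T → ℕ → ℝ) (ρ : Fin U) (τ : Fin T) (d : ℤ) : ℝ :=
  if d < 0 then 0 else b ρ τ d.toNat

theorem Wg_Gk {P Q : ℕ} (hP : 0 < P) (hQ : 0 < Q) {U : ℕ} (b : Fin U → Fin T → ℕ → ℝ) (L : ℕ)
    (hb : ∀ ρ τ k, L < k → b ρ τ k = 0) (R : ℕ) (i j : Fin R × Fin T) :
    Wg P Q (Gk P Q b L) R i j = ∑ p ∈ Finset.Icc (-(L : ℤ)) R, ∑ ρ,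
      (Q : ℝ) ^ R * ((P : ℝ) / Q) ^ p * (bz b ρ i.2 ((i.1 : ℤ) - p) * bz b ρ j.2 ((j.1 : ℤ) - p)) := by
  have hP' : (P : ℝ) ≠ 0 := by exact_mod_cast hP.ne'
  have hQ' : (Q : ℝ) ≠ 0 := by exact_mod_cast hQ.ne'
  have key : ∀ i j : Fin R × Fin T, (i.1 : ℕ) ≤ j.1 →
      (P : ℝ) ^ (i.1 : ℕ) * Q ^ (R - (i.1 : ℕ)) * Gk P Q b L i.2 j.2 ((j.1 : ℕ) - i.1) =
      ∑ p ∈ Finset.Icc (-(L : ℤ)) R, ∑ ρ,
      (Q : ℝ) ^ R * ((P : ℝ) / Q) ^ p *
        (bz b ρ i.2 ((i.1 : ℤ) - p) * bz b ρ j.2 ((j.1 : ℤ) - p)) := by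
    intro i j hij
    have hi := i.1.2
    unfold Gk
    rw [Finset.mul_sum]
    have hsub : ∑ p ∈ (Finset.range (L + 1)).image (fun k : ℕ => (i.1 : ℤ) - k), ∑ ρ,
        (Q : ℝ) ^ R * ((P : ℝ) / Q) ^ p *
        (bz b ρ i.2 ((i.1 : ℤ) - p) * bz b ρ j.2 ((j.1 : ℤ) - p)) =
        ∑ p ∈ Finset.Icc (-(L : ℤ)) R, ∑ ρ, (Q : ℝ) ^ R * ((P : ℝ) / Q) ^ p *
        (bz b ρ i.2 ((i.1 : ℤ) - p) * bz b ρ j.2 ((j.1 : ℤ) - p)) := by
      refine Finset.sum_subset ?_ (fun p _ hp => ?_)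
      · intro p hp
        simp only [Finset.mem_image, Finset.mem_range] at hp
        obtain ⟨k, hk, rfl⟩ := hp
        rw [Finset.mem_Icc]
        omega
      · refine Finset.sum_eq_zero (fun ρ _ => ?_)
        have : bz b ρ i.2 ((i.1 : ℤ) - p) = 0 := by
          unfold bz
          split_ifs with h
          · rfl
          · apply hb
            by_contra h'
            apply hp
            simp only [Finset.mem_image, Finset.mem_range]
            exact ⟨((i.1 : ℤ) - p).toNat, by omega, by omega⟩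
        rw [this, zero_mul, mul_zero]
    rw [← hsub, Finset.sum_image (by intro a _ c _ hac; simp only at hac; omega)]
    refine Finset.sum_congr rfl (fun k hk => ?_)
    rw [Finset.mul_sum]
    refine Finset.sum_congr rfl (fun ρ _ => ?_)
    have e1 : bz b ρ i.2 ((i.1 : ℤ) - ((i.1 : ℤ) - k)) = b ρ i.2 k := by
      unfold bz
      rw [if_neg (by omega)]
      congr 1
      omega
    have e2 : bz b ρ j.2 ((j.1 : ℤ) - ((i.1 : ℤ) - k)) = b ρ j.2 (k + ((j.1 : ℕ) - i.1)) := by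
      unfold bz
      rw [if_neg (by omega)]
      congr 1
      omega
    have e3 : (Q : ℝ) ^ R * ((P : ℝ) / Q) ^ ((i.1 : ℤ) - k) =
        (P : ℝ) ^ (i.1 : ℕ) * Q ^ (R - (i.1 : ℕ)) * ((Q : ℝ) / P) ^ k := by
      rw [zpow_sub₀ (by positivity), zpow_natCast, zpow_natCast, div_pow, div_pow, div_pow]
      obtain ⟨f, hf⟩ : ∃ f, R = (i.1 : ℕ) + f := ⟨R - i.1, by omega⟩
      rw [show R - (i.1 : ℕ) = f by omega]
      have : (Q : ℝ) ^ R = Q ^ (i.1 : ℕ) * Q ^ f := by rw [← pow_add, ← hf]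
      rw [this]
      field_simp
    rw [e1, e2, e3]
    ring
  unfold Wg
  by_cases h : (i.1 : ℕ) ≤ j.1
  · rw [if_pos h]
    exact key i j h
  · rw [if_neg h, key j i (by omega)]
    refine Finset.sum_congr rfl (fun p _ => Finset.sum_congr rfl (fun ρ _ => ?_))
    ring

theorem form_Gk_nonneg {P Q : ℕ} (hP : 0 < P) (hQ : 0 < Q) {U : ℕ} (b : Fin U → Fin T → ℕ → ℝ)
    (L : ℕ) (hb : ∀ ρ τ k, L < k → b ρ τ k = 0) (R : ℕ) (v : Fin R × Fin T → ℝ) :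
    0 ≤ ∑ i, ∑ j, Wg P Q (Gk P Q b L) R i j * v i * v j := by
  have h1 : ∑ i, ∑ j, Wg P Q (Gk P Q b L) R i j * v i * v j =
      ∑ p ∈ Finset.Icc (-(L : ℤ)) R, ∑ ρ, (Q : ℝ) ^ R * ((P : ℝ) / Q) ^ p *
        (∑ i, bz b ρ i.2 ((i.1 : ℤ) - p) * v i) ^ 2 := by
    simp only [Wg_Gk hP hQ b L hb, Finset.sum_mul]
    have e1 : ∀ i : Fin R × Fin T, ∑ j : Fin R × Fin T, ∑ p ∈ Finset.Icc (-(L : ℤ)) R, ∑ ρ,
        (Q : ℝ) ^ R * ((P : ℝ) / Q) ^ p *
          (bz b ρ i.2 ((i.1 : ℤ) - p) * bz b ρ j.2 ((j.1 : ℤ) - p)) * v i * v j =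
        ∑ p ∈ Finset.Icc (-(L : ℤ)) R, ∑ ρ, (Q : ℝ) ^ R * ((P : ℝ) / Q) ^ p *
          ((bz b ρ i.2 ((i.1 : ℤ) - p) * v i) *
            ∑ j : Fin R × Fin T, bz b ρ j.2 ((j.1 : ℤ) - p) * v j) := by
      intro i
      rw [Finset.sum_comm]
      refine Finset.sum_congr rfl (fun p _ => ?_)
      rw [Finset.sum_comm]
      refine Finset.sum_congr rfl (fun ρ _ => ?_)
      rw [Finset.mul_sum, Finset.mul_sum]
      refine Finset.sum_congr rfl (fun j _ => ?_)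
      ring
    simp only [e1]
    rw [Finset.sum_comm]
    refine Finset.sum_congr rfl (fun p _ => ?_)
    rw [Finset.sum_comm]
    refine Finset.sum_congr rfl (fun ρ _ => ?_)
    rw [← Finset.mul_sum, ← Finset.sum_mul, sq]
  rw [h1]
  have hP' : (0 : ℝ) < P := by exact_mod_cast hP
  have hQ' : (0 : ℝ) < Q := by exact_mod_cast hQ
  refine Finset.sum_nonneg (fun p _ => Finset.sum_nonneg (fun ρ _ => ?_))
  have : 0 < ((P : ℝ) / Q) ^ p := zpow_pos (by positivity) p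
  positivity

end forms

namespace Toep

variable {T : ℕ} (D : Toep T)

/-- The block system has the lower Riesz constant `√c`. -/
def Lower (c : ℝ) : Prop := ∀ (R : ℕ) (v : Fin R × Fin T → ℝ),
  c * ∑ i, D.sz R i * v i ^ 2 ≤ ∑ i, ∑ j, D.W R i j * v i * v j

/-- The block system has the upper Riesz constant `√c`. -/
def Upper (c : ℝ) : Prop := ∀ (R : ℕ) (v : Fin R × Fin T → ℝ),
  ∑ i, ∑ j, D.W R i j * v i * v j ≤ c * ∑ i, D.sz R i * v i ^ 2

theorem sz_eq (R : ℕ) (v : Fin R × Fin T → ℝ) : ∑ i, (D.sz R i : ℝ) * v i ^ 2 =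
    ∑ i : Fin R × Fin T, (D.s i.2 * D.P ^ (i.1 : ℕ) * D.Q ^ (R - (i.1 : ℕ)) : ℝ) * v i ^ 2 := by
  refine Finset.sum_congr rfl (fun i _ => ?_)
  unfold sz
  push_cast
  ring

theorem exists_upper : ∃ c, 1 ≤ c ∧ D.Upper c := by
  set c : ℝ := 1 + ∑ τ, ∑ m ∈ Finset.range (D.L + 1), ∑ σ, (|D.h τ σ m| + |D.h σ τ m|) with hc
  have hn : ∀ τ : Fin T, 0 ≤ ∑ m ∈ Finset.range (D.L + 1), ∑ σ, (|D.h τ σ m| + |D.h σ τ m|) :=
    fun τ => Finset.sum_nonneg (fun _ _ => Finset.sum_nonneg (fun _ _ => by positivity))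
  have hc1 : 1 ≤ c := by
    have := Finset.sum_nonneg (fun τ (_ : τ ∈ (Finset.univ : Finset (Fin T))) => hn τ)
    rw [hc]
    linarith
  refine ⟨c, hc1, fun R v => ?_⟩
  have h := form_le D.hPQ.le D.h D.L D.hsym D.hL D.s c (fun τ => ?_) R v
  · rw [sz_eq]
    exact (le_abs_self _).trans h
  · have h1 : ∑ m ∈ Finset.range (D.L + 1), ∑ σ, (|D.h τ σ m| + |D.h σ τ m|) ≤ c := by
      have := Finset.single_le_sum (fun τ _ => hn τ) (Finset.mem_univ τ)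
      rw [hc]
      linarith
    have h2 : (1 : ℝ) ≤ D.s τ := by exact_mod_cast D.hs τ
    nlinarith

/-- Lower Riesz bound from a sum of squares with an error term. -/
theorem lower_of_factor {U : ℕ} (b : Fin U → Fin T → ℕ → ℝ)
    (hb : ∀ ρ τ k, D.L < k → b ρ τ k = 0) (c η : ℝ)
    (hη : ∀ τ, ∑ m ∈ Finset.range (D.L + 1), ∑ σ,
      (|D.h τ σ m - Gk D.P D.Q b D.L τ σ m - if m = 0 ∧ τ = σ then c * D.s τ else 0| +
       |D.h σ τ m - Gk D.P D.Q b D.L σ τ m - if m = 0 ∧ σ = τ then c * D.s σ else 0|) ≤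
      η * D.s τ) : D.Lower (c - η) := by
  intro R v
  set E : Fin T → Fin T → ℕ → ℝ := fun τ σ m =>
    D.h τ σ m - Gk D.P D.Q b D.L τ σ m - if m = 0 ∧ τ = σ then c * D.s τ else 0 with hE
  have h1 := form_le D.hPQ.le E D.L (fun τ σ => by
      simp only [hE]
      rw [D.hsym, Gk_symm]
      by_cases h : τ = σ
      · subst h; rfl
      · rw [if_neg (fun h' => h h'.2), if_neg (fun h' => h h'.2.symm)])
    (fun τ σ m hm => by
      simp only [hE]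
      rw [D.hL _ _ _ hm, Gk_zero _ _ _ _ hb _ _ _ hm, if_neg (by omega)]
      ring) D.s η (fun τ => by simp only [hE]; exact hη τ) R v
  have h2 := form_Gk_nonneg D.hP D.hQ b D.L hb R v
  set F : Fin T → Fin T → ℕ → ℝ := fun τ σ m => if m = 0 ∧ τ = σ then c * D.s τ else 0 with hF
  have h3 : ∑ i, ∑ j, Wg D.P D.Q F R i j * v i * v j = c * ∑ i, D.sz R i * v i ^ 2 := by
    rw [Finset.mul_sum]
    refine Finset.sum_congr rfl (fun i _ => ?_)
    rw [Finset.sum_eq_single i]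
    · simp only [Wg, hF, le_refl, if_true, Nat.sub_self, true_and, sz]
      push_cast
      ring
    · intro j _ hj
      have : Wg D.P D.Q F R i j = 0 := by
        simp only [Wg, hF]
        by_cases hij : (i.1 : ℕ) ≤ j.1
        · rw [if_pos hij, if_neg, mul_zero]
          rintro ⟨h, h'⟩
          apply hj
          apply Prod.ext
          · apply Fin.ext; omega
          · exact h'.symm
        · rw [if_neg hij, if_neg (by omega), mul_zero]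
      rw [this, zero_mul, zero_mul]
    · intro h; exact absurd (Finset.mem_univ i) h
  have h4 : ∀ i j, D.W R i j = Wg D.P D.Q (Gk D.P D.Q b D.L) R i j + Wg D.P D.Q F R i j +
      Wg D.P D.Q E R i j := by
    intro i j
    rw [← Wg_add, ← Wg_add]
    change Wg D.P D.Q D.h R i j = _
    congr 1
    funext τ σ m
    simp only [hE, hF]
    ring
  have h5 : ∑ i, ∑ j, D.W R i j * v i * v j =
      ∑ i, ∑ j, Wg D.P D.Q (Gk D.P D.Q b D.L) R i j * v i * v j +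
      ∑ i, ∑ j, Wg D.P D.Q F R i j * v i * v j + ∑ i, ∑ j, Wg D.P D.Q E R i j * v i * v j := by
    simp only [h4, add_mul, Finset.sum_add_distrib]
  rw [h5, h3]
  rw [← sz_eq] at h1
  have := (abs_le.1 h1).1
  rw [sub_mul]
  linarith

end Toep

end Pool.Agent.Lib.MP_3cbb73_an
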