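import Pool.Agent.Lib.MP_3cbb73_an.ToepFinal

set_option autoImplicit false

namespace Pool.Agent.Lib.MP_3cbb73_an

open Real

/-- Solvability of a square system from an approximate inverse. -/
theorem exists_solution {N : ℕ} (M B : Matrix (Fin N) (Fin N) ℝ) (r : Fin N → ℝ) (ε : ℝ)
    (hε : 0 ≤ ε) (h1 : ∀ i, ∑ j, |(1 - B * M) i j| ≤ 1 / 2)
    (h2 : ∀ i, |(B.mulVec r) i| ≤ ε / 2) :
    ∃ y : Fin N → ℝ, M.mulVec y = r ∧ ∀ i, |y i| ≤ ε := by
  have hcontr : ∀ y : Fin N → ℝ, ‖(1 - B * M).mulVec y‖ ≤ 1 / 2 * ‖y‖ := by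
    intro y
    rw [pi_norm_le_iff_of_nonneg (by positivity)]
    intro i
    rw [Real.norm_eq_abs]
    simp only [Matrix.mulVec, dotProduct]
    refine (Finset.abs_sum_le_sum_abs _ _).trans ?_
    have h3 : ∑ j, |(1 - B * M) i j * y j| ≤ ∑ j, |(1 - B * M) i j| * ‖y‖ := by
      refine Finset.sum_le_sum (fun j _ => ?_)
      rw [abs_mul]
      refine mul_le_mul_of_nonneg_left ?_ (abs_nonneg _)
      rw [← Real.norm_eq_abs]
      exact norm_le_pi_norm y j
    refine h3.trans ?_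
    rw [← Finset.sum_mul]
    exact mul_le_mul_of_nonneg_right (h1 i) (norm_nonneg _)
  have hid : ∀ y : Fin N → ℝ, y = (1 - B * M).mulVec y + B.mulVec (M.mulVec y) := by
    intro y
    rw [Matrix.sub_mulVec, Matrix.one_mulVec, Matrix.mulVec_mulVec]
    abel
  have hinj : Function.Injective M.mulVecLin := by
    rw [← LinearMap.ker_eq_bot, LinearMap.ker_eq_bot']
    intro y hy
    rw [Matrix.mulVecLin_apply] at hy
    have h3 := hid y
    rw [hy, Matrix.mulVec_zero, add_zero] at h3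
    have h4 := hcontr y
    rw [← h3] at h4
    have h5 : ‖y‖ = 0 := by
      have := norm_nonneg y
      linarith
    exact norm_eq_zero.1 h5
  obtain ⟨y, hy⟩ := (LinearMap.injective_iff_surjective.1 hinj) r
  rw [Matrix.mulVecLin_apply] at hy
  refine ⟨y, hy, fun i => ?_⟩
  have h3 := hid y
  rw [hy] at h3
  have h4 : ‖y‖ ≤ 1 / 2 * ‖y‖ + ε / 2 := by
    calc ‖y‖ = ‖(1 - B * M).mulVec y + B.mulVec r‖ := by rw [← h3]
      _ ≤ ‖(1 - B * M).mulVec y‖ + ‖B.mulVec r‖ := norm_add_le _ _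
      _ ≤ 1 / 2 * ‖y‖ + ε / 2 := by
        refine add_le_add (hcontr y) ?_
        rw [pi_norm_le_iff_of_nonneg (by positivity)]
        intro i
        rw [Real.norm_eq_abs]
        exact h2 i
  have h5 := norm_le_pi_norm y i
  rw [Real.norm_eq_abs] at h5
  linarith

namespace Toep

variable {T : ℕ}

/-- Perturbation of finitely many entries of the kernel, at positive lags. -/
noncomputable def pert (D : Toep T) {N : ℕ} (uτ uσ : Fin N → Fin T) (um : Fin N → ℕ)
    (h1 : ∀ i, 1 ≤ um i) (hL : ∀ i, um i ≤ D.L) (y : Fin N → ℝ) : Toep T where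
  P := D.P
  Q := D.Q
  hQ := D.hQ
  hPQ := D.hPQ
  s := D.s
  hs := D.hs
  h := fun τ σ m => D.h τ σ m + ∑ i, if uτ i = τ ∧ uσ i = σ ∧ um i = m then y i else 0
  L := D.L
  hL := fun τ σ m hm => by
    rw [D.hL τ σ m hm, zero_add]
    exact Finset.sum_eq_zero (fun i _ => if_neg (fun h => by have := hL i; omega))
  hsym := fun τ σ => by
    have e : ∀ τ σ : Fin T, ∑ i, (if uτ i = τ ∧ uσ i = σ ∧ um i = 0 then y i else 0) = 0 :=
      fun τ σ => Finset.sum_eq_zero (fun i _ => if_neg (fun h => by have := h1 i; omega))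
    rw [e, e, add_zero, add_zero, D.hsym]
  hdiag := fun τ => by
    have e : ∑ i, (if uτ i = τ ∧ uσ i = τ ∧ um i = 0 then y i else 0) = 0 :=
      Finset.sum_eq_zero (fun i _ => if_neg (fun h => by have := h1 i; omega))
    rw [e, add_zero, D.hdiag]

/-- Influence of one entry of the kernel on the residuals. -/
noncomputable def infl (D : Toep T) (τ₀ σ₀ : Fin T) (m₀ : ℕ) (C : ℤ × Fin T → ℝ)
    (p : ℤ × Fin T) : ℝ :=
  (if p.2 = τ₀ then C (p.1 + m₀, σ₀) else 0) / D.s p.2 +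
    (if p.2 = σ₀ then ((D.Q : ℝ) / D.P) ^ m₀ * C (p.1 - m₀, τ₀) else 0) / D.s p.2

theorem ker_pert (D : Toep T) {N : ℕ} (uτ uσ : Fin N → Fin T) (um : Fin N → ℕ)
    (h1 : ∀ i, 1 ≤ um i) (hL : ∀ i, um i ≤ D.L) (y : Fin N → ℝ) (τ σ : Fin T) (d : ℤ) :
    (D.pert uτ uσ um h1 hL y).ker τ σ d = D.ker τ σ d + ∑ i, y i *
      ((if d = -(um i : ℤ) ∧ uτ i = τ ∧ uσ i = σ then 1 else 0) / D.s τ +
       (if d = um i ∧ uτ i = σ ∧ uσ i = τ then ((D.Q : ℝ) / D.P) ^ um i else 0) / D.s τ) := by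
  unfold ker pert
  simp only
  by_cases hd : d ≤ 0
  · rw [if_pos hd, if_pos hd, add_div, Finset.sum_div]
    congr 1
    refine Finset.sum_congr rfl (fun i _ => ?_)
    have h3 := h1 i
    rw [if_neg (show ¬ (d = (um i : ℤ) ∧ uτ i = σ ∧ uσ i = τ) from fun h => by omega), zero_div,
      add_zero]
    by_cases h4 : uτ i = τ ∧ uσ i = σ ∧ um i = (-d).toNat
    · rw [if_pos h4, if_pos ⟨by omega, h4.1, h4.2.1⟩]
      ring
    · rw [if_neg h4, if_neg (fun h => h4 ⟨h.2.1, h.2.2, by omega⟩)]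
      ring
  · rw [if_neg hd, if_neg hd, mul_add, add_div, Finset.mul_sum, Finset.sum_div]
    congr 1
    refine Finset.sum_congr rfl (fun i _ => ?_)
    have h3 := h1 i
    rw [if_neg (show ¬ (d = -(um i : ℤ) ∧ uτ i = τ ∧ uσ i = σ) from fun h => by omega), zero_div,
      zero_add]
    by_cases h4 : uτ i = σ ∧ uσ i = τ ∧ um i = d.toNat
    · rw [if_pos h4, if_pos ⟨by omega, h4.1, h4.2.1⟩, h4.2.2]
      ring
    · rw [if_neg h4, if_neg (fun h => h4 ⟨h.2.1, h.2.2, by omega⟩)]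
      ring

theorem Res_pert (D : Toep T) {N : ℕ} (uτ uσ : Fin N → Fin T) (um : Fin N → ℕ)
    (h1 : ∀ i, 1 ≤ um i) (hL : ∀ i, um i ≤ D.L) (y : Fin N → ℝ) (C : ℤ × Fin T → ℝ)
    (p : ℤ × Fin T) :
    (D.pert uτ uσ um h1 hL y).Res C p = D.Res C p +
      ∑ i, y i * D.infl (uτ i) (uσ i) (um i) C p := by
  unfold Res
  simp only [ker_pert]
  simp only [add_mul, Finset.sum_add_distrib]
  have hLL : (D.pert uτ uσ um h1 hL y).L = D.L := rfl
  rw [hLL]
  congr 1
  simp only [Finset.sum_mul]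
  have e1 : ∀ d : ℤ, ∑ σ, ∑ i, y i *
      ((if d = -(um i : ℤ) ∧ uτ i = p.2 ∧ uσ i = σ then (1 : ℝ) else 0) / D.s p.2 +
       (if d = um i ∧ uτ i = σ ∧ uσ i = p.2 then ((D.Q : ℝ) / D.P) ^ um i else 0) / D.s p.2) *
        C (p.1 - d, σ) = ∑ i, y i *
      ((if d = -(um i : ℤ) ∧ uτ i = p.2 then C (p.1 - d, uσ i) else 0) / D.s p.2 +
       (if d = um i ∧ uσ i = p.2 then ((D.Q : ℝ) / D.P) ^ um i * C (p.1 - d, uτ i) else 0) /
        D.s p.2) := by
    intro d
    rw [Finset.sum_comm]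
    refine Finset.sum_congr rfl (fun i _ => ?_)
    have e2 : ∀ σ, y i *
      ((if d = -(um i : ℤ) ∧ uτ i = p.2 ∧ uσ i = σ then (1 : ℝ) else 0) / D.s p.2 +
       (if d = um i ∧ uτ i = σ ∧ uσ i = p.2 then ((D.Q : ℝ) / D.P) ^ um i else 0) / D.s p.2) *
        C (p.1 - d, σ) =
        (if σ = uσ i then y i * (if d = -(um i : ℤ) ∧ uτ i = p.2 then C (p.1 - d, uσ i) else 0) /
          D.s p.2 else 0) +
        (if σ = uτ i then y i * (if d = um i ∧ uσ i = p.2 then
          ((D.Q : ℝ) / D.P) ^ um i * C (p.1 - d, uτ i) else 0) / D.s p.2 else 0) := by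
      intro σ
      have f1 : (if d = -(um i : ℤ) ∧ uτ i = p.2 ∧ uσ i = σ then (1 : ℝ) else 0) *
          C (p.1 - d, σ) =
          if σ = uσ i then (if d = -(um i : ℤ) ∧ uτ i = p.2 then C (p.1 - d, uσ i) else 0)
            else 0 := by
        by_cases hσ : σ = uσ i
        · subst hσ
          rw [if_pos rfl]
          by_cases h4 : d = -(um i : ℤ) ∧ uτ i = p.2
          · rw [if_pos h4, if_pos ⟨h4.1, h4.2, rfl⟩, one_mul]
          · rw [if_neg h4, if_neg (fun h => h4 ⟨h.1, h.2.1⟩), zero_mul]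
        · rw [if_neg hσ, if_neg (fun h => hσ h.2.2.symm), zero_mul]
      have f2 : (if d = um i ∧ uτ i = σ ∧ uσ i = p.2 then ((D.Q : ℝ) / D.P) ^ um i else 0) *
          C (p.1 - d, σ) =
          if σ = uτ i then (if d = um i ∧ uσ i = p.2 then
            ((D.Q : ℝ) / D.P) ^ um i * C (p.1 - d, uτ i) else 0) else 0 := by
        by_cases hσ : σ = uτ i
        · subst hσ
          rw [if_pos rfl]
          by_cases h4 : d = um i ∧ uσ i = p.2
          · rw [if_pos h4, if_pos ⟨h4.1, rfl, h4.2⟩]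
          · rw [if_neg h4, if_neg (fun h => h4 ⟨h.1, h.2.2⟩), zero_mul]
        · rw [if_neg hσ, if_neg (fun h => hσ h.2.1.symm), zero_mul]
      calc _ = y i * ((if d = -(um i : ℤ) ∧ uτ i = p.2 ∧ uσ i = σ then (1 : ℝ) else 0) *
          C (p.1 - d, σ)) / D.s p.2 + y i * ((if d = um i ∧ uτ i = σ ∧ uσ i = p.2 then
          ((D.Q : ℝ) / D.P) ^ um i else 0) * C (p.1 - d, σ)) / D.s p.2 := by ring
        _ = _ := by
          rw [f1, f2]
          congr 1
          · split_ifs <;> simp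
          · split_ifs <;> simp
    simp only [e2, Finset.sum_add_distrib, Finset.sum_ite_eq', Finset.mem_univ, if_true]
    ring
  simp only [e1]
  rw [Finset.sum_comm]
  refine Finset.sum_congr rfl (fun i _ => ?_)
  rw [← Finset.mul_sum]
  congr 1
  unfold infl
  rw [Finset.sum_add_distrib, ← Finset.sum_div, ← Finset.sum_div]
  have hLi := hL i
  congr 2
  · by_cases h4 : p.2 = uτ i
    · rw [if_pos h4, Finset.sum_eq_single (-(um i : ℤ))]
      · rw [if_pos ⟨rfl, h4.symm⟩, sub_neg_eq_add]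
      · intro d _ hd
        rw [if_neg (fun h => hd h.1)]
      · intro hd
        exfalso
        apply hd
        rw [Finset.mem_Icc]
        omega
    · rw [if_neg h4]
      exact Finset.sum_eq_zero (fun d _ => if_neg (fun h => h4 h.2.symm))
  · by_cases h4 : p.2 = uσ i
    · rw [if_pos h4, Finset.sum_eq_single (um i : ℤ)]
      · rw [if_pos ⟨rfl, h4.symm⟩]
      · intro d _ hd
        rw [if_neg (fun h => hd h.1)]
      · intro hd
        exfalso
        apply hd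
        rw [Finset.mem_Icc]
        omega
    · rw [if_neg h4]
      exact Finset.sum_eq_zero (fun d _ => if_neg (fun h => h4 h.2.symm))

end Toep

end Pool.Agent.Lib.MP_3cbb73_an
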