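import Pool.Agent.Lib.MP_3cbb73_an.TransferRate

set_option autoImplicit false

namespace Pool.Agent.Lib.MP_3cbb73_an

open Real

/-- Data of a block Toeplitz model: levels `k`, types `τ`; the group `(k, τ)` has
`s τ * P ^ k * Q ^ (R - k)` elements. -/
structure Toep (T : ℕ) where
  P : ℕ
  Q : ℕ
  hQ : 0 < Q
  hPQ : Q < P
  s : Fin T → ℕ
  hs : ∀ τ, 0 < s τ
  h : Fin T → Fin T → ℕ → ℝ
  L : ℕ
  hL : ∀ τ σ m, L < m → h τ σ m = 0
  hsym : ∀ τ σ, h τ σ 0 = h σ τ 0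
  hdiag : ∀ τ, h τ τ 0 = s τ

namespace Toep

variable {T : ℕ} (D : Toep T)

theorem hP : 0 < D.P := lt_trans D.hQ D.hPQ

/-- Influence of the coefficient of the group `(l, σ)` on the residual of `(l + d, τ)`. -/
noncomputable def ker (τ σ : Fin T) (d : ℤ) : ℝ :=
  if d ≤ 0 then D.h τ σ (-d).toNat / D.s τ
  else ((D.Q : ℝ) / D.P) ^ d.toNat * D.h σ τ d.toNat / D.s τ

theorem ker_eq_zero (τ σ : Fin T) (d : ℤ) (hd : d < -D.L ∨ (D.L : ℤ) < d) :
    D.ker τ σ d = 0 := by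
  unfold ker
  rcases hd with hd | hd
  · rw [if_pos (by omega), D.hL _ _ _ (by omega), zero_div]
  · rw [if_neg (by omega), D.hL _ _ _ (by omega), mul_zero, zero_div]

/-- Residuals on the whole line of levels. -/
noncomputable def Res (C : ℤ × Fin T → ℝ) (p : ℤ × Fin T) : ℝ :=
  ∑ d ∈ Finset.Icc (-(D.L : ℤ)) D.L, ∑ σ, D.ker p.2 σ d * C (p.1 - d, σ)

/-- Shift of a state by `t` levels. -/
def sh (t : ℤ) (C : ℤ × Fin T → ℝ) : ℤ × Fin T → ℝ := fun p => C (p.1 - t, p.2)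

theorem Res_sh (t : ℤ) (C : ℤ × Fin T → ℝ) (p : ℤ × Fin T) :
    D.Res (sh t C) p = D.Res C (p.1 - t, p.2) := by
  unfold Res sh
  refine Finset.sum_congr rfl (fun d _ => Finset.sum_congr rfl (fun σ _ => ?_))
  simp only
  rw [show p.1 - d - t = p.1 - t - d by ring]

theorem Res_smul (a : ℝ) (C : ℤ × Fin T → ℝ) (p : ℤ × Fin T) :
    D.Res (a • C) p = a * D.Res C p := by
  unfold Res
  simp only [Pi.smul_apply, smul_eq_mul, Finset.mul_sum]
  refine Finset.sum_congr rfl (fun d _ => Finset.sum_congr rfl (fun σ _ => ?_))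
  ring

theorem Res_sub (C C' : ℤ × Fin T → ℝ) (p : ℤ × Fin T) :
    D.Res (C - C') p = D.Res C p - D.Res C' p := by
  unfold Res
  simp only [Pi.sub_apply, mul_sub, Finset.sum_sub_distrib]

/-- Legal runs on the whole line. -/
inductive ZRun : (ℤ × Fin T → ℝ) → (ℤ × Fin T → ℝ) → List (ℤ × Fin T) → Prop
  | nil (C : ℤ × Fin T → ℝ) : ZRun C C []
  | cons {C C' : ℤ × Fin T → ℝ} {ps : List (ℤ × Fin T)} (p : ℤ × Fin T)
      (h1 : ∀ l, |D.Res C l| ≤ |D.Res C p|)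
      (h2 : ∀ l, |D.Res (C - Pi.single p (D.Res C p)) l| ≤ |D.Res C p|)
      (h : ZRun (C - Pi.single p (D.Res C p)) C' ps) : ZRun C C' (p :: ps)

variable {D}

theorem ZRun.append {C C' C'' : ℤ × Fin T → ℝ} {ps qs : List (ℤ × Fin T)}
    (h : D.ZRun C C' ps) (h' : D.ZRun C' C'' qs) : D.ZRun C C'' (ps ++ qs) := by
  induction h with
  | nil C => exact h'
  | cons p h1 h2 _ ih => exact ZRun.cons p h1 h2 (ih h')

theorem sh_sub (t : ℤ) (C C' : ℤ × Fin T → ℝ) : sh t (C - C') = sh t C - sh t C' := rfl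

theorem sh_single (t : ℤ) (p : ℤ × Fin T) (a : ℝ) :
    sh t (Pi.single p a) = Pi.single (p.1 + t, p.2) a := by
  funext q
  obtain ⟨q1, q2⟩ := q
  obtain ⟨p1, p2⟩ := p
  simp only [sh, Pi.single_apply, Prod.mk.injEq]
  congr 1
  apply propext
  constructor
  · rintro ⟨h1, h2⟩; exact ⟨by omega, h2⟩
  · rintro ⟨h1, h2⟩; exact ⟨by omega, h2⟩

theorem ZRun.shift (t : ℤ) {C C' : ℤ × Fin T → ℝ} {ps : List (ℤ × Fin T)}
    (h : D.ZRun C C' ps) : D.ZRun (sh t C) (sh t C') (ps.map (fun p => (p.1 + t, p.2))) := by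
  induction h with
  | nil C => exact ZRun.nil _
  | @cons C C' ps p h1 h2 _ ih =>
    rw [List.map_cons]
    have e : D.Res (sh t C) (p.1 + t, p.2) = D.Res C p := by
      rw [Res_sh]; simp
    have e2 : sh t C - Pi.single (p.1 + t, p.2) (D.Res (sh t C) (p.1 + t, p.2)) =
        sh t (C - Pi.single p (D.Res C p)) := by
      rw [sh_sub, sh_single, e]
    refine ZRun.cons _ (fun l => ?_) (fun l => ?_) ?_
    · rw [e, Res_sh]; exact h1 _
    · rw [e2, e, Res_sh]; exact h2 _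
    · rw [e2]; exact ih

theorem ZRun.smul (a : ℝ) {C C' : ℤ × Fin T → ℝ} {ps : List (ℤ × Fin T)}
    (h : D.ZRun C C' ps) : D.ZRun (a • C) (a • C') ps := by
  induction h with
  | nil C => exact ZRun.nil _
  | @cons C C' ps p h1 h2 _ ih =>
    have e2 : a • C - Pi.single p (D.Res (a • C) p) = a • (C - Pi.single p (D.Res C p)) := by
      rw [Res_smul, smul_sub]
      congr 1
      funext q
      simp only [Pi.single_apply, Pi.smul_apply, smul_eq_mul, mul_ite, mul_zero]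
    refine ZRun.cons _ (fun l => ?_) (fun l => ?_) ?_
    · rw [Res_smul, Res_smul, abs_mul, abs_mul]
      exact mul_le_mul_of_nonneg_left (h1 l) (abs_nonneg _)
    · rw [e2, Res_smul, Res_smul, abs_mul, abs_mul]
      exact mul_le_mul_of_nonneg_left (h2 l) (abs_nonneg _)
    · rw [e2]; exact ih

/-- The list of sweeps of `K` cycles, the first one with offset `M`. -/
def cyc (ps : List (ℤ × Fin T)) (M : ℤ) : ℕ → List (ℤ × Fin T)
  | 0 => []
  | K + 1 => cyc ps M K ++ ps.map (fun p => (p.1 + (M + K), p.2))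

theorem sh_zero (C : ℤ × Fin T → ℝ) : sh 0 C = C := by
  funext p; simp [sh]

theorem sh_sh (t u : ℤ) (C : ℤ × Fin T → ℝ) : sh t (sh u C) = sh (t + u) C := by
  funext p; simp only [sh]; rw [show p.1 - t - u = p.1 - (t + u) by ring]

theorem sh_smul (t : ℤ) (a : ℝ) (C : ℤ × Fin T → ℝ) : sh t (a • C) = a • sh t C := rfl

theorem ZRun.cycles {C : ℤ × Fin T → ℝ} {x : ℝ} {ps : List (ℤ × Fin T)}
    (h : D.ZRun C (x • sh 1 C) ps) (M : ℤ) (K : ℕ) :
    D.ZRun (sh M C) (x ^ K • sh (M + K) C) (cyc ps M K) := by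
  induction K with
  | zero => simp only [cyc, pow_zero, one_smul, Nat.cast_zero, add_zero]; exact ZRun.nil _
  | succ K ih =>
    simp only [cyc]
    refine ih.append ?_
    have h1 := (h.shift (M + K)).smul (x ^ K)
    have e : x ^ K • sh (M + K) (x • sh 1 C) = x ^ (K + 1) • sh (M + ((K + 1 : ℕ) : ℤ)) C := by
      rw [sh_smul, sh_sh, smul_smul, pow_succ]
      congr 2
      push_cast
      ring
    rwa [e] at h1

/-! ### The finite block system -/

variable (D)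

/-- Sizes of the groups. -/
def sz (R : ℕ) (i : Fin R × Fin T) : ℕ := D.s i.2 * D.P ^ (i.1 : ℕ) * D.Q ^ (R - (i.1 : ℕ))

theorem sz_pos (R : ℕ) (i : Fin R × Fin T) : 0 < D.sz R i := by
  have := D.hs i.2
  have := D.hP
  have := D.hQ
  unfold sz
  positivity

/-- Sums of inner products. -/
noncomputable def W (R : ℕ) (i j : Fin R × Fin T) : ℝ :=
  if (i.1 : ℕ) ≤ j.1 then
    (D.P : ℝ) ^ (i.1 : ℕ) * D.Q ^ (R - (i.1 : ℕ)) * D.h i.2 j.2 ((j.1 : ℕ) - i.1)
  else (D.P : ℝ) ^ (j.1 : ℕ) * D.Q ^ (R - (j.1 : ℕ)) * D.h j.2 i.2 ((i.1 : ℕ) - j.1)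

theorem W_symm (R : ℕ) (i j : Fin R × Fin T) : D.W R i j = D.W R j i := by
  unfold W
  rcases lt_trichotomy (i.1 : ℕ) j.1 with h | h | h
  · rw [if_pos h.le, if_neg (by omega)]
  · rw [if_pos h.le, if_pos h.ge, h, Nat.sub_self, D.hsym]
  · rw [if_neg (by omega), if_pos h.le]

theorem W_diag (R : ℕ) (i : Fin R × Fin T) : D.W R i i = D.sz R i := by
  unfold W sz
  rw [if_pos le_rfl, Nat.sub_self, D.hdiag]
  push_cast
  ring

theorem W_div (R : ℕ) (i j : Fin R × Fin T) :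
    D.W R i j / D.sz R i = D.ker i.2 j.2 ((i.1 : ℤ) - j.1) := by
  have hP : (D.P : ℝ) ≠ 0 := by exact_mod_cast D.hP.ne'
  have hQ : (D.Q : ℝ) ≠ 0 := by exact_mod_cast D.hQ.ne'
  have hs : (D.s i.2 : ℝ) ≠ 0 := by exact_mod_cast (D.hs i.2).ne'
  unfold W ker sz
  push_cast
  by_cases h : (i.1 : ℕ) ≤ j.1
  · rw [if_pos h, if_pos (by omega), show (-((i.1 : ℕ) - (j.1 : ℕ) : ℤ)).toNat =
      (j.1 : ℕ) - i.1 by omega]
    field_simp
  · rw [if_neg h, if_neg (by omega), show ((i.1 : ℕ) - (j.1 : ℕ) : ℤ).toNat =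
      (i.1 : ℕ) - j.1 by omega]
    have hi := i.1.2
    obtain ⟨e, he⟩ : ∃ e, (i.1 : ℕ) = j.1 + e := ⟨(i.1 : ℕ) - j.1, by omega⟩
    obtain ⟨f, hf⟩ : ∃ f, R = (i.1 : ℕ) + f := ⟨R - i.1, by omega⟩
    rw [show R - (j.1 : ℕ) = e + f by omega, show R - (i.1 : ℕ) = f by omega,
      show (i.1 : ℕ) - j.1 = e by omega, he]
    rw [div_pow, pow_add, pow_add]
    field_simp

/-- Restriction of a state to the levels `0, …, R - 1`. -/
def emb (R : ℕ) (C : ℤ × Fin T → ℝ) (i : Fin R × Fin T) : ℝ := C ((i.1 : ℤ), i.2)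

/-- The state lives on the levels `0, …, R - 1`. -/
def Supp (R : ℕ) (C : ℤ × Fin T → ℝ) : Prop := ∀ p : ℤ × Fin T, p.1 < 0 ∨ (R : ℤ) ≤ p.1 → C p = 0

theorem res_emb {R : ℕ} {C : ℤ × Fin T → ℝ} (hC : Supp R C) (i : Fin R × Fin T) :
    res (D.sz R) (D.W R) (emb R C) i = D.Res C ((i.1 : ℤ), i.2) := by
  have h1 : res (D.sz R) (D.W R) (emb R C) i =
      ∑ k : Fin R, ∑ σ, D.ker i.2 σ ((i.1 : ℤ) - k) * C ((k : ℤ), σ) := by
    unfold res
    rw [Finset.sum_div, Fintype.sum_prod_type]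
    refine Finset.sum_congr rfl (fun k _ => Finset.sum_congr rfl (fun σ _ => ?_))
    rw [mul_div_right_comm, W_div]
    rfl
  have h2 : D.Res C ((i.1 : ℤ), i.2) =
      ∑ l ∈ Finset.Icc ((i.1 : ℤ) - D.L) (i.1 + D.L), ∑ σ, D.ker i.2 σ ((i.1 : ℤ) - l) * C (l, σ) := by
    unfold Res
    refine Finset.sum_bij' (fun d _ => (i.1 : ℤ) - d) (fun l _ => (i.1 : ℤ) - l) ?_ ?_ ?_ ?_ ?_
    · intro d hd; rw [Finset.mem_Icc] at hd ⊢; omega
    · intro d hd; rw [Finset.mem_Icc] at hd ⊢; omega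
    · intro d _; ring
    · intro d _; ring
    · intro d _
      simp only [sub_sub_cancel]
  rw [h1, h2, Fin.sum_univ_eq_sum_range
    (fun k => ∑ σ, D.ker i.2 σ ((i.1 : ℤ) - (k : ℕ)) * C (((k : ℕ) : ℤ), σ)) R]
  set g : ℤ → ℝ := fun l => ∑ σ, D.ker i.2 σ ((i.1 : ℤ) - l) * C (l, σ) with hg
  have h3 : ∑ k ∈ Finset.range R, g ((k : ℕ) : ℤ) = ∑ l ∈ Finset.Ico (0 : ℤ) R, g l := by
    refine Finset.sum_bij' (fun k _ => (k : ℤ)) (fun l _ => l.toNat) ?_ ?_ ?_ ?_ ?_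
    · intro k hk; rw [Finset.mem_range] at hk; rw [Finset.mem_Ico]; omega
    · intro l hl; rw [Finset.mem_Ico] at hl; rw [Finset.mem_range]; omega
    · intro k _; simp
    · intro l hl; rw [Finset.mem_Ico] at hl; omega
    · intro k _; rfl
  change ∑ k ∈ Finset.range R, g ((k : ℕ) : ℤ) = _
  rw [h3]
  have z1 : ∀ l : ℤ, l < 0 ∨ (R : ℤ) ≤ l → g l = 0 := by
    intro l hl
    rw [hg]
    exact Finset.sum_eq_zero (fun σ _ => by rw [hC (l, σ) hl, mul_zero])
  have z2 : ∀ l : ℤ, l < (i.1 : ℤ) - D.L ∨ (i.1 : ℤ) + D.L < l → g l = 0 := by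
    intro l hl
    rw [hg]
    exact Finset.sum_eq_zero (fun σ _ => by
      rw [D.ker_eq_zero _ _ _ (by omega), zero_mul])
  have u1 : ∑ l ∈ Finset.Ico (0 : ℤ) R, g l =
      ∑ l ∈ Finset.Ico (0 : ℤ) R ∪ Finset.Icc ((i.1 : ℤ) - D.L) (i.1 + D.L), g l := by
    refine Finset.sum_subset Finset.subset_union_left (fun l _ hl => z1 l ?_)
    rw [Finset.mem_Ico] at hl; omega
  have u2 : ∑ l ∈ Finset.Icc ((i.1 : ℤ) - D.L) (i.1 + D.L), g l =
      ∑ l ∈ Finset.Ico (0 : ℤ) R ∪ Finset.Icc ((i.1 : ℤ) - D.L) (i.1 + D.L), g l := by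
    refine Finset.sum_subset Finset.subset_union_right (fun l _ hl => z2 l ?_)
    rw [Finset.mem_Icc] at hl; omega
  rw [u1, u2]

/-- Number of steps of a list of sweeps. -/
def cost (R : ℕ) (ps : List (ℤ × Fin T)) : ℕ :=
  (ps.map (fun p => D.s p.2 * D.P ^ p.1.toNat * D.Q ^ (R - p.1.toNat))).sum

theorem supp_sub_single {R : ℕ} {C : ℤ × Fin T → ℝ} (hC : Supp R C) {p : ℤ × Fin T}
    (hp : 0 ≤ p.1 ∧ p.1 < R) (a : ℝ) : Supp R (C - Pi.single p a) := by
  intro q hq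
  have hne : q ≠ p := by rintro rfl; omega
  rw [Pi.sub_apply, hC q hq, Pi.single_eq_of_ne hne, sub_zero]

variable {D}

theorem ZRun.brun {R : ℕ} {C C' : ℤ × Fin T → ℝ} {ps : List (ℤ × Fin T)} (h : D.ZRun C C' ps)
    (hC : Supp R C) (hps : ∀ p ∈ ps, 0 ≤ p.1 ∧ p.1 < R) :
    BRun (D.sz R) (D.W R) (emb R C) (emb R C') (D.cost R ps) := by
  induction h with
  | nil C => exact BRun.refl _
  | @cons C C' ps p h1 h2 _ ih =>
    have hp := hps p List.mem_cons_self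
    have hps' : ∀ q ∈ ps, 0 ≤ q.1 ∧ q.1 < R := fun q hq => hps q (List.mem_cons_of_mem _ hq)
    have hS := supp_sub_single hC hp (D.Res C p)
    have ih' := ih hS hps'
    let i : Fin R × Fin T := (⟨p.1.toNat, by omega⟩, p.2)
    have hi : (((i.1 : ℕ) : ℤ), i.2) = p := by
      apply Prod.ext
      · simp only [i]; omega
      · rfl
    have e1 : res (D.sz R) (D.W R) (emb R C) i = D.Res C p := by rw [res_emb D hC, hi]
    have e2 : emb R C - Pi.single i (D.Res C p) = emb R (C - Pi.single p (D.Res C p)) := by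
      funext j
      simp only [emb, Pi.sub_apply, Pi.single_apply]
      congr 2
      apply propext
      constructor
      · rintro rfl; exact hi
      · intro hj
        have h3 : ((j.1 : ℕ) : ℤ) = p.1 := congrArg Prod.fst hj
        have h4 : j.2 = p.2 := congrArg Prod.snd hj
        apply Prod.ext
        · apply Fin.ext
          simp only [i]
          omega
        · exact h4
    have e3 : D.cost R (p :: ps) = D.sz R i + D.cost R ps := by
      simp only [cost, sz, i, List.map_cons, List.sum_cons]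
    rw [e3]
    refine BRun.step i (fun l => ?_) (fun l => ?_) ?_
    · rw [e1, res_emb D hC]; exact h1 _
    · rw [e1, e2, res_emb D hS]; exact h2 _
    · rw [e1, e2]; exact ih'

end Toep

end Pool.Agent.Lib.MP_3cbb73_an
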