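import Pool.Agent.Lib.MP_3cbb73_an.RBDefs

set_option autoImplicit false

namespace Pool.Agent.Lib.MP_3cbb73_an

open scoped RealInnerProductSpace Matrix
open Real

section general

variable {H : Type*} [NormedAddCommGroup H] [InnerProductSpace ℝ H]

/-- A family version of the definition of `RB`. -/
theorem rb_of_family {ι : Type*} {C₁ C₂ : ℝ} (h1 : 0 < C₁) (h2 : 0 ≤ C₂) (v : ι → H)
    (hn : ∀ i, ‖v i‖ = 1)
    (hd : Dense ((Submodule.span ℝ (Set.range v) : Submodule ℝ H) : Set H))
    (hlo : ∀ (s : Finset ι) (c : ι → ℝ), C₁ ^ 2 * ∑ i ∈ s, c i ^ 2 ≤ ‖∑ i ∈ s, c i • v i‖ ^ 2)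
    (hup : ∀ (s : Finset ι) (c : ι → ℝ), ‖∑ i ∈ s, c i • v i‖ ^ 2 ≤ C₂ ^ 2 * ∑ i ∈ s, c i ^ 2) :
    Set.range v ∈ RB H C₁ C₂ := by
  classical
  have hinj : Function.Injective v := by
    intro a b hab
    by_contra hne
    have h := hlo {a, b} (fun i => if i = a then 1 else -1)
    rw [Finset.sum_pair hne, Finset.sum_pair hne] at h
    have hba : ¬ b = a := fun h => hne h.symm
    simp only [if_true, if_neg hba, hab] at h
    simp only [one_smul, neg_smul, add_neg_cancel, norm_zero] at h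
    nlinarith [sq_pos_of_pos h1]
  refine ⟨⟨?_, hd⟩, ?_⟩
  · rintro _ ⟨i, rfl⟩
    exact hn i
  · intro s c hs
    rw [← Set.image_univ] at hs
    obtain ⟨s', -, rfl⟩ := Finset.subset_set_image_iff.1 hs
    rw [Finset.sum_image (fun i _ j _ h => hinj h), Finset.sum_image (fun i _ j _ h => hinj h)]
    have hS : 0 ≤ ∑ i ∈ s', c (v i) ^ 2 := Finset.sum_nonneg (fun i _ => sq_nonneg _)
    constructor
    · apply le_of_sq_le_sq _ (norm_nonneg _)
      rw [mul_pow, Real.sq_sqrt hS]
      exact hlo s' (fun i => c (v i))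
    · apply le_of_sq_le_sq _ (by positivity)
      rw [mul_pow, Real.sq_sqrt hS]
      exact hup s' (fun i => c (v i))

theorem norm_le_one_of_mem_A1 {D : Set H} (hD : ∀ g ∈ D, ‖g‖ = 1) {f : H} (hf : f ∈ A1 D) :
    ‖f‖ ≤ 1 := by
  have hcl : IsClosed {f : H | ‖f‖ ≤ 1} := isClosed_le continuous_norm continuous_const
  refine closure_minimal ?_ hcl hf
  rintro f ⟨s, c, hs, h1, rfl⟩
  refine (norm_sum_le _ _).trans (le_trans (Finset.sum_le_sum (fun g hg => ?_)) h1)
  rw [norm_smul, hD g (hs hg), mul_one, Real.norm_eq_abs]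

theorem norm_step_le {x φ : H} (hφ : ‖φ‖ = 1) : ‖x - ⟪x, φ⟫ • φ‖ ≤ ‖x‖ := by
  apply le_of_sq_le_sq _ (norm_nonneg _)
  rw [norm_sub_sq_real, real_inner_smul_right, norm_smul, hφ, Real.norm_eq_abs, mul_one, sq_abs]
  nlinarith [sq_nonneg ⟪x, φ⟫]

theorem IsPGA.norm_antitone {D : Set H} (hD : ∀ g ∈ D, ‖g‖ = 1) {f : H} {F : ℕ → H}
    (hF : IsPGA D f F) : Antitone (fun m => ‖F m‖) := by
  apply antitone_nat_of_succ_le
  intro m
  obtain ⟨φ, hφ, -, h⟩ := hF.2 m
  simp only [h]
  exact norm_step_le (hD φ hφ)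

theorem errors_le_one {C₁ C₂ : ℝ} {m : ℕ} {t : ℝ} (ht : t ∈ errors H C₁ C₂ m) : t ≤ 1 := by
  obtain ⟨B, hB, f, hf, F, hF, rfl⟩ := ht
  have h := hF.norm_antitone hB.1.1 (Nat.zero_le m)
  simp only [hF.1] at h
  exact h.trans (norm_le_one_of_mem_A1 hB.1.1 hf)

theorem bddAbove_errors {C₁ C₂ : ℝ} {m : ℕ} : BddAbove (errors H C₁ C₂ m) :=
  ⟨1, fun _ ht => errors_le_one ht⟩

theorem γ_le_one (C₁ C₂ : ℝ) (m : ℕ) : γ H C₁ C₂ m ≤ 1 :=
  Real.sSup_le (fun _ ht => errors_le_one ht) zero_le_one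

theorem γ_nonneg (C₁ C₂ : ℝ) (m : ℕ) : 0 ≤ γ H C₁ C₂ m := by
  apply Real.sSup_nonneg
  rintro t ⟨B, hB, f, hf, F, hF, rfl⟩
  exact norm_nonneg _

/-- `γ` is nonincreasing in `m`. -/
theorem γ_antitone (C₁ C₂ : ℝ) : Antitone (fun m => γ H C₁ C₂ m) := by
  intro m k hmk
  apply Real.sSup_le _ (γ_nonneg C₁ C₂ m)
  rintro t ⟨B, hB, f, hf, F, hF, rfl⟩
  refine (hF.norm_antitone hB.1.1 hmk).trans ?_
  exact le_csSup bddAbove_errors ⟨B, hB, f, hf, F, hF, rfl⟩

end general

section system

/-- Factorisation of a positive definite real matrix. -/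
theorem exists_factor {J : Type*} [Fintype J] [DecidableEq J] {G : Matrix J J ℝ}
    (hsym : ∀ j k, G j k = G k j) {c : ℝ} (hc : 0 < c)
    (hlo : ∀ x : J → ℝ, c * ∑ j, x j ^ 2 ≤ ∑ j, ∑ k, G j k * x j * x k) :
    ∃ B C : Matrix J J ℝ, Bᵀ * B = G ∧ B * C = 1 := by
  classical
  have hH : G.IsHermitian := by
    ext j k
    simp [Matrix.conjTranspose_apply, hsym]
  have hq : ∀ x : J → ℝ, star x ⬝ᵥ (G *ᵥ x) = ∑ j, ∑ k, G j k * x j * x k := by
    intro x
    simp only [dotProduct, Matrix.mulVec, star_trivial, Finset.mul_sum]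
    refine Finset.sum_congr rfl fun j _ => Finset.sum_congr rfl fun k _ => by ring
  have hpd : G.PosDef := by
    refine Matrix.PosDef.of_dotProduct_mulVec_pos hH fun x hx => ?_
    rw [hq]
    refine lt_of_lt_of_le ?_ (hlo x)
    apply mul_pos hc
    obtain ⟨j, hj⟩ := Function.ne_iff.1 hx
    exact Finset.sum_pos' (fun _ _ => sq_nonneg _) ⟨j, Finset.mem_univ _, by
      have : x j ≠ 0 := hj
      positivity⟩
  have hps := hpd.posSemidef
  open scoped MatrixOrder in
  obtain ⟨B, hB⟩ := CStarAlgebra.nonneg_iff_eq_star_mul_self.mp hps.nonneg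
  have hB' : Bᵀ * B = G := by
    rw [hB, Matrix.star_eq_conjTranspose, Matrix.conjTranspose_eq_transpose_of_trivial]
  have hdet : IsUnit G.det := (Matrix.isUnit_iff_isUnit_det G).1 hpd.isUnit
  refine ⟨B, G⁻¹ * Bᵀ, hB', ?_⟩
  rw [mul_eq_one_comm, mul_assoc, hB', Matrix.nonsing_inv_mul G hdet]

variable {H : Type*} [NormedAddCommGroup H] [InnerProductSpace ℝ H] [CompleteSpace H]

/-- An infinite dimensional Hilbert space has an infinite total orthonormal set. -/
theorem exists_infinite_onb (hinf : ¬ FiniteDimensional ℝ H) :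
    ∃ w : Set H, w.Infinite ∧ Orthonormal ℝ (fun i : w => (i : H)) ∧
      Dense ((Submodule.span ℝ w : Submodule ℝ H) : Set H) := by
  obtain ⟨w, b, hb⟩ := exists_hilbertBasis ℝ H
  have hon : Orthonormal ℝ (fun i : w => (i : H)) := by
    have := b.orthonormal
    rwa [hb] at this
  have hdense : Dense ((Submodule.span ℝ w : Submodule ℝ H) : Set H) := by
    have := b.dense_span
    rw [hb, Subtype.range_coe] at this
    exact (Submodule.dense_iff_topologicalClosure_eq_top).2 this
  refine ⟨w, ?_, hon, hdense⟩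
  intro hfin
  apply hinf
  have hfd : FiniteDimensional ℝ (Submodule.span ℝ w) := FiniteDimensional.span_of_finite ℝ hfin
  have hcl : (Submodule.span ℝ w).topologicalClosure = Submodule.span ℝ w :=
    (Submodule.closed_of_finiteDimensional _).submodule_topologicalClosure_eq
  have htop : (Submodule.span ℝ w).topologicalClosure = ⊤ :=
    (Submodule.dense_iff_topologicalClosure_eq_top).1 hdense
  rw [hcl] at htop
  have : FiniteDimensional ℝ (⊤ : Submodule ℝ H) := by rw [← htop]; exact hfd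
  exact Module.finite_def.2 (Module.Finite.iff_fg.1 this)

/-- A finite Gram matrix is realised inside a Riesz basis of any infinite dimensional Hilbert
space; the other elements of the basis are orthogonal to the given ones. -/
theorem exists_system {J : Type} [Fintype J] [DecidableEq J] {G : Matrix J J ℝ}
    (hsym : ∀ j k, G j k = G k j) (hdiag : ∀ j, G j j = 1) {C₁ C₂ : ℝ}
    (h0 : 0 < C₁) (h1 : C₁ ≤ 1) (h2 : 1 ≤ C₂)
    (hlo : ∀ x : J → ℝ, C₁ ^ 2 * ∑ j, x j ^ 2 ≤ ∑ j, ∑ k, G j k * x j * x k)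
    (hup : ∀ x : J → ℝ, ∑ j, ∑ k, G j k * x j * x k ≤ C₂ ^ 2 * ∑ j, x j ^ 2)
    (hinf : ¬ FiniteDimensional ℝ H) :
    ∃ B ∈ RB H C₁ C₂, ∃ g : J → H, (∀ j, g j ∈ B) ∧ (∀ j k, ⟪g j, g k⟫ = G j k) ∧
      ∀ h ∈ B, (∃ j, h = g j) ∨ ∀ j, ⟪g j, h⟫ = 0 := by
  classical
  obtain ⟨w, hwinf, hon, hdense⟩ := exists_infinite_onb hinf
  obtain ⟨B, C, hB, hBC⟩ := exists_factor hsym (by positivity : 0 < C₁ ^ 2) hlo
  have : Infinite w := hwinf.to_subtype
  let e : J ↪ w := ((Fintype.equivFin J).toEmbedding.trans Fin.valEmbedding).trans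
    (Infinite.natEmbedding w)
  have hee : ∀ i j, ⟪((e i : w) : H), (e j : H)⟫ = if i = j then (1 : ℝ) else 0 := by
    intro i j
    have := orthonormal_iff_ite.1 hon (e i) (e j)
    rw [this]
    by_cases h : i = j
    · simp [h]
    · rw [if_neg h, if_neg (fun h' => h (e.injective h'))]
  let g : J → H := fun j => ∑ i, B i j • (e i : H)
  have hgg : ∀ j k, ⟪g j, g k⟫ = G j k := by
    intro j k
    simp only [g, sum_inner, inner_sum, real_inner_smul_left, real_inner_smul_right, hee,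
      mul_ite, mul_one, mul_zero, Finset.sum_ite_eq', Finset.mem_univ, if_true]
    rw [← hB, Matrix.mul_apply]
    simp only [Matrix.transpose_apply]
    exact Finset.sum_congr rfl (fun _ _ => mul_comm _ _)
  let K : Type _ := {i : w // i ∉ Set.range e}
  let v : J ⊕ K → H := Sum.elim g (fun i => ((i : w) : H))
  have hgK : ∀ j (i : K), ⟪g j, ((i : w) : H)⟫ = 0 := by
    intro j i
    simp only [g, sum_inner, real_inner_smul_left]
    apply Finset.sum_eq_zero
    intro k _
    have := orthonormal_iff_ite.1 hon (e k) i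
    rw [this, if_neg, mul_zero]
    intro h
    exact i.2 ⟨k, h⟩
  have hKK : ∀ i i' : K, ⟪((i : w) : H), ((i' : w) : H)⟫ = if i = i' then (1 : ℝ) else 0 := by
    intro i i'
    have := orthonormal_iff_ite.1 hon i i'
    rw [this]
    by_cases h : i = i'
    · simp [h]
    · rw [if_neg h, if_neg (fun h' => h (Subtype.ext h'))]
  have hnorm : ∀ (s : Finset (J ⊕ K)) (c : J ⊕ K → ℝ),
      ∃ x : J → ℝ, ∑ j, x j ^ 2 = ∑ j ∈ s.toLeft, c (Sum.inl j) ^ 2 ∧
      ‖∑ i ∈ s, c i • v i‖ ^ 2 = (∑ j, ∑ k, G j k * x j * x k) +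
        ∑ i ∈ s.toRight, c (Sum.inr i) ^ 2 := by
    intro s c
    refine ⟨fun j => if j ∈ s.toLeft then c (Sum.inl j) else 0, ?_, ?_⟩
    · rw [← Finset.sum_filter_add_sum_filter_not Finset.univ (fun j => j ∈ s.toLeft)]
      have hz : ∑ x ∈ Finset.univ.filter (fun j => ¬ j ∈ s.toLeft),
          (if x ∈ s.toLeft then c (Sum.inl x) else 0) ^ 2 = 0 := by
        apply Finset.sum_eq_zero
        intro j hj
        rw [if_neg (Finset.mem_filter.1 hj).2]
        ring
      rw [hz, add_zero]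
      have hf : Finset.univ.filter (fun j => j ∈ s.toLeft) = s.toLeft := by
        ext j; simp
      rw [hf]
      exact Finset.sum_congr rfl (fun j hj => by simp only [if_pos hj])
    · have hsum : ∑ i ∈ s, c i • v i =
          ∑ j, (if j ∈ s.toLeft then c (Sum.inl j) else 0) • g j +
            ∑ i ∈ s.toRight, c (Sum.inr i) • ((i : w) : H) := by
        conv_lhs => rw [← Finset.toLeft_disjSum_toRight (u := s)]
        rw [Finset.sum_disjSum]
        congr 1
        simp only [ite_smul, zero_smul]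
        rw [← Finset.sum_filter]
        have hf : Finset.univ.filter (fun j => j ∈ s.toLeft) = s.toLeft := by
          ext j; simp
        rw [hf]
        rfl
      rw [hsum, ← real_inner_self_eq_norm_sq]
      rw [inner_add_left, inner_add_right, inner_add_right]
      have hx1 : ⟪∑ j, (if j ∈ s.toLeft then c (Sum.inl j) else 0) • g j,
          ∑ i ∈ s.toRight, c (Sum.inr i) • ((i : w) : H)⟫ = 0 := by
        simp only [sum_inner, inner_sum, real_inner_smul_left, real_inner_smul_right, hgK,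
          mul_zero, Finset.sum_const_zero]
      have hx2 : ⟪∑ i ∈ s.toRight, c (Sum.inr i) • ((i : w) : H),
          ∑ j, (if j ∈ s.toLeft then c (Sum.inl j) else 0) • g j⟫ = 0 := by
        rw [real_inner_comm]; exact hx1
      have hx3 : ⟪∑ i ∈ s.toRight, c (Sum.inr i) • ((i : w) : H),
          ∑ i ∈ s.toRight, c (Sum.inr i) • ((i : w) : H)⟫ =
          ∑ i ∈ s.toRight, c (Sum.inr i) ^ 2 := by
        simp only [sum_inner, inner_sum, real_inner_smul_left, real_inner_smul_right, hKK,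
          mul_ite, mul_one, mul_zero]
        refine Finset.sum_congr rfl (fun i hi => ?_)
        rw [Finset.sum_ite_eq', if_pos hi]
        ring
      have hx4 : ⟪∑ j, (if j ∈ s.toLeft then c (Sum.inl j) else 0) • g j,
          ∑ j, (if j ∈ s.toLeft then c (Sum.inl j) else 0) • g j⟫ =
          ∑ j, ∑ k, G j k * (if j ∈ s.toLeft then c (Sum.inl j) else 0) *
            (if k ∈ s.toLeft then c (Sum.inl k) else 0) := by
        simp only [sum_inner, inner_sum, real_inner_smul_left, real_inner_smul_right, hgg]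
        refine Finset.sum_congr rfl (fun j _ => Finset.sum_congr rfl (fun k _ => ?_))
        rw [hsym k j]
        ring
      rw [hx1, hx2, hx3, hx4]
      ring
  have hdecomp : ∀ (s : Finset (J ⊕ K)) (c : J ⊕ K → ℝ), ∑ i ∈ s, c i ^ 2 =
      ∑ j ∈ s.toLeft, c (Sum.inl j) ^ 2 + ∑ i ∈ s.toRight, c (Sum.inr i) ^ 2 := by
    intro s c
    conv_lhs => rw [← Finset.toLeft_disjSum_toRight (u := s)]
    rw [Finset.sum_disjSum]
  have hrange : Set.range v ∈ RB H C₁ C₂ := by
    apply rb_of_family h0 (by linarith) v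
    · rintro (j | i)
      · show ‖g j‖ = 1
        have := hgg j j
        rw [hdiag, real_inner_self_eq_norm_sq] at this
        exact (pow_eq_one_iff_of_nonneg (norm_nonneg _) two_ne_zero).1 this
      · exact hon.1 i
    · refine hdense.mono ?_
      have hsub : Submodule.span ℝ w ≤ Submodule.span ℝ (Set.range v) := by
        rw [Submodule.span_le]
        intro x hx
        by_cases hxe : (⟨x, hx⟩ : w) ∈ Set.range e
        · obtain ⟨k, hk⟩ := hxe
          have hxk : x = ∑ j, C j k • g j := by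
            have h3 : ∑ j, C j k • g j = ∑ i, (B * C) i k • ((e i : w) : H) := by
              simp only [g, Finset.smul_sum, smul_smul, Matrix.mul_apply, Finset.sum_smul]
              rw [Finset.sum_comm]
              refine Finset.sum_congr rfl (fun i _ => Finset.sum_congr rfl (fun j _ => ?_))
              rw [mul_comm]
            rw [h3, hBC]
            simp only [Matrix.one_apply, ite_smul, one_smul, zero_smul, Finset.sum_ite_eq',
              Finset.mem_univ, if_true]
            rw [hk]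
          rw [hxk]
          exact Submodule.sum_mem _ (fun j _ => Submodule.smul_mem _ _
            (Submodule.subset_span ⟨Sum.inl j, rfl⟩))
        · exact Submodule.subset_span ⟨Sum.inr ⟨⟨x, hx⟩, hxe⟩, rfl⟩
      exact hsub
    · intro s c
      obtain ⟨x, hx1, hx2⟩ := hnorm s c
      rw [hx2, hdecomp s c, ← hx1]
      have h3 := hlo x
      have h4 : 0 ≤ ∑ i ∈ s.toRight, c (Sum.inr i) ^ 2 :=
        Finset.sum_nonneg (fun _ _ => sq_nonneg _)
      have h5 : C₁ ^ 2 ≤ 1 := by nlinarith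
      nlinarith
    · intro s c
      obtain ⟨x, hx1, hx2⟩ := hnorm s c
      rw [hx2, hdecomp s c, ← hx1]
      have h3 := hup x
      have h4 : 0 ≤ ∑ i ∈ s.toRight, c (Sum.inr i) ^ 2 :=
        Finset.sum_nonneg (fun _ _ => sq_nonneg _)
      have h5 : 1 ≤ C₂ ^ 2 := by nlinarith
      nlinarith
  refine ⟨Set.range v, hrange, g, fun j => ⟨Sum.inl j, rfl⟩, hgg, ?_⟩
  rintro _ ⟨(j | i), rfl⟩
  · exact Or.inl ⟨j, rfl⟩
  · exact Or.inr (fun j => hgK j i)

end system

end Pool.Agent.Lib.MP_3cbb73_an
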