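import Pool.Agent.Lib.MP_3cbb73_an.TransferRun

set_option autoImplicit false

namespace Pool.Agent.Lib.MP_3cbb73_an

open Real

variable {H : Type*} [NormedAddCommGroup H] [InnerProductSpace ℝ H] [CompleteSpace H]

/-- From lower bounds along a geometric sequence of times to lower bounds at all times. -/
theorem γ_lower_of_geometric {C₁ C₂ Λ b c η : ℝ} (hΛ : 1 < Λ) (hb : 0 < b) (hc : 0 < c)
    (hη : 0 ≤ η)
    (h : ∀ K : ℕ, ∃ M : ℕ, b * Λ ^ K ≤ M ∧ c * (Λ ^ K) ^ (-η) ≤ γ H C₁ C₂ M) {m : ℕ}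
    (hm : 1 ≤ m) :
    c * (Λ / min b 1) ^ (-η) * (m : ℝ) ^ (-η) ≤ γ H C₁ C₂ m := by
  have hb' : 0 < min b 1 := lt_min hb one_pos
  have hm1 : (1 : ℝ) ≤ m := by exact_mod_cast hm
  have hx : 1 ≤ (m : ℝ) / min b 1 := by
    rw [le_div_iff₀ hb', one_mul]
    exact (min_le_right _ _).trans hm1
  obtain ⟨n, hn1, hn2⟩ := exists_nat_pow_near hx hΛ
  obtain ⟨M, hM1, hM2⟩ := h (n + 1)
  have hmM : m ≤ M := by
    have h3 : (m : ℝ) ≤ min b 1 * Λ ^ (n + 1) := by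
      rw [div_lt_iff₀ hb'] at hn2
      nlinarith
    have h4 : min b 1 * Λ ^ (n + 1) ≤ b * Λ ^ (n + 1) :=
      mul_le_mul_of_nonneg_right (min_le_left _ _) (by positivity)
    exact_mod_cast (h3.trans h4).trans hM1
  have hΛ0 : 0 < Λ := by linarith
  calc c * (Λ / min b 1) ^ (-η) * (m : ℝ) ^ (-η)
      = c * ((Λ / min b 1) * m) ^ (-η) := by
        rw [Real.mul_rpow (by positivity) (by positivity)]
        ring
    _ ≤ c * (Λ ^ (n + 1)) ^ (-η) := by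
        apply mul_le_mul_of_nonneg_left _ hc.le
        apply Real.rpow_le_rpow_of_nonpos (by positivity) _ (by linarith)
        calc Λ ^ (n + 1) = Λ * Λ ^ n := by ring
          _ ≤ Λ * (m / min b 1) := mul_le_mul_of_nonneg_left hn1 hΛ0.le
          _ = Λ / min b 1 * m := by ring
    _ ≤ γ H C₁ C₂ M := hM2
    _ ≤ γ H C₁ C₂ m := γ_antitone C₁ C₂ hmM

end Pool.Agent.Lib.MP_3cbb73_an
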