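import Pool.Agent.Lib.MP_3cbb73_an.Transfer

set_option autoImplicit false

namespace Pool.Agent.Lib.MP_3cbb73_an

open scoped RealInnerProductSpace Matrix
open Real

section run

variable {J : Type} [Fintype J] [DecidableEq J]

/-- Finite runs of the greedy algorithm in coordinates, with Gram matrix `G`. -/
inductive Run (G : Matrix J J ℝ) : (J → ℝ) → (J → ℝ) → ℕ → Prop
  | refl (x : J → ℝ) : Run G x x 0
  | step {x y : J → ℝ} {m : ℕ} (q : J) (hq : ∀ j, |(G *ᵥ x) j| ≤ |(G *ᵥ x) q|)
      (h : Run G (x - Pi.single q ((G *ᵥ x) q)) y m) : Run G x y (m + 1)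

theorem Run.trans {G : Matrix J J ℝ} {x y z : J → ℝ} {m k : ℕ} (h : Run G x y m)
    (h' : Run G y z k) : Run G x z (m + k) := by
  induction h with
  | refl x => simpa using h'
  | step q hq _ ih =>
    have := Run.step q hq (ih h')
    rwa [show ∀ a b : ℕ, a + 1 + b = a + b + 1 from fun a b => by omega]

/-- Infinite runs in coordinates. -/
def IsRun (G : Matrix J J ℝ) (d : ℕ → J → ℝ) : Prop :=
  ∀ k, ∃ q, (∀ j, |(G *ᵥ d k) j| ≤ |(G *ᵥ d k) q|) ∧
    d (k + 1) = d k - Pi.single q ((G *ᵥ d k) q)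

theorem exists_isRun [Nonempty J] (G : Matrix J J ℝ) (x : J → ℝ) :
    ∃ d : ℕ → J → ℝ, d 0 = x ∧ IsRun G d := by
  have hmax : ∀ y : J → ℝ, ∃ q, ∀ j, |(G *ᵥ y) j| ≤ |(G *ᵥ y) q| := fun y =>
    Finite.exists_max (fun j => |(G *ᵥ y) j|)
  choose q hq using hmax
  let nxt : (J → ℝ) → J → ℝ := fun y => y - Pi.single (q y) ((G *ᵥ y) (q y))
  refine ⟨fun k => nxt^[k] x, rfl, fun k => ⟨q (nxt^[k] x), hq _, ?_⟩⟩
  simp only [Function.iterate_succ', Function.comp]
  rfl

theorem Run.exists_isRun [Nonempty J] {G : Matrix J J ℝ} {x y : J → ℝ} {m : ℕ}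
    (h : Run G x y m) : ∃ d : ℕ → J → ℝ, d 0 = x ∧ d m = y ∧ IsRun G d := by
  induction h with
  | refl x =>
    obtain ⟨d, h1, h2⟩ := MP_3cbb73_an.exists_isRun G x
    exact ⟨d, h1, h1, h2⟩
  | @step x y m q hq _ ih =>
    obtain ⟨d, h1, h2, h3⟩ := ih
    refine ⟨fun k => Nat.casesOn k x d, rfl, h2, fun k => ?_⟩
    cases k with
    | zero => exact ⟨q, hq, h1⟩
    | succ k => exact h3 k

variable {H : Type*} [NormedAddCommGroup H] [InnerProductSpace ℝ H] [CompleteSpace H]

/-- A finite run in coordinates gives a lower bound for `γ`. -/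
theorem run_le_γ {G : Matrix J J ℝ}
    (hsym : ∀ j k, G j k = G k j) (hdiag : ∀ j, G j j = 1) {C₁ C₂ : ℝ}
    (h0 : 0 < C₁) (h1 : C₁ ≤ 1) (h2 : 1 ≤ C₂)
    (hlo : ∀ x : J → ℝ, C₁ ^ 2 * ∑ j, x j ^ 2 ≤ ∑ j, ∑ k, G j k * x j * x k)
    (hup : ∀ x : J → ℝ, ∑ j, ∑ k, G j k * x j * x k ≤ C₂ ^ 2 * ∑ j, x j ^ 2)
    (hinf : ¬ FiniteDimensional ℝ H) {x y : J → ℝ} {m : ℕ} (hrun : Run G x y m) :
    √(∑ j, ∑ k, G j k * y j * y k) ≤ γ H C₁ C₂ m * ∑ j, |x j| := by
  classical
  rcases isEmpty_or_nonempty J with hJ | hJ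
  · simp
  obtain ⟨B, hB, g, hgB, hgg, hBg⟩ := exists_system (H := H) hsym hdiag h0 h1 h2 hlo hup hinf
  obtain ⟨d, hd0, hdm, hd⟩ := hrun.exists_isRun
  have hinj : Function.Injective g := by
    intro a b hab
    by_contra hne
    have h := hlo (Pi.single a 1 - Pi.single b 1)
    have e1 : ∑ j, (Pi.single a (1 : ℝ) - Pi.single b 1 : J → ℝ) j ^ 2 > 0 := by
      refine Finset.sum_pos' (fun _ _ => sq_nonneg _) ⟨a, Finset.mem_univ _, ?_⟩
      simp [Pi.single_apply, hne]
    have e2 : ∑ j, ∑ k, G j k * (Pi.single a (1 : ℝ) - Pi.single b 1 : J → ℝ) j *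
        (Pi.single a (1 : ℝ) - Pi.single b 1 : J → ℝ) k =
        ‖∑ j, (Pi.single a (1 : ℝ) - Pi.single b 1 : J → ℝ) j • g j‖ ^ 2 := by
      rw [← real_inner_self_eq_norm_sq]
      simp only [sum_inner, inner_sum, real_inner_smul_left, real_inner_smul_right, hgg]
      refine Finset.sum_congr rfl (fun j _ => Finset.sum_congr rfl (fun k _ => ?_))
      rw [hsym k j]
      ring
    have e3 : ∑ j, (Pi.single a (1 : ℝ) - Pi.single b 1 : J → ℝ) j • g j = 0 := by
      simp only [Pi.sub_apply, sub_smul, Finset.sum_sub_distrib, Pi.single_apply, ite_smul,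
        one_smul, zero_smul, Finset.sum_ite_eq', Finset.mem_univ, if_true, hab, sub_self]
    rw [e2, e3, norm_zero] at h
    have : 0 < C₁ ^ 2 := by positivity
    nlinarith
  let S : (J → ℝ) → H := fun z => ∑ j, z j • g j
  have hSg : ∀ z j, ⟪S z, g j⟫ = (G *ᵥ z) j := by
    intro z j
    simp only [S, sum_inner, real_inner_smul_left, hgg, Matrix.mulVec, dotProduct]
    exact Finset.sum_congr rfl (fun k _ => by rw [hsym k j]; ring)
  have hSn : ∀ z, ‖S z‖ = √(∑ j, ∑ k, G j k * z j * z k) := by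
    intro z
    rw [← Real.sqrt_sq (norm_nonneg (S z)), ← real_inner_self_eq_norm_sq]
    congr 1
    simp only [S, sum_inner, inner_sum, real_inner_smul_left, real_inner_smul_right, hgg]
    refine Finset.sum_congr rfl (fun j _ => Finset.sum_congr rfl (fun k _ => ?_))
    rw [hsym k j]
    ring
  -- the unscaled run
  have hF : ∀ k, ∃ φ ∈ B, (∀ h ∈ B, |⟪S (d k), h⟫| ≤ |⟪S (d k), φ⟫|) ∧
      S (d (k + 1)) = S (d k) - ⟪S (d k), φ⟫ • φ := by
    intro k
    obtain ⟨q, hq, hs⟩ := hd k
    refine ⟨g q, hgB q, fun h hh => ?_, ?_⟩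
    · rcases hBg h hh with ⟨j, rfl⟩ | hz
      · rw [hSg, hSg]; exact hq j
      · have : ⟪S (d k), h⟫ = 0 := by
          simp only [S, sum_inner, real_inner_smul_left, hz, mul_zero, Finset.sum_const_zero]
        rw [this, abs_zero]
        exact abs_nonneg _
    · rw [hSg, hs]
      simp only [S, Pi.sub_apply, sub_smul, Finset.sum_sub_distrib, Pi.single_apply, ite_smul,
        zero_smul, Finset.sum_ite_eq', Finset.mem_univ, if_true]
  have hL0 : 0 ≤ ∑ j, |x j| := Finset.sum_nonneg (fun _ _ => abs_nonneg _)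
  rcases hL0.eq_or_lt with hL | hL
  · -- trivial case
    have hx : x = 0 := by
      funext j
      have := (Finset.sum_eq_zero_iff_of_nonneg (fun _ _ => abs_nonneg _)).1 hL.symm j
        (Finset.mem_univ _)
      simpa using this
    have hanti := (show IsPGA B (S x) (fun k => S (d k)) from ⟨by simp only [hd0], hF⟩).norm_antitone
      hB.1.1 (Nat.zero_le m)
    simp only [hd0, hdm, hx] at hanti
    have hS0 : S 0 = 0 := by simp [S]
    rw [hS0, norm_zero, hSn] at hanti
    rw [← hL, mul_zero]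
    exact hanti
  · set L := ∑ j, |x j| with hLdef
    have hmem : ‖(1 / L) • S y‖ ∈ errors H C₁ C₂ m := by
      refine ⟨B, hB, (1 / L) • S x, ?_, fun k => (1 / L) • S (d k), ⟨?_, fun k => ?_⟩, ?_⟩
      · apply subset_closure
        refine ⟨Finset.univ.image g, fun h => x (Function.invFun g h) / L, ?_, ?_, ?_⟩
        · intro h hh
          simp only [Finset.coe_image, Finset.coe_univ, Set.image_univ, Set.mem_range] at hh
          obtain ⟨j, rfl⟩ := hh
          exact hgB j
        · rw [Finset.sum_image (fun i _ j _ h => hinj h)]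
          simp only [Function.leftInverse_invFun hinj _, abs_div, abs_of_pos hL]
          rw [← Finset.sum_div, ← hLdef, div_self hL.ne']
        · rw [Finset.sum_image (fun i _ j _ h => hinj h)]
          simp only [Function.leftInverse_invFun hinj _, S, Finset.smul_sum, smul_smul]
          exact Finset.sum_congr rfl (fun j _ => by rw [div_eq_inv_mul, one_div])
      · simp only [hd0]
      · obtain ⟨φ, hφ, h3, h4⟩ := hF k
        refine ⟨φ, hφ, fun h hh => ?_, ?_⟩
        · simp only [real_inner_smul_left, abs_mul]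
          exact mul_le_mul_of_nonneg_left (h3 h hh) (abs_nonneg _)
        · simp only [h4, real_inner_smul_left, smul_sub, smul_smul]
      · simp only [hdm]
    have hle := le_csSup (bddAbove_errors (H := H) (C₁ := C₁) (C₂ := C₂) (m := m)) hmem
    rw [norm_smul, hSn, Real.norm_eq_abs, abs_of_pos (by positivity : 0 < 1 / L)] at hle
    have : 1 / L * √(∑ j, ∑ k, G j k * y j * y k) * L ≤ γ H C₁ C₂ m * L :=
      mul_le_mul_of_nonneg_right hle hL.le
    calc √(∑ j, ∑ k, G j k * y j * y k) = 1 / L * √(∑ j, ∑ k, G j k * y j * y k) * L := by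
          field_simp
      _ ≤ _ := this

end run

section blocks

variable {ι : Type} [Fintype ι] [DecidableEq ι]

/-- Inner product of the residual with an element of the group `i`, when all elements of the
group `j` have the coefficient `c j`, group `j` has `n j` elements, and `W i j` is the sum of the
inner products of all elements of group `i` with all elements of group `j`. -/
noncomputable def res (n : ι → ℕ) (W : ι → ι → ℝ) (c : ι → ℝ) (i : ι) : ℝ :=
  (∑ j, W i j * c j) / n i

/-- Block runs: whole groups are swept, all their elements being tied. -/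
inductive BRun (n : ι → ℕ) (W : ι → ι → ℝ) : (ι → ℝ) → (ι → ℝ) → ℕ → Prop
  | refl (c : ι → ℝ) : BRun n W c c 0
  | step {c c' : ι → ℝ} {m : ℕ} (p : ι) (h1 : ∀ l, |res n W c l| ≤ |res n W c p|)
      (h2 : ∀ l, |res n W (c - Pi.single p (res n W c p)) l| ≤ |res n W c p|)
      (h : BRun n W (c - Pi.single p (res n W c p)) c' m) : BRun n W c c' (n p + m)

theorem BRun.trans {n : ι → ℕ} {W : ι → ι → ℝ} {x y z : ι → ℝ} {m k : ℕ} (h : BRun n W x y m)
    (h' : BRun n W y z k) : BRun n W x z (m + k) := by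
  induction h with
  | refl x => simpa using h'
  | step p h1 h2 _ ih =>
    have := BRun.step p h1 h2 (ih h')
    rwa [add_assoc]

theorem res_sub (n : ι → ℕ) (W : ι → ι → ℝ) (c d : ι → ℝ) (i : ι) :
    res n W (c - d) i = res n W c i - res n W d i := by
  simp only [res, Pi.sub_apply, mul_sub, Finset.sum_sub_distrib, sub_div]

theorem res_smul (n : ι → ℕ) (W : ι → ι → ℝ) (a : ℝ) (d : ι → ℝ) (i : ι) :
    res n W (a • d) i = a * res n W d i := by
  simp only [res, Pi.smul_apply, smul_eq_mul, mul_div_assoc', Finset.mul_sum]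
  congr 1
  exact Finset.sum_congr rfl (fun _ _ => by ring)

theorem res_single (n : ι → ℕ) (W : ι → ι → ℝ) (p : ι) (a : ℝ) (i : ι) :
    res n W (Pi.single p a) i = W i p * a / n i := by
  simp only [res, Pi.single_apply, mul_ite, mul_zero, Finset.sum_ite_eq', Finset.mem_univ,
    if_true]

/-- The element Gram matrix. -/
noncomputable def gram (n : ι → ℕ) (W : ι → ι → ℝ) :
    Matrix (Σ i : ι, Fin (n i)) (Σ i : ι, Fin (n i)) ℝ :=
  fun x y => if x = y then 1 else if x.1 = y.1 then 0 else W x.1 y.1 / (n x.1 * n y.1)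

/-- Average over the groups. -/
noncomputable def avg (n : ι → ℕ) (d : (Σ i : ι, Fin (n i)) → ℝ) (i : ι) : ℝ :=
  (∑ b, d ⟨i, b⟩) / n i

theorem gram_mulVec {n : ι → ℕ} (hn : ∀ i, 0 < n i) {W : ι → ι → ℝ} (hd : ∀ i, W i i = n i)
    (d : (Σ i : ι, Fin (n i)) → ℝ) (x : Σ i : ι, Fin (n i)) :
    (gram n W *ᵥ d) x = d x - avg n d x.1 + res n W (avg n d) x.1 := by
  have hn' : ∀ i, (n i : ℝ) ≠ 0 := fun i => by exact_mod_cast (hn i).ne'
  obtain ⟨i, a⟩ := x
  simp only [Matrix.mulVec, dotProduct]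
  rw [Fintype.sum_sigma]
  have h1 : ∀ j, ∑ b, gram n W ⟨i, a⟩ ⟨j, b⟩ * d ⟨j, b⟩ =
      W i j / n i * avg n d j + if j = i then d ⟨i, a⟩ - avg n d i else 0 := by
    intro j
    by_cases hj : j = i
    · subst hj
      rw [if_pos rfl]
      have h2 : ∀ b, gram n W ⟨j, a⟩ ⟨j, b⟩ * d ⟨j, b⟩ = if b = a then d ⟨j, a⟩ else 0 := by
        intro b
        unfold gram
        by_cases hb : b = a
        · subst hb; simp
        · have : ¬ ((⟨j, a⟩ : Σ i : ι, Fin (n i)) = ⟨j, b⟩) := by
            intro h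
            apply hb
            have := (Sigma.mk.inj_iff.1 h).2
            exact (eq_of_heq this).symm
          rw [if_neg this, if_pos rfl, if_neg hb, zero_mul]
      simp only [h2, Finset.sum_ite_eq', Finset.mem_univ, if_true]
      rw [hd, div_self (hn' j)]
      ring
    · rw [if_neg hj, add_zero]
      have h2 : ∀ b, gram n W ⟨i, a⟩ ⟨j, b⟩ * d ⟨j, b⟩ = W i j / (n i * n j) * d ⟨j, b⟩ := by
        intro b
        unfold gram
        have : ¬ ((⟨i, a⟩ : Σ i : ι, Fin (n i)) = ⟨j, b⟩) := by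
          intro h
          exact hj (Sigma.mk.inj_iff.1 h).1.symm
        rw [if_neg this, if_neg (fun h => hj (Eq.symm h))]
      simp only [h2]
      rw [← Finset.mul_sum, avg]
      have := hn' i
      have := hn' j
      field_simp
  simp only [h1]
  rw [Finset.sum_add_distrib, Finset.sum_ite_eq', if_pos (Finset.mem_univ _)]
  simp only [res]
  rw [Finset.sum_div, add_comm]
  congr 1
  exact Finset.sum_congr rfl (fun j _ => by ring)

/-- The lift of a block vector to the elements. -/
def lift (n : ι → ℕ) (c : ι → ℝ) : (Σ i : ι, Fin (n i)) → ℝ := fun x => c x.1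

theorem avg_lift {n : ι → ℕ} (hn : ∀ i, 0 < n i) (c : ι → ℝ) : avg n (lift n c) = c := by
  funext i
  have : (n i : ℝ) ≠ 0 := by exact_mod_cast (hn i).ne'
  simp only [avg, lift, Finset.sum_const, Finset.card_univ, Fintype.card_fin, nsmul_eq_mul]
  field_simp

theorem gram_quad {n : ι → ℕ} (hn : ∀ i, 0 < n i) {W : ι → ι → ℝ} (hd : ∀ i, W i i = n i)
    (d : (Σ i : ι, Fin (n i)) → ℝ) :
    ∑ x, ∑ y, gram n W x y * d x * d y =
      (∑ x, d x ^ 2 - ∑ i, n i * avg n d i ^ 2) +
        ∑ i, ∑ j, W i j * avg n d i * avg n d j := by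
  have hn' : ∀ i, (n i : ℝ) ≠ 0 := fun i => by exact_mod_cast (hn i).ne'
  have h1 : ∀ x, ∑ y, gram n W x y * d x * d y =
      d x ^ 2 + (- avg n d x.1 + res n W (avg n d) x.1) * d x := by
    intro x
    have := gram_mulVec hn hd d x
    simp only [Matrix.mulVec, dotProduct] at this
    calc ∑ y, gram n W x y * d x * d y = d x * ∑ y, gram n W x y * d y := by
          rw [Finset.mul_sum]; exact Finset.sum_congr rfl (fun _ _ => by ring)
      _ = _ := by rw [this]; ring
  simp only [h1]
  rw [Finset.sum_add_distrib, Fintype.sum_sigma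
    (fun x => (- avg n d x.1 + res n W (avg n d) x.1) * d x)]
  have h2 : ∀ i, ∑ b : Fin (n i), (- avg n d i + res n W (avg n d) i) * d ⟨i, b⟩ =
      - (n i * avg n d i ^ 2) + ∑ j, W i j * avg n d i * avg n d j := by
    intro i
    rw [← Finset.mul_sum]
    have h3 : ∑ b, d ⟨i, b⟩ = n i * avg n d i := by
      simp only [avg]
      have := hn' i
      field_simp
    have h4 : ∑ j, W i j * avg n d i * avg n d j = n i * avg n d i * res n W (avg n d) i := by
      simp only [res]
      have h5 : (n i : ℝ) * avg n d i * ((∑ j, W i j * avg n d j) / n i) =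
          avg n d i * ∑ j, W i j * avg n d j := by
        have := hn' i
        field_simp
      rw [h5, Finset.mul_sum]
      exact Finset.sum_congr rfl (fun _ _ => by ring)
    rw [h3, h4]
    ring
  simp only [h2]
  rw [Finset.sum_add_distrib, Finset.sum_neg_distrib]
  ring

theorem avg_sq_le {n : ι → ℕ} (hn : ∀ i, 0 < n i) (d : (Σ i : ι, Fin (n i)) → ℝ) :
    ∑ i, n i * avg n d i ^ 2 ≤ ∑ x, d x ^ 2 := by
  rw [Fintype.sum_sigma]
  refine Finset.sum_le_sum (fun i _ => ?_)
  have hn' : (0 : ℝ) < n i := by exact_mod_cast hn i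
  have hcs := Finset.sum_mul_sq_le_sq_mul_sq Finset.univ (fun b : Fin (n i) => d ⟨i, b⟩)
    (fun _ => (1 : ℝ))
  simp only [mul_one, one_pow, Finset.sum_const, Finset.card_univ, Fintype.card_fin,
    nsmul_eq_mul] at hcs
  simp only [avg]
  rw [div_pow, mul_div_assoc', div_le_iff₀ (by positivity)]
  nlinarith

/-- One sweep, element by element. -/
theorem sweep {n : ι → ℕ} (hn : ∀ i, 0 < n i) {W : ι → ι → ℝ} (hd : ∀ i, W i i = n i)
    {c : ι → ℝ} (p : ι) (h1 : ∀ l, |res n W c l| ≤ |res n W c p|)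
    (h2 : ∀ l, |res n W (c - Pi.single p (res n W c p)) l| ≤ |res n W c p|) :
    Run (gram n W) (lift n c) (lift n (c - Pi.single p (res n W c p))) (n p) := by
  have hn' : ∀ i, (n i : ℝ) ≠ 0 := fun i => by exact_mod_cast (hn i).ne'
  have hnp : (0 : ℝ) < n p := by exact_mod_cast hn p
  set r := res n W c p with hr
  let st : ℕ → (Σ i : ι, Fin (n i)) → ℝ := fun t x => if x.1 = p ∧ (x.2 : ℕ) < t then c p - r
    else c x.1
  have hst0 : st 0 = lift n c := by
    funext x
    simp [st, lift]
  have hstn : st (n p) = lift n (c - Pi.single p r) := by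
    funext ⟨i, a⟩
    simp only [st, lift, Pi.sub_apply, Pi.single_apply]
    by_cases hi : i = p
    · subst hi
      rw [if_pos ⟨rfl, a.2⟩, if_pos rfl]
    · rw [if_neg (fun h => hi h.1), if_neg hi, sub_zero]
  have havg : ∀ t, t ≤ n p → avg n (st t) = c - ((t : ℝ) / n p) • Pi.single p r := by
    intro t ht
    funext i
    simp only [avg, st, Pi.sub_apply, Pi.smul_apply, Pi.single_apply, smul_eq_mul]
    by_cases hi : i = p
    · subst hi
      simp only [true_and, if_true]
      have h3 : ∀ b : Fin (n i), (if (b : ℕ) < t then c i - r else c i) =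
          c i - if (b : ℕ) < t then r else 0 := by
        intro b
        split_ifs <;> ring
      simp only [h3]
      rw [Finset.sum_sub_distrib]
      simp only [Finset.sum_const, Finset.card_univ, Fintype.card_fin, nsmul_eq_mul]
      have h4 : ∑ b : Fin (n i), (if (b : ℕ) < t then r else 0) = t * r := by
        rw [← Finset.sum_filter, Finset.sum_const, nsmul_eq_mul]
        congr 2
        rw [show (Finset.univ.filter (fun b : Fin (n i) => (b : ℕ) < t)) =
          (Finset.univ : Finset (Fin t)).map (Fin.castLEEmb ht) from ?_]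
        · rw [Finset.card_map, Finset.card_univ, Fintype.card_fin]
        · ext b
          simp only [Finset.mem_filter, Finset.mem_univ, true_and, Finset.mem_map]
          constructor
          · intro hb
            exact ⟨⟨b, hb⟩, by ext; simp⟩
          · rintro ⟨b', rfl⟩
            simp
      rw [h4]
      have := hn' i
      field_simp
    · have h3 : ∀ b : Fin (n i), (if i = p ∧ (b : ℕ) < t then c p - r else c i) = c i := by
        intro b
        rw [if_neg (fun h => hi h.1)]
      simp only [h3, if_neg hi, mul_zero, sub_zero]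
      simp only [Finset.sum_const, Finset.card_univ, Fintype.card_fin, nsmul_eq_mul]
      have := hn' i
      field_simp
  have hres : ∀ t, t ≤ n p → ∀ i, res n W (avg n (st t)) i =
      (1 - (t : ℝ) / n p) * res n W c i + (t : ℝ) / n p * res n W (c - Pi.single p r) i := by
    intro t ht i
    rw [havg t ht, res_sub, res_smul, res_sub]
    ring
  have hGst : ∀ t, t ≤ n p → ∀ x : Σ i : ι, Fin (n i), (gram n W *ᵥ st t) x =
      if x.1 = p then (if (x.2 : ℕ) < t then 0 else r) else
        (1 - (t : ℝ) / n p) * res n W c x.1 + (t : ℝ) / n p * res n W (c - Pi.single p r) x.1 := by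
    intro t ht ⟨i, a⟩
    rw [gram_mulVec hn hd, hres t ht, havg t ht]
    simp only [st, Pi.sub_apply, Pi.smul_apply, Pi.single_apply, smul_eq_mul]
    by_cases hi : i = p
    · subst hi
      rw [res_sub, res_single, hd, ← hr]
      simp only [true_and, if_true]
      have := hn' i
      split_ifs <;> (field_simp; try ring)
    · rw [if_neg (fun h => hi h.1), if_neg hi, if_neg hi]
      ring
  have hlegal : ∀ t, t ≤ n p → ∀ x : Σ i : ι, Fin (n i), |(gram n W *ᵥ st t) x| ≤ |r| := by
    intro t ht x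
    rw [hGst t ht]
    split_ifs
    · simp
    · exact le_rfl
    · have ht0 : 0 ≤ (t : ℝ) / n p := by positivity
      have ht1 : (t : ℝ) / n p ≤ 1 := by
        rw [div_le_one hnp]
        exact_mod_cast ht
      have := h1 x.1
      have := h2 x.1
      calc |(1 - (t : ℝ) / n p) * res n W c x.1 + (t : ℝ) / n p * res n W (c - Pi.single p r) x.1|
          ≤ (1 - (t : ℝ) / n p) * |res n W c x.1| +
            (t : ℝ) / n p * |res n W (c - Pi.single p r) x.1| := by
            refine (abs_add_le _ _).trans ?_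
            rw [abs_mul, abs_mul, abs_of_nonneg ht0, abs_of_nonneg (by linarith : 0 ≤ 1 - (t : ℝ) / n p)]
        _ ≤ (1 - (t : ℝ) / n p) * |r| + (t : ℝ) / n p * |r| := by
            gcongr
        _ = |r| := by ring
  have hchain : ∀ k t, t + k = n p → Run (gram n W) (st t) (st (n p)) k := by
    intro k
    induction k with
    | zero =>
      intro t ht
      rw [add_zero] at ht
      subst ht
      exact Run.refl _
    | succ k ih =>
      intro t ht
      have htp : t < n p := by omega
      have hq : (gram n W *ᵥ st t) ⟨p, ⟨t, htp⟩⟩ = r := by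
        rw [hGst t (by omega)]
        simp
      refine Run.step ⟨p, ⟨t, htp⟩⟩ (fun x => ?_) ?_
      · rw [hq]
        exact hlegal t (by omega) x
      · rw [hq]
        have hnext : st t - Pi.single ⟨p, ⟨t, htp⟩⟩ r = st (t + 1) := by
          funext ⟨i, a⟩
          simp only [st, Pi.sub_apply, Pi.single_apply]
          by_cases hi : i = p
          · subst hi
            have hiff : ((⟨i, a⟩ : Σ i : ι, Fin (n i)) = ⟨i, ⟨t, htp⟩⟩) ↔ (a : ℕ) = t := by
              constructor
              · intro h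
                have := eq_of_heq (Sigma.mk.inj_iff.1 h).2
                rw [this]
              · intro h
                have hat : a = ⟨t, htp⟩ := Fin.ext h
                rw [hat]
            simp only [true_and, hiff]
            rcases lt_trichotomy (a : ℕ) t with ha | ha | ha
            · rw [if_pos ha, if_neg ha.ne, if_pos (Nat.lt_succ_of_lt ha), sub_zero]
            · rw [if_neg ha.not_lt, if_pos ha, if_pos (by rw [ha]; exact Nat.lt_succ_self t)]
            · rw [if_neg ha.not_gt, if_neg ha.ne', if_neg (by omega), sub_zero]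
          · have hne : ¬ ((⟨i, a⟩ : Σ i : ι, Fin (n i)) = ⟨p, ⟨t, htp⟩⟩) := by
              intro h
              exact hi (Sigma.mk.inj_iff.1 h).1
            simp only [hi, false_and, if_false, hne, sub_zero]
        rw [hnext]
        exact ih (t + 1) (by omega)
  have := hchain (n p) 0 (by omega)
  rwa [hst0, hstn] at this

theorem BRun.run {n : ι → ℕ} (hn : ∀ i, 0 < n i) {W : ι → ι → ℝ} (hd : ∀ i, W i i = n i)
    {c c' : ι → ℝ} {m : ℕ} (h : BRun n W c c' m) :
    Run (gram n W) (lift n c) (lift n c') m := by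
  induction h with
  | refl c => exact Run.refl _
  | step p h1 h2 _ ih => exact (sweep hn hd p h1 h2).trans ih

variable {H : Type*} [NormedAddCommGroup H] [InnerProductSpace ℝ H] [CompleteSpace H]

/-- TRANSFER: a block run gives a lower bound for `γ`. -/
theorem brun_le_γ {n : ι → ℕ} (hn : ∀ i, 0 < n i) {W : ι → ι → ℝ}
    (hsym : ∀ i j, W i j = W j i) (hd : ∀ i, W i i = n i) {C₁ C₂ : ℝ}
    (h0 : 0 < C₁) (h1 : C₁ ≤ 1) (h2 : 1 ≤ C₂)
    (hlo : ∀ x : ι → ℝ, C₁ ^ 2 * ∑ i, n i * x i ^ 2 ≤ ∑ i, ∑ j, W i j * x i * x j)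
    (hup : ∀ x : ι → ℝ, ∑ i, ∑ j, W i j * x i * x j ≤ C₂ ^ 2 * ∑ i, n i * x i ^ 2)
    (hinf : ¬ FiniteDimensional ℝ H) {c c' : ι → ℝ} {m : ℕ} (hrun : BRun n W c c' m) :
    √(∑ i, ∑ j, W i j * c' i * c' j) ≤ γ H C₁ C₂ m * ∑ i, n i * |c i| := by
  have hC1 : C₁ ^ 2 ≤ 1 := by nlinarith
  have hC2 : 1 ≤ C₂ ^ 2 := by nlinarith
  have key := run_le_γ (H := H) (G := gram n W) (C₁ := C₁) (C₂ := C₂)
    (fun x y => by
      unfold gram
      by_cases hxy : x = y
      · rw [hxy]
      · have hyx : ¬ y = x := fun h => hxy h.symm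
        by_cases hx : x.1 = y.1
        · simp only [if_neg hxy, if_neg hyx, if_pos hx, if_pos hx.symm]
        · have hx' : ¬ y.1 = x.1 := fun h => hx h.symm
          simp only [if_neg hxy, if_neg hyx, if_neg hx, if_neg hx']
          rw [hsym x.1 y.1, mul_comm (n x.1 : ℝ)])
    (fun x => by unfold gram; rw [if_pos rfl]) h0 h1 h2
    (fun x => by
      rw [gram_quad hn hd]
      have h3 := hlo (avg n x)
      have h4 := avg_sq_le hn x
      nlinarith)
    (fun x => by
      rw [gram_quad hn hd]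
      have h3 := hup (avg n x)
      have h4 := avg_sq_le hn x
      nlinarith)
    hinf (hrun.run hn hd)
  rw [gram_quad hn hd, avg_lift hn] at key
  have e1 : ∑ x : Σ i : ι, Fin (n i), lift n c' x ^ 2 = ∑ i, n i * c' i ^ 2 := by
    rw [Fintype.sum_sigma]
    refine Finset.sum_congr rfl (fun i _ => ?_)
    simp [lift]
  have e2 : ∑ x : Σ i : ι, Fin (n i), |lift n c x| = ∑ i, n i * |c i| := by
    rw [Fintype.sum_sigma]
    refine Finset.sum_congr rfl (fun i _ => ?_)
    simp [lift]
  rw [e1, e2, sub_self, zero_add] at key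
  exact key

/-- TRANSFER, with the lower Riesz bound for the last residual. -/
theorem brun_le_γ' {n : ι → ℕ} (hn : ∀ i, 0 < n i) {W : ι → ι → ℝ}
    (hsym : ∀ i j, W i j = W j i) (hd : ∀ i, W i i = n i) {C₁ C₂ : ℝ}
    (h0 : 0 < C₁) (h1 : C₁ ≤ 1) (h2 : 1 ≤ C₂)
    (hlo : ∀ x : ι → ℝ, C₁ ^ 2 * ∑ i, n i * x i ^ 2 ≤ ∑ i, ∑ j, W i j * x i * x j)
    (hup : ∀ x : ι → ℝ, ∑ i, ∑ j, W i j * x i * x j ≤ C₂ ^ 2 * ∑ i, n i * x i ^ 2)
    (hinf : ¬ FiniteDimensional ℝ H) {c c' : ι → ℝ} {m : ℕ} (hrun : BRun n W c c' m) :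
    C₁ * √(∑ i, n i * c' i ^ 2) ≤ γ H C₁ C₂ m * ∑ i, n i * |c i| := by
  refine le_trans ?_ (brun_le_γ hn hsym hd h0 h1 h2 hlo hup hinf hrun)
  apply Real.le_sqrt_of_sq_le
  rw [mul_pow, Real.sq_sqrt (Finset.sum_nonneg (fun i _ => by positivity))]
  exact hlo c'

end blocks

end Pool.Agent.Lib.MP_3cbb73_an
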